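import Pool.Agent.T9h53.AH.BoxL

/-! # Quotients by the zeta function are not too large where they are holomorphic -/

set_option autoImplicit false

open Complex Filter Topology Set Metric

namespace Pool.Agent.T9h53.AJ

open Pool.Agent.T9h53.SZ Pool.Agent.T9h53.EQ Pool.Agent.T9h53.AH Pool.Agent.T9h53.SG

theorem box_N : ∃ T₀ : ℝ, 10 ≤ T₀ ∧ ∀ τ : ℝ, T₀ ≤ τ → ∀ (D Nn : ℂ → ℂ) (B : ℝ), 0 ≤ B →
    (∀ z : ℂ, |z.im - τ| < 4 → AnalyticAt ℂ D z) →
    (∀ z : ℂ, |z.im - τ| < 4 → Nn z = D z * riemannZeta (1 / 2 + z)) →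
    (∀ z : ℂ, |z.im - τ| < 4 → |z.re| ≤ 6 → ‖Nn z‖ ≤ B) →
    ∀ x : ℝ, -1 ≤ x → x ≤ 1 → ‖D ⟨x, τ⟩‖ ≤ B * Real.exp ((Real.log τ) ^ 2) := by
  obtain ⟨C1, A1, y1, hC1, hA1, hy1, hg1⟩ :=
    growth_left zHU.hR (fun _ : Unit => 0) zHU.he zHU.hw zHU.fe zHU.gr 3 (by norm_num)
  have hS0 := AH.S0_nonneg
  set c : ℝ := (AH.S0 + 1)⁻¹ with hcdef
  have hc : 0 < c := inv_pos.mpr (by linarith)
  set K : ℝ := |Real.log ((C1 + 1) / c)| + A1 * Real.log 4 + A1 with hK
  have hl4 : 0 ≤ Real.log 4 := Real.log_nonneg (by norm_num)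
  have hK0 : 0 < K := by positivity
  have hsm := QQ_small 0 (|Real.log c|) K hK0
  have hsm2 := Real.tendsto_log_atTop.eventually hsm
  obtain ⟨T1, hT1⟩ := eventually_atTop.mp hsm2
  refine ⟨max T1 (10 + y1), le_trans (by linarith) (le_max_right _ _), ?_⟩
  intro τ hτ D Nn B hB hD hDL hNB x hx0 hx1
  have hT10 : 10 + y1 ≤ τ := (le_max_right _ _).trans hτ
  have hfin := hT1 τ ((le_max_left _ _).trans hτ)
  have hτ0 : 0 < τ := by linarith
  have hlogτ1 : 1 ≤ Real.log τ := by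
    rw [Real.le_log_iff_exp_le hτ0]
    have := Real.exp_one_lt_three
    linarith
  set ctr : ℂ := ⟨3 / 2, τ⟩ with hctr
  set sc : ℂ → ℂ := fun w => ctr + 2 * (w - ctr) with hsc
  set f : ℂ → ℂ := fun w => riemannZeta (1 / 2 + sc w) with hf
  have hscre : ∀ w : ℂ, (sc w).re = 3 / 2 + 2 * (w.re - 3 / 2) := by
    intro w
    rw [hsc, hctr]
    simp
  have hscim : ∀ w : ℂ, (sc w).im = τ + 2 * (w.im - τ) := by
    intro w
    rw [hsc, hctr]
    simp
  have hball : ∀ w ∈ closedBall ctr 1.9, |w.re - 3 / 2| ≤ 1.9 ∧ |w.im - τ| ≤ 1.9 := by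
    intro w hw
    rw [mem_closedBall, dist_eq_norm] at hw
    have h1 := abs_re_le_norm (w - ctr)
    have h2 := abs_im_le_norm (w - ctr)
    rw [sub_re] at h1
    rw [sub_im] at h2
    exact ⟨h1.trans hw, h2.trans hw⟩
  have hbs : ∀ w ∈ closedBall ctr 1.9, |(sc w).re| ≤ 6 ∧ -3 ≤ (sc w).re ∧
      |(sc w).im - τ| < 4 ∧ y1 ≤ (sc w).im ∧ (sc w).im ≤ 4 * τ := by
    intro w hw
    obtain ⟨h1, h2⟩ := hball w hw
    obtain ⟨h3, h4⟩ := abs_le.mp h1
    obtain ⟨h5, h6⟩ := abs_le.mp h2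
    rw [hscre, hscim]
    norm_num at h3 h4 h5 h6
    refine ⟨abs_le.mpr ⟨by linarith, by linarith⟩, by linarith, abs_lt.mpr ⟨by linarith, by linarith⟩,
      by linarith, by linarith⟩
  have hfan : AnalyticOnNhd ℂ f (closedBall ctr 1.9) := by
    intro w hw
    obtain ⟨-, -, -, h4, -⟩ := hbs w hw
    have h1 : AnalyticAt ℂ (fun w => riemannZeta (1 / 2 + w)) (sc w) := zeta_an (by linarith)
    exact AnalyticAt.fun_comp (f := sc) (g := fun w => riemannZeta (1 / 2 + w)) h1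
      (by rw [hsc]; fun_prop)
  set M : ℝ := (C1 + 1) * (4 * τ) ^ A1 with hM
  have h4τ : 1 ≤ 4 * τ := by linarith
  have hpow1 : 1 ≤ (4 * τ) ^ A1 := Real.one_le_rpow h4τ hA1.le
  have hM1 : 1 ≤ M := by rw [hM]; nlinarith
  have hb : ∀ w ∈ closedBall ctr 1.9, ‖f w‖ ≤ M := by
    intro w hw
    obtain ⟨-, h2, -, h4, h5⟩ := hbs w hw
    have hre : (1 / 2 + sc w).re = 1 / 2 + (sc w).re := by simp
    have him : (1 / 2 + sc w).im = (sc w).im := by simp
    have h7 := hg1 (1 / 2 + sc w) (by rw [hre]; linarith) (by rw [him]; exact h4)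
    rw [him] at h7
    have h8 : (sc w).im ^ A1 ≤ (4 * τ) ^ A1 := Real.rpow_le_rpow (by linarith) h5 hA1.le
    calc ‖f w‖ ≤ C1 * (sc w).im ^ A1 := h7
      _ ≤ C1 * (4 * τ) ^ A1 := by gcongr
      _ ≤ M := by rw [hM]; nlinarith
  have hctrmem : ctr ∈ closedBall ctr 1.9 := mem_closedBall_self (by norm_num)
  have hscc : sc ctr = ctr := by rw [hsc]; simp
  have hcl : c ≤ ‖f ctr‖ := by
    have h1 := inv_zeta_le (z := ctr) (by rw [hctr]; norm_num)
    rw [norm_inv] at h1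
    have h3 : riemannZeta (1 / 2 + ctr) ≠ 0 := by
      apply riemannZeta_ne_zero_of_one_lt_re
      rw [hctr]
      norm_num
    have h4 : 0 < ‖riemannZeta (1 / 2 + ctr)‖ := norm_pos_iff.mpr h3
    rw [hf]
    simp only
    rw [hscc, hcdef, inv_le_comm₀ (by linarith) h4]
    linarith
  have hfc0 : 0 < ‖f ctr‖ := lt_of_lt_of_le hc hcl
  obtain ⟨r, hr1, hr2, hr⟩ := circle_lower (f := f) (c := ctr) hM1 hfan
    (norm_pos_iff.mp hfc0) (hb _ hctrmem) hb
  have hLle : Real.log (M / ‖f ctr‖) ≤ K * Real.log τ := by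
    have h1 : Real.log (M / ‖f ctr‖) ≤ Real.log ((C1 + 1) / c * (4 * τ) ^ A1) := by
      apply Real.log_le_log (by positivity)
      rw [hM]
      calc (C1 + 1) * (4 * τ) ^ A1 / ‖f ctr‖ ≤ (C1 + 1) * (4 * τ) ^ A1 / c := by gcongr
        _ = _ := by ring
    rw [Real.log_mul (by positivity) (by positivity), Real.log_rpow (by positivity),
      Real.log_mul (by positivity) hτ0.ne'] at h1
    have h2 := le_abs_self (Real.log ((C1 + 1) / c))
    have h3 := abs_nonneg (Real.log ((C1 + 1) / c))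
    have h4 : A1 * Real.log 4 ≤ A1 * Real.log 4 * Real.log τ := by
      have : 0 ≤ A1 * Real.log 4 := by positivity
      nlinarith
    rw [hK]
    nlinarith
  have hL0 : 0 ≤ Real.log (M / ‖f ctr‖) := by
    apply Real.log_nonneg
    rw [le_div_iff₀ hfc0, one_mul]
    exact hb _ hctrmem
  have hr0 : 0 < r := by linarith
  -- bound on the sphere
  have hsph : ∀ w ∈ sphere ctr r, ‖D (sc w)‖ ≤ B / c * Real.exp (QQ (K * Real.log τ)) := by
    intro w hw
    have hwball : w ∈ closedBall ctr 1.9 := by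
      rw [mem_closedBall]
      rw [mem_sphere] at hw
      rw [hw]
      exact hr2.trans (by norm_num)
    obtain ⟨h01, h02, h03, h04, h05⟩ := hbs w hwball
    have h1 := hr w hw
    have h2 := hDL (sc w) h03
    have h3 := hNB (sc w) h03 h01
    have h5 : QQ (Real.log (M / ‖f ctr‖)) ≤ QQ (K * Real.log τ) := QQ_mono hL0 hLle
    have h6 : c * Real.exp (-QQ (K * Real.log τ)) ≤ ‖f w‖ := by
      refine le_trans ?_ h1
      apply mul_le_mul hcl _ (Real.exp_pos _).le (norm_nonneg _)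
      apply Real.exp_le_exp.mpr
      linarith
    have h7 : ‖D (sc w)‖ * ‖f w‖ ≤ B := by
      rw [← norm_mul, hf]
      simp only
      rw [← h2]
      exact h3
    have h8 : ‖D (sc w)‖ * (c * Real.exp (-QQ (K * Real.log τ))) ≤ B :=
      (mul_le_mul_of_nonneg_left h6 (norm_nonneg _)).trans h7
    rw [Real.exp_neg] at h8
    have h9 := Real.exp_pos (QQ (K * Real.log τ))
    have h10 : ‖D (sc w)‖ = ‖D (sc w)‖ * (c * (Real.exp (QQ (K * Real.log τ)))⁻¹) *
        (Real.exp (QQ (K * Real.log τ)) / c) := by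
      field_simp
    rw [h10]
    calc _ ≤ B * (Real.exp (QQ (K * Real.log τ)) / c) := by gcongr
      _ = _ := by ring
  set w₀ : ℂ := ctr + ((x - 3 / 2) / 2 : ℝ) with hw₀
  have hscw : sc w₀ = ⟨x, τ⟩ := by
    rw [hsc, hw₀, hctr]
    apply Complex.ext
    · simp
      ring
    · simp
  have hz : ‖D (sc w₀)‖ ≤ B / c * Real.exp (QQ (K * Real.log τ)) := by
    refine Complex.norm_le_of_forall_mem_frontier_norm_le (f := fun w => D (sc w))
      (U := ball ctr r) isBounded_ball ?_ ?_ ?_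
    · apply DifferentiableOn.diffContOnCl
      rw [closure_ball ctr hr0.ne']
      intro w hw
      have hw2 : w ∈ closedBall ctr 1.9 :=
        closedBall_subset_closedBall (hr2.trans (by norm_num)) hw
      obtain ⟨-, -, h03, -, -⟩ := hbs w hw2
      have h1 : DifferentiableAt ℂ (fun w => D (sc w)) w :=
        DifferentiableAt.comp w (g := D) (f := sc) (hD _ h03).differentiableAt
          (by rw [hsc]; fun_prop)
      exact h1.differentiableWithinAt
    · intro w hw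
      rw [frontier_ball ctr hr0.ne'] at hw
      exact hsph w hw
    · rw [closure_ball ctr hr0.ne', mem_closedBall, dist_eq_norm]
      have e1 : w₀ - ctr = (((x - 3 / 2) / 2 : ℝ) : ℂ) := by
        rw [hw₀]
        ring
      rw [e1, Complex.norm_real, Real.norm_eq_abs]
      refine le_trans ?_ hr1
      rw [abs_le]
      norm_num
      constructor <;> linarith
  rw [hscw] at hz
  refine hz.trans ?_
  rw [div_mul_eq_mul_div, mul_div_assoc]
  apply mul_le_mul_of_nonneg_left _ hB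
  rw [zero_mul, zero_add] at hfin
  have e5 := neg_abs_le (Real.log c)
  rw [div_le_iff₀ hc]
  calc Real.exp (QQ (K * Real.log τ)) ≤ Real.exp (Real.log τ ^ 2 + Real.log c) := by
        apply Real.exp_le_exp.mpr
        linarith
    _ = _ := by rw [Real.exp_add, Real.exp_log hc]

end Pool.Agent.T9h53.AJ
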