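import Pool.Agent.T9h53.AJ.Ew
import Pool.Agent.T9h53.AH.Zer

/-! # The cut function, indices and slopes -/

set_option autoImplicit false

open Complex Filter Topology Set

namespace Pool.Agent.T9h53.AJ

open Pool.Agent.T9h53.SZ Pool.Agent.T9h53.EQ Pool.Agent.T9h53.AH

/-- the cut-off -/
noncomputable def ch (W s : ℝ) : ℝ := max 0 (min 1 ((3 * W - |s|) / (2 * W)))

lemma ch_nonneg (W s : ℝ) : 0 ≤ ch W s := le_max_left _ _

lemma ch_le_one (W s : ℝ) : ch W s ≤ 1 := max_le zero_le_one (min_le_left _ _)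

lemma ch_one {W s : ℝ} (hW : 0 < W) (hs : |s| ≤ W) : ch W s = 1 := by
  unfold ch
  have h1 : 1 ≤ (3 * W - |s|) / (2 * W) := by
    rw [le_div_iff₀ (by positivity)]
    linarith
  rw [min_eq_left h1, max_eq_right zero_le_one]

lemma ch_zero {W s : ℝ} (hW : 0 < W) (hs : 3 * W ≤ |s|) : ch W s = 0 := by
  unfold ch
  have h1 : (3 * W - |s|) / (2 * W) ≤ 0 := div_nonpos_of_nonpos_of_nonneg (by linarith) (by positivity)
  exact max_eq_left ((min_le_right _ _).trans h1)

lemma ch_lip {W : ℝ} (hW : 0 < W) (x y : ℝ) : |ch W x - ch W y| ≤ |x - y| / (2 * W) := by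
  unfold ch
  have h1 : |max 0 (min 1 ((3 * W - |x|) / (2 * W))) - max 0 (min 1 ((3 * W - |y|) / (2 * W)))| ≤
      |min 1 ((3 * W - |x|) / (2 * W)) - min 1 ((3 * W - |y|) / (2 * W))| := by
    have := abs_max_sub_max_le_abs (min 1 ((3 * W - |x|) / (2 * W)))
      (min 1 ((3 * W - |y|) / (2 * W))) 0
    rwa [max_comm _ 0, max_comm _ 0] at this
  have h2 : |min 1 ((3 * W - |x|) / (2 * W)) - min 1 ((3 * W - |y|) / (2 * W))| ≤
      |(3 * W - |x|) / (2 * W) - (3 * W - |y|) / (2 * W)| := by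
    have := abs_min_sub_min_le_max (1 : ℝ) ((3 * W - |x|) / (2 * W)) 1 ((3 * W - |y|) / (2 * W))
    rwa [sub_self, abs_zero, max_eq_right (abs_nonneg _)] at this
  refine h1.trans (h2.trans ?_)
  have e : (3 * W - |x|) / (2 * W) - (3 * W - |y|) / (2 * W) = -((|x| - |y|) / (2 * W)) := by
    ring
  rw [e, abs_neg, abs_div, abs_of_pos (show 0 < 2 * W by positivity)]
  apply div_le_div_of_nonneg_right _ (by positivity)
  exact abs_abs_sub_abs_le_abs_sub x y

/-- the cut version of a slowly varying function -/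
noncomputable def aF (g : ℝ → ℂ) (t W s : ℝ) : ℂ := ((ch W s : ℝ) : ℂ) * (g (t + s) - 1)

section
variable {g : ℝ → ℂ} {t W K : ℝ}

lemma aF_one (hW : 0 < W) {s : ℝ} (hs : |s| ≤ W) : aF g t W s = g (t + s) - 1 := by
  unfold aF
  rw [ch_one hW hs, Complex.ofReal_one, one_mul]

lemma aF_zero (hW : 0 < W) {s : ℝ} (hs : 3 * W ≤ |s|) : aF g t W s = 0 := by
  unfold aF
  rw [ch_zero hW hs, Complex.ofReal_zero, zero_mul]

lemma aF_bd (hg1 : ∀ y, ‖g y‖ ≤ 1) (s : ℝ) : ‖aF g t W s‖ ≤ 2 := by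
  unfold aF
  rw [norm_mul, Complex.norm_real, Real.norm_of_nonneg (ch_nonneg W s)]
  have h1 : ‖g (t + s) - 1‖ ≤ 2 := by
    refine (norm_sub_le _ _).trans ?_
    rw [norm_one]
    linarith [hg1 (t + s)]
  calc ch W s * ‖g (t + s) - 1‖ ≤ 1 * 2 :=
        mul_le_mul (ch_le_one W s) h1 (norm_nonneg _) zero_le_one
    _ = 2 := by norm_num

lemma aF_lip (hW : 0 < W) (hK : 0 ≤ K) (hg : ∀ x y, ‖g x - g y‖ ≤ K * |x - y|) (hgt : g t = 1)
    (x y : ℝ) : ‖aF g t W x - aF g t W y‖ ≤ 5 / 2 * K * |x - y| := by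
  have hG : ∀ s, ‖g (t + s) - 1‖ ≤ K * |s| := by
    intro s
    have := hg (t + s) t
    rwa [hgt, add_sub_cancel_left] at this
  have hGG : ∀ x y, ‖(g (t + x) - 1) - (g (t + y) - 1)‖ ≤ K * |x - y| := by
    intro x y
    have := hg (t + x) (t + y)
    rw [add_sub_add_left_eq_sub] at this
    rwa [sub_sub_sub_cancel_right]
  have key : ∀ x y : ℝ, |y| ≤ 3 * W → ‖aF g t W x - aF g t W y‖ ≤ 5 / 2 * K * |x - y| := by
    intro x y hy
    unfold aF
    have e : ((ch W x : ℝ) : ℂ) * (g (t + x) - 1) - ((ch W y : ℝ) : ℂ) * (g (t + y) - 1) =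
        ((ch W x : ℝ) : ℂ) * ((g (t + x) - 1) - (g (t + y) - 1)) +
        ((ch W x - ch W y : ℝ) : ℂ) * (g (t + y) - 1) := by
      push_cast
      ring
    rw [e]
    refine (norm_add_le _ _).trans ?_
    rw [norm_mul, norm_mul, Complex.norm_real, Complex.norm_real,
      Real.norm_of_nonneg (ch_nonneg W x), Real.norm_eq_abs]
    have p1 : ch W x * ‖(g (t + x) - 1) - (g (t + y) - 1)‖ ≤ 1 * (K * |x - y|) :=
      mul_le_mul (ch_le_one W x) (hGG x y) (norm_nonneg _) zero_le_one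
    have p2 : |ch W x - ch W y| * ‖g (t + y) - 1‖ ≤ |x - y| / (2 * W) * (K * (3 * W)) :=
      mul_le_mul (ch_lip hW x y) ((hG y).trans (mul_le_mul_of_nonneg_left hy hK)) (norm_nonneg _)
        (by positivity)
    have e2 : |x - y| / (2 * W) * (K * (3 * W)) = 3 / 2 * K * |x - y| := by
      field_simp
    rw [e2] at p2
    linarith
  rcases le_or_gt |y| (3 * W) with h | h
  · exact key x y h
  · rcases le_or_gt |x| (3 * W) with h' | h'
    · have := key y x h'
      rwa [norm_sub_rev, abs_sub_comm] at this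
    · rw [aF_zero hW h.le, aF_zero hW h'.le, sub_zero, norm_zero]
      positivity

end

/-- the indices of the ordinates in a window -/
lemma idx {W t : ℝ} (hWt : 0 < t - W) : ∃ j₀ n₀ : ℕ, 1 ≤ j₀ ∧
    (∀ j, j₀ ≤ j → j ≤ n₀ → t - W ≤ _root_.SG.ord j ∧ _root_.SG.ord j ≤ t + W) ∧
    (∀ j, 1 ≤ j → t - W ≤ _root_.SG.ord j → _root_.SG.ord j ≤ t + W → j₀ ≤ j ∧ j ≤ n₀) := by
  classical
  by_cases hJ : ∃ j : ℕ, 1 ≤ j ∧ t - W ≤ _root_.SG.ord j ∧ _root_.SG.ord j ≤ t + W
  swap
  · refine ⟨1, 0, le_rfl, fun j h1 h2 => by omega, fun j h1 h2 h3 => ?_⟩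
    exact absurd ⟨j, h1, h2, h3⟩ hJ
  obtain ⟨hj1, hj2, hj3⟩ := Nat.find_spec hJ
  refine ⟨Nat.find hJ, _root_.SG.NZ (t + W), hj1, ?_, ?_⟩
  · intro j h1 h2
    exact ⟨hj2.trans (_root_.SG.ord_mono hj1 h1), (_root_.SG.ord_le_iff (by omega) _).mpr h2⟩
  · intro j h1 h2 h3
    exact ⟨Nat.find_min' hJ ⟨h1, h2, h3⟩, (_root_.SG.ord_le_iff h1 _).mp h3⟩

/-- slopes -/
lemma slope_T {β T W t : ℝ} (hT : Real.exp (2 + 16 * |β|) + 10 ≤ T) (hWT : W ≤ T / 4)
    (ht1 : T ≤ t) (ht2 : t ≤ 2 * T) :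
    ∀ p q, t - W - 1 ≤ p → p ≤ q → q ≤ t + W + 1 →
      Real.log T / 13 * (q - p) ≤ xb β q - xb β p ∧ xb β q - xb β p ≤ Real.log T * (q - p) := by
  have hexp10 : (0 : ℝ) < Real.exp (2 + 16 * |β|) := Real.exp_pos _
  have hT10 : 10 ≤ T := by linarith
  have hT0 : 0 < T := by linarith
  set ℓ := Real.log T with hℓ
  have hℓβ : 2 + 16 * |β| ≤ ℓ := by
    rw [hℓ, Real.le_log_iff_exp_le hT0]
    linarith
  have hβ0 := abs_nonneg β
  have hβ1 := neg_abs_le β
  have hβ2 := le_abs_self β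
  have hpi1 := Real.pi_gt_three
  have hpi2 := Real.pi_lt_d2
  intro p q hp hpq hq
  have hp0 : T / 2 ≤ p := by linarith
  have hq0 : q ≤ 3 * T := by linarith
  have hqp : 0 ≤ q - p := by linarith
  obtain ⟨s1, s2⟩ := xb_slope β (by linarith : 0 < p) hpq
  have hl1 : ℓ - Real.log 2 ≤ Real.log p := by
    rw [hℓ, ← Real.log_div hT0.ne' (by norm_num)]
    exact Real.log_le_log (by positivity) hp0
  have hl2 : Real.log q ≤ ℓ + Real.log 3 := by
    rw [hℓ, ← Real.log_mul hT0.ne' (by norm_num), mul_comm T]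
    exact Real.log_le_log (by linarith) hq0
  have hlog2 := Real.log_two_lt_d9
  have hlog3 : Real.log 3 ≤ 2 := by
    have := Real.log_le_sub_one_of_pos (show (0 : ℝ) < 3 by norm_num)
    linarith
  constructor
  · refine le_trans (mul_le_mul_of_nonneg_right ?_ hqp) s1
    have h1 : ℓ / 7 ≤ (Real.log p + 1) / (2 * Real.pi) := by
      rw [div_le_div_iff₀ (by norm_num) (by positivity)]
      nlinarith
    linarith
  · refine s2.trans (mul_le_mul_of_nonneg_right ?_ hqp)
    have h1 : (Real.log q + 1) / (2 * Real.pi) ≤ (ℓ + 3) / 6 := by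
      rw [div_le_div_iff₀ (by positivity) (by norm_num)]
      nlinarith
    linarith

/-- the local frequency -/
lemma freq {β T W t p q : ℝ} (hT0 : 0 < T) (hW0 : 0 ≤ W) (hWT : W ≤ T / 4) (ht1 : T ≤ t)
    (hp : t - W ≤ p) (hp' : p ≤ t + W) (hq : t - W ≤ q) (hq' : q ≤ t + W) :
    |(Real.log t + 1 + 2 * Real.pi * β) * (p - q) - 2 * Real.pi * (xb β p - xb β q)| ≤
      2 * W / T * |p - q| := by
  have hpi := Real.pi_pos
  have key : ∀ p q : ℝ, t - W ≤ q → q ≤ p → p ≤ t + W →
      |(Real.log t + 1 + 2 * Real.pi * β) * (p - q) - 2 * Real.pi * (xb β p - xb β q)| ≤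
      2 * W / T * (p - q) := by
    intro p q h1 h2 h3
    have hq0 : T / 2 ≤ q := by linarith
    have hqp : 0 < q := by linarith
    have ht0 : 0 < t := by linarith
    have hd : 0 ≤ p - q := by linarith
    obtain ⟨s1, s2⟩ := xb_slope β hqp h2
    have e1 : Real.log t - Real.log q ≤ 2 * W / T := by
      have h4 := Real.log_le_sub_one_of_pos (show 0 < t / q by positivity)
      rw [Real.log_div ht0.ne' hqp.ne'] at h4
      refine h4.trans ?_
      have h5 : t / q - 1 = (t - q) / q := by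
        field_simp
      rw [h5]
      calc (t - q) / q ≤ W / q := by gcongr; linarith
        _ ≤ W / (T / 2) := by gcongr
        _ = 2 * W / T := by field_simp
    have e2 : Real.log p - Real.log t ≤ 2 * W / T := by
      have hp0 : 0 < p := by linarith
      have h4 := Real.log_le_sub_one_of_pos (show 0 < p / t by positivity)
      rw [Real.log_div hp0.ne' ht0.ne'] at h4
      refine h4.trans ?_
      have h5 : p / t - 1 = (p - t) / t := by
        field_simp
      rw [h5]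
      calc (p - t) / t ≤ W / t := by gcongr; linarith
        _ ≤ W / (T / 2) := by gcongr; linarith
        _ = 2 * W / T := by field_simp
    have f1 : 2 * Real.pi * (((Real.log q + 1) / (2 * Real.pi) + β) * (p - q)) =
        (Real.log q + 1 + 2 * Real.pi * β) * (p - q) := by
      field_simp
    have f2 : 2 * Real.pi * (((Real.log p + 1) / (2 * Real.pi) + β) * (p - q)) =
        (Real.log p + 1 + 2 * Real.pi * β) * (p - q) := by
      field_simp
    have g1 := mul_le_mul_of_nonneg_left s1 (show 0 ≤ 2 * Real.pi by positivity)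
    have g2 := mul_le_mul_of_nonneg_left s2 (show 0 ≤ 2 * Real.pi by positivity)
    rw [f1] at g1
    rw [f2] at g2
    have k1 := mul_le_mul_of_nonneg_right e1 hd
    have k2 := mul_le_mul_of_nonneg_right e2 hd
    rw [abs_le]
    constructor <;> linarith
  rcases le_total q p with h | h
  · have := key p q hq h hp'
    rwa [abs_of_nonneg (show 0 ≤ p - q by linarith)]
  · have h1 := key q p hp h hq'
    have e : (Real.log t + 1 + 2 * Real.pi * β) * (p - q) - 2 * Real.pi * (xb β p - xb β q) =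
        -((Real.log t + 1 + 2 * Real.pi * β) * (q - p) - 2 * Real.pi * (xb β q - xb β p)) := by
      ring
    rw [e, abs_neg, abs_sub_comm p q, abs_of_nonneg (show 0 ≤ q - p by linarith)]
    exact h1

lemma ev_W {b : ℝ} (hb : 0 < b) {e : ℝ} (he : 0 < e) :
    ∀ᶠ T : ℝ in atTop, 5 * b * Real.log (Real.log T) + 5 ≤ e * T := by
  have h1 := (Real.isLittleO_log_id_atTop).bound
    (show (0 : ℝ) < e / (10 * b) by positivity)
  filter_upwards [h1, eventually_ge_atTop (10 / e), eventually_ge_atTop 1,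
    Real.tendsto_log_atTop.eventually_ge_atTop 1] with T h2 h3 h4 h5
  have hT0 : 0 < T := by linarith
  rw [Real.norm_eq_abs, Real.norm_eq_abs, id_eq, abs_of_nonneg (by linarith),
    abs_of_pos hT0] at h2
  have h6 : Real.log (Real.log T) ≤ Real.log T := by
    have := Real.log_le_sub_one_of_pos (show 0 < Real.log T by linarith)
    linarith
  have h7 : 5 * b * Real.log (Real.log T) ≤ e / 2 * T := by
    calc 5 * b * Real.log (Real.log T) ≤ 5 * b * (e / (10 * b) * T) := by gcongr; linarith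
      _ = e / 2 * T := by
        field_simp
        ring
  rw [div_le_iff₀ he] at h3
  linarith

lemma ev_log {b : ℝ} (hb : 1 ≤ b) : ∀ᶠ x : ℝ in atTop,
    1 + Real.log (10 * (5 * b * Real.log x + 5) * x + 2) ≤ √x := by
  have h2 := (isLittleO_log_rpow_atTop (show (0 : ℝ) < 1 / 2 by norm_num)).bound
    (show (0 : ℝ) < 1 / 6 by norm_num)
  filter_upwards [h2, eventually_ge_atTop (50 * b + 100)] with x h3 h4
  have hx1 : 1 ≤ x := by linarith
  have hx0 : 0 < x := by linarith
  have hl0 : 0 ≤ Real.log x := Real.log_nonneg hx1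
  rw [Real.norm_eq_abs, Real.norm_eq_abs, abs_of_nonneg hl0,
    abs_of_pos (by positivity), ← Real.sqrt_eq_rpow] at h3
  have hlx : Real.log x ≤ x := by
    have := Real.log_le_sub_one_of_pos hx0
    linarith
  have h5 : 10 * (5 * b * Real.log x + 5) * x + 2 ≤ x ^ 3 := by
    have h6 : 10 * (5 * b * Real.log x + 5) * x ≤ 10 * (5 * b * x + 5) * x := by gcongr
    have h7 : 10 * (5 * b * x + 5) * x + 2 ≤ (50 * b + 52) * x ^ 2 := by nlinarith
    have h8 : (50 * b + 52) * x ^ 2 ≤ x * x ^ 2 := by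
      apply mul_le_mul_of_nonneg_right _ (by positivity)
      linarith
    calc _ ≤ (50 * b + 52) * x ^ 2 := by linarith
      _ ≤ x * x ^ 2 := h8
      _ = x ^ 3 := by ring
  have h6 : Real.log (10 * (5 * b * Real.log x + 5) * x + 2) ≤ 3 * Real.log x := by
    have h7 := Real.log_le_log (by positivity) h5
    rw [Real.log_pow] at h7
    exact_mod_cast h7
  have h9 : 2 ≤ √x := by
    rw [Real.le_sqrt (by norm_num) hx0.le]
    linarith
  linarith

end Pool.Agent.T9h53.AJ
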