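import Pool.Agent.T9h53.AJ.Pa

/-! # Energies and their mean values -/

set_option autoImplicit false

open Complex Filter Topology Set MeasureTheory

namespace Pool.Agent.T9h53.AJ

open Pool.Agent.T9h53.AH Pool.Agent.T9h53.EQ

/-- integration by parts on both sides of the centre -/
theorem ibp {h h' f : ℝ → ℂ} {Y K : ℝ} (hY : 0 ≤ Y) (hd : ∀ v, HasDerivAt h (h' v) v)
    (hc : Continuous h') (hK : ∀ v, ‖h' v‖ ≤ K) (hf : Continuous f) :
    ‖∫ v in (-Y)..Y, h v * f v‖ ≤ ‖h 0‖ * ‖∫ v in (-Y)..Y, f v‖ +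
      K * ((∫ v in (0)..Y, ‖∫ x in v..Y, f x‖) + ∫ v in (-Y)..0, ‖∫ x in (-Y)..v, f x‖) := by
  have hhc : Continuous h := continuous_iff_continuousAt.mpr fun v => (hd v).continuousAt
  have hF1 : ∀ v, HasDerivAt (fun v => ∫ x in Y..v, f x) (f v) v := fun v =>
    intervalIntegral.integral_hasDerivAt_right (hf.intervalIntegrable _ _)
      (hf.stronglyMeasurableAtFilter _ _) hf.continuousAt
  have hF2 : ∀ v, HasDerivAt (fun v => ∫ x in (-Y)..v, f x) (f v) v := fun v =>
    intervalIntegral.integral_hasDerivAt_right (hf.intervalIntegrable _ _)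
      (hf.stronglyMeasurableAtFilter _ _) hf.continuousAt
  have c1 : Continuous fun v => ∫ x in Y..v, f x :=
    continuous_iff_continuousAt.mpr fun v => (hF1 v).continuousAt
  have c2 : Continuous fun v => ∫ x in (-Y)..v, f x :=
    continuous_iff_continuousAt.mpr fun v => (hF2 v).continuousAt
  have i1 := intervalIntegral.integral_mul_deriv_eq_deriv_mul (a := 0) (b := Y) (u := h)
    (v := fun v => ∫ x in Y..v, f x) (u' := h') (v' := f) (fun x _ => hd x) (fun x _ => hF1 x)
    (hc.intervalIntegrable _ _) (hf.intervalIntegrable _ _)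
  have i2 := intervalIntegral.integral_mul_deriv_eq_deriv_mul (a := -Y) (b := 0) (u := h)
    (v := fun v => ∫ x in (-Y)..v, f x) (u' := h') (v' := f) (fun x _ => hd x) (fun x _ => hF2 x)
    (hc.intervalIntegrable _ _) (hf.intervalIntegrable _ _)
  simp only [intervalIntegral.integral_same, mul_zero, zero_sub, sub_zero] at i1 i2
  have hsplit : ∫ v in (-Y)..Y, h v * f v = (∫ v in (-Y)..0, h v * f v) + ∫ v in (0)..Y, h v * f v :=
    (intervalIntegral.integral_add_adjacent_intervals ((hhc.mul hf).intervalIntegrable _ _)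
      ((hhc.mul hf).intervalIntegrable _ _)).symm
  have hsplit2 : ∫ v in (-Y)..Y, f v = (∫ v in (-Y)..0, f v) + ∫ v in (0)..Y, f v :=
    (intervalIntegral.integral_add_adjacent_intervals (hf.intervalIntegrable _ _)
      (hf.intervalIntegrable _ _)).symm
  have hsw : ∀ v, ∫ x in Y..v, f x = -∫ x in v..Y, f x := fun v =>
    intervalIntegral.integral_symm _ _
  have key : ∫ v in (-Y)..Y, h v * f v = h 0 * (∫ v in (-Y)..Y, f v) +
      ((∫ v in (0)..Y, h' v * ∫ x in v..Y, f x) - ∫ v in (-Y)..0, h' v * ∫ x in (-Y)..v, f x) := by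
    rw [hsplit, i1, i2, hsplit2]
    simp only [hsw, mul_neg, intervalIntegral.integral_neg]
    ring
  have b1 : ‖∫ v in (0)..Y, h' v * ∫ x in v..Y, f x‖ ≤ K * ∫ v in (0)..Y, ‖∫ x in v..Y, f x‖ := by
    rw [← intervalIntegral.integral_const_mul]
    have c1' : Continuous fun v => ∫ x in v..Y, f x := by
      have : (fun v => ∫ x in v..Y, f x) = fun v => -∫ x in Y..v, f x := by
        funext v
        rw [hsw, neg_neg]
      rw [this]
      exact c1.neg
    apply intervalIntegral.norm_integral_le_of_norm_le hY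
    · apply Eventually.of_forall
      intro v _
      rw [norm_mul]
      exact mul_le_mul_of_nonneg_right (hK v) (norm_nonneg _)
    · exact (c1'.norm.const_mul K).intervalIntegrable _ _
  have b2 : ‖∫ v in (-Y)..0, h' v * ∫ x in (-Y)..v, f x‖ ≤
      K * ∫ v in (-Y)..0, ‖∫ x in (-Y)..v, f x‖ := by
    rw [← intervalIntegral.integral_const_mul]
    apply intervalIntegral.norm_integral_le_of_norm_le (by linarith)
    · apply Eventually.of_forall
      intro v _
      rw [norm_mul]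
      exact mul_le_mul_of_nonneg_right (hK v) (norm_nonneg _)
    · exact (c2.norm.const_mul K).intervalIntegrable _ _
  rw [key]
  refine (norm_add_le _ _).trans ?_
  rw [norm_mul, mul_add]
  exact add_le_add le_rfl ((norm_sub_le _ _).trans (add_le_add b1 b2))

/-- oscillating integrals of decreasing functions -/
theorem osc {f f' : ℝ → ℝ} {v Y ξ : ℝ} (hv : v ≤ Y) (hξ : ξ ≠ 0) (hd : ∀ x, HasDerivAt f (f' x) x)
    (hc : Continuous f') (hneg : ∀ x ∈ Icc v Y, f' x ≤ 0) (hpos : 0 ≤ f Y) :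
    ‖∫ x in v..Y, cexp (I * ((ξ * x : ℝ) : ℂ)) * ((f x : ℝ) : ℂ)‖ ≤ 2 * f v / |ξ| := by
  have hξc : (ξ : ℂ) ≠ 0 := by exact_mod_cast hξ
  have hE : ∀ x : ℝ, HasDerivAt (fun x : ℝ => cexp (I * ((ξ * x : ℝ) : ℂ)) / (I * ξ))
      (cexp (I * ((ξ * x : ℝ) : ℂ))) x := by
    intro x
    have h1 : HasDerivAt (fun x : ℝ => ((ξ * x : ℝ) : ℂ)) ((ξ : ℝ) : ℂ) x := by
      have := ((hasDerivAt_id x).const_mul ξ).ofReal_comp
      simpa using this
    have h2 := ((h1.const_mul I).cexp).div_const (I * ξ)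
    refine h2.congr_deriv ?_
    have : I * (ξ : ℂ) ≠ 0 := mul_ne_zero I_ne_zero hξc
    field_simp
  have hfc : Continuous f := continuous_iff_continuousAt.mpr fun x => (hd x).continuousAt
  have hfd : ∀ x : ℝ, HasDerivAt (fun x : ℝ => ((f x : ℝ) : ℂ)) ((f' x : ℝ) : ℂ) x :=
    fun x => (hd x).ofReal_comp
  have i1 := intervalIntegral.integral_mul_deriv_eq_deriv_mul (a := v) (b := Y)
    (u := fun x : ℝ => ((f x : ℝ) : ℂ)) (v := fun x : ℝ => cexp (I * ((ξ * x : ℝ) : ℂ)) / (I * ξ))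
    (u' := fun x : ℝ => ((f' x : ℝ) : ℂ)) (v' := fun x : ℝ => cexp (I * ((ξ * x : ℝ) : ℂ)))
    (fun x _ => hfd x) (fun x _ => hE x)
    ((by fun_prop : Continuous fun x : ℝ => ((f' x : ℝ) : ℂ)).intervalIntegrable _ _)
    ((by fun_prop : Continuous fun x : ℝ => cexp (I * ((ξ * x : ℝ) : ℂ))).intervalIntegrable _ _)
  have e0 : ∫ x in v..Y, cexp (I * ((ξ * x : ℝ) : ℂ)) * ((f x : ℝ) : ℂ) =
      ∫ x in v..Y, ((f x : ℝ) : ℂ) * cexp (I * ((ξ * x : ℝ) : ℂ)) := by
    congr 1
    funext x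
    ring
  rw [e0, i1]
  have hn : ∀ x : ℝ, ‖cexp (I * ((ξ * x : ℝ) : ℂ)) / (I * ξ)‖ = 1 / |ξ| := by
    intro x
    rw [norm_div, norm_mul, norm_I, one_mul, Complex.norm_real, Real.norm_eq_abs, mul_comm I,
      Complex.norm_exp_ofReal_mul_I]
  have hfanti : f Y - f v = ∫ x in v..Y, f' x :=
    (intervalIntegral.integral_eq_sub_of_hasDerivAt (fun x _ => hd x)
      (hc.intervalIntegrable _ _)).symm
  have hint : ‖∫ x in v..Y, ((f' x : ℝ) : ℂ) * (cexp (I * ((ξ * x : ℝ) : ℂ)) / (I * ξ))‖ ≤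
      (f v - f Y) / |ξ| := by
    have h1 : ‖∫ x in v..Y, ((f' x : ℝ) : ℂ) * (cexp (I * ((ξ * x : ℝ) : ℂ)) / (I * ξ))‖ ≤
        ∫ x in v..Y, (-(f' x)) * (1 / |ξ|) := by
      apply intervalIntegral.norm_integral_le_of_norm_le hv
      · apply Eventually.of_forall
        intro x hx
        rw [norm_mul, hn, Complex.norm_real, Real.norm_eq_abs,
          abs_of_nonpos (hneg x ⟨hx.1.le, hx.2⟩)]
      · exact ((by fun_prop : Continuous fun x : ℝ => (-(f' x)) * (1 / |ξ|))).intervalIntegrable _ _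
    refine h1.trans (le_of_eq ?_)
    rw [intervalIntegral.integral_mul_const, intervalIntegral.integral_neg, ← hfanti]
    ring
  have hfv : f Y ≤ f v := by
    have : ∫ x in v..Y, f' x ≤ 0 := by
      rw [← neg_nonneg, ← intervalIntegral.integral_neg]
      apply intervalIntegral.integral_nonneg hv
      intro x hx
      have := hneg x hx
      linarith
    linarith
  have hxi : 0 < |ξ| := abs_pos.mpr hξ
  refine (norm_sub_le _ _).trans ?_
  have h2 : ‖((f Y : ℝ) : ℂ) * (cexp (I * ((ξ * Y : ℝ) : ℂ)) / (I * ξ)) -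
      ((f v : ℝ) : ℂ) * (cexp (I * ((ξ * v : ℝ) : ℂ)) / (I * ξ))‖ ≤ f Y / |ξ| + f v / |ξ| := by
    refine (norm_sub_le _ _).trans ?_
    rw [norm_mul, norm_mul, hn, hn, Complex.norm_real, Complex.norm_real, Real.norm_eq_abs,
      Real.norm_eq_abs, abs_of_nonneg hpos, abs_of_nonneg (hpos.trans hfv)]
    apply le_of_eq
    ring
  calc _ ≤ (f Y / |ξ| + f v / |ξ|) + (f v - f Y) / |ξ| := add_le_add h2 hint
    _ = _ := by ring

/-- mean value of an energy -/
theorem en_mean {G : ℝ → ℝ → ℂ} (hG : Continuous (Function.uncurry G)) {ρ w : ℝ → ℝ}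
    (hρ : Continuous ρ) (hw : Continuous w) {A A' T B M : ℝ} (hA : A ≤ A')
    (h : ∀ v ∈ Icc A A', ρ v * ∫ t in T..(T + B), ‖G t v‖ ^ 2 ≤ M * w v) :
    (Continuous fun t => ∫ v in A..A', ‖G t v‖ ^ 2 * ρ v) ∧
    ∫ t in T..(T + B), ∫ v in A..A', ‖G t v‖ ^ 2 * ρ v ≤ M * ∫ v in A..A', w v := by
  have hc : Continuous (Function.uncurry fun t v : ℝ => ‖G t v‖ ^ 2 * ρ v) := by
    rw [Function.uncurry_def] at hG ⊢
    fun_prop
  refine ⟨intervalIntegral.continuous_parametric_intervalIntegral_of_continuous' hc _ _, ?_⟩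
  rw [intervalIntegral_intervalIntegral_swap]
  · rw [← intervalIntegral.integral_const_mul]
    apply intervalIntegral.integral_mono_on hA
    · apply Continuous.intervalIntegrable
      apply intervalIntegral.continuous_parametric_intervalIntegral_of_continuous'
      rw [Function.uncurry_def] at hG ⊢
      fun_prop
    · exact (hw.const_mul M).intervalIntegrable _ _
    · intro v hv
      rw [intervalIntegral.integral_mul_const, mul_comm]
      exact h v hv
  · have hK : IsCompact (Set.uIcc T (T + B) ×ˢ Set.uIcc A A') :=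
      isCompact_uIcc.prod isCompact_uIcc
    exact (hc.continuousOn.integrableOn_compact hK).mono_set
      (Set.prod_mono uIoc_subset_uIcc uIoc_subset_uIcc)

/-- Markov's inequality for one function -/
theorem markov_int {Z : ℝ → ℝ} (hZ : Continuous Z) (hZ0 : ∀ t, 0 ≤ Z t) {T B M a : ℝ} (hB : 0 ≤ B)
    (hM : ∫ t in T..(T + B), Z t ≤ M) (ha : 0 < a) {G : Set ℝ} (hG : G ⊆ Ioc T (T + B))
    (hlow : ∀ t ∈ G, a ≤ Z t) : volume.real G ≤ M / a := by
  have h1 := mul_meas_ge_le_integral_of_nonneg (μ := volume.restrict (Ioc T (T + B))) (f := Z)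
    (Filter.Eventually.of_forall hZ0) ((hZ.intervalIntegrable T (T + B)).1) a
  rw [← intervalIntegral.integral_of_le (by linarith)] at h1
  have hsub : volume.real G ≤ (volume.restrict (Ioc T (T + B))).real {x | a ≤ Z x} := by
    have hms : MeasurableSet {x | a ≤ Z x} := measurableSet_le measurable_const hZ.measurable
    rw [measureReal_restrict_apply hms]
    apply measureReal_mono
    · intro t ht
      exact ⟨hlow t ht, hG ht⟩
    · exact ne_top_of_le_ne_top (by simp : volume (Ioc T (T + B)) ≠ ⊤)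
        (measure_mono Set.inter_subset_right)
  rw [le_div_iff₀ ha]
  nlinarith

end Pool.Agent.T9h53.AJ
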