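import Pool.Agent.T9h53.AJ.Om
import Pool.Agent.T9h53.AJ.En

/-! # The interpolating function against a function on the axis -/

set_option autoImplicit false

open Complex Filter Topology Set MeasureTheory

namespace Pool.Agent.T9h53.AJ

open Pool.Agent.T9h53.AH Pool.Agent.T9h53.EQ

/-- the density of the frequencies is at most one -/
lemma dens {Λ B₀ : ℝ} (hΛ : 0 < Λ) (hB : Λ + 1 ≤ B₀) {g : ℝ → ℝ} (hg : Continuous g)
    (hg0 : ∀ x, 0 ≤ g x) : Λ / 4 * ∫ p, g (et Λ p) ∂mu3 ≤ ∫ x in (-B₀)..B₀, g x := by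
  have h1 : ∫ p, g (et Λ p) ∂mu3 = ∫ q, ∫ x, g (et Λ (x, q)) ∂mu1 ∂(mu1.prod mu1) := by
    unfold mu3
    exact integral_prod_symm _ (mu3_int (hg.comp (et_cont Λ)))
  have hgi : ∀ a b : ℝ, IntervalIntegrable g volume a b := fun a b => hg.intervalIntegrable a b
  have h2 : ∀ q : ℝ × ℝ, |(q.1 + q.2) / 2| ≤ 1 → ∫ x, g (et Λ (x, q)) ∂mu1 ≤
      1 / Λ * ∫ x in (-B₀)..B₀, g x := by
    intro q hq
    have e1 : ∫ x, g (et Λ (x, q)) ∂mu1 = ∫ x in (-1 : ℝ)..1, g (Λ * x + (q.1 + q.2) / 2) := by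
      unfold mu1 et
      rw [intervalIntegral.integral_of_le (by norm_num)]
    rw [e1, intervalIntegral.integral_comp_mul_add _ hΛ.ne', smul_eq_mul, one_div]
    apply mul_le_mul_of_nonneg_left _ (by positivity)
    obtain ⟨q1, q2⟩ := abs_le.mp hq
    rw [intervalIntegral.integral_of_le (by linarith), intervalIntegral.integral_of_le (by linarith)]
    apply setIntegral_mono_set
    · exact (hgi (-B₀) B₀).1
    · exact Eventually.of_forall fun x => hg0 x
    · apply HasSubset.Subset.eventuallyLE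
      apply Ioc_subset_Ioc <;> linarith
  have hae : ∀ᵐ q ∂(mu1.prod mu1), |(q.1 + q.2) / 2| ≤ 1 := by
    have e : mu1.prod mu1 = (volume : Measure (ℝ × ℝ)).restrict (Ioc (-1) 1 ×ˢ Ioc (-1) 1) := by
      unfold mu1
      rw [Measure.prod_restrict]
      rfl
    rw [e]
    filter_upwards [ae_restrict_mem (measurableSet_Ioc.prod measurableSet_Ioc)] with q hq
    obtain ⟨⟨a1, a2⟩, a3, a4⟩ := hq
    rw [abs_le]
    constructor <;> linarith
  have hI0 : 0 ≤ ∫ x in (-B₀)..B₀, g x :=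
    intervalIntegral.integral_nonneg (by linarith) fun x _ => hg0 x
  have h3 : ∫ q, ∫ x, g (et Λ (x, q)) ∂mu1 ∂(mu1.prod mu1) ≤
      ∫ _q, (1 / Λ * ∫ x in (-B₀)..B₀, g x) ∂(mu1.prod mu1) := by
    apply integral_mono_of_nonneg
    · exact Eventually.of_forall fun q => integral_nonneg fun x => hg0 _
    · exact integrable_const _
    · filter_upwards [hae] with q hq
      exact h2 q hq
  have hmass : (mu1.prod mu1).real univ = 4 := by
    rw [← univ_prod_univ, measureReal_prod_prod]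
    have : mu1.real univ = 2 := by
      unfold mu1
      rw [measureReal_restrict_apply_univ, Real.volume_real_Ioc]
      norm_num
    rw [this]
    norm_num
  rw [integral_const, hmass, smul_eq_mul] at h3
  rw [h1]
  calc Λ / 4 * ∫ q, ∫ x, g (et Λ (x, q)) ∂mu1 ∂(mu1.prod mu1) ≤
      Λ / 4 * (4 * (1 / Λ * ∫ x in (-B₀)..B₀, g x)) := by gcongr
    _ = _ := by field_simp

/-- the transform of a function on the axis -/
noncomputable def RR (Y : ℝ) (q : ℝ → ℂ) (η : ℝ) : ℂ :=
  ∫ v in (-Y)..Y, cexp (I * ((η * v : ℝ) : ℂ)) * q v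

lemma RR_cont (Y : ℝ) {q : ℝ → ℂ} (hq : Continuous q) : Continuous (RR Y q) := by
  unfold RR
  apply intervalIntegral.continuous_parametric_intervalIntegral_of_continuous'
  rw [Function.uncurry_def]
  fun_prop

variable {ι : Type*} [Fintype ι]

/-- the interpolating function against `q` -/
theorem Hb_pair {Λ B₀ Y s : ℝ} (hΛ : 0 < Λ) (hB : Λ + 1 ≤ B₀) (hY : 0 ≤ Y) (hs : 0 < s)
    (d : ι → ℂ) (x : ι → ℝ) {q : ℝ → ℂ} (hq : Continuous q) :
    ‖∫ v in (-Y)..Y, Hb Λ d x (I * v) * q v‖ ≤ s / 2 * Aq Λ d x +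
      1 / (2 * s) * ∫ η in (-B₀)..B₀, ‖RR Y q η‖ ^ 2 := by
  have e1 : ∫ v in (-Y)..Y, Hb Λ d x (I * v) * q v =
      ((Λ / 4 : ℝ) : ℂ) * ∫ p, EE Λ d x p * RR Y q (et Λ p) ∂mu3 := by
    have e2 : ∀ v : ℝ, Hb Λ d x (I * v) * q v = ((Λ / 4 : ℝ) : ℂ) *
        ∫ p, EE Λ d x p * (cexp (I * ((et Λ p * v : ℝ) : ℂ)) * q v) ∂mu3 := by
      intro v
      rw [Hb_eq, mul_assoc, ← integral_mul_const]
      congr 2
      funext p
      rw [mul_assoc]
      congr 3
      push_cast
      ring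
    simp only [e2]
    rw [intervalIntegral.integral_const_mul]
    congr 1
    rw [intervalIntegral.integral_of_le (by linarith)]
    rw [integral_integral_swap (f := fun (v : ℝ) (p : ℝ × ℝ × ℝ) =>
      EE Λ d x p * (cexp (I * ((et Λ p * v : ℝ) : ℂ)) * q v))]
    · congr 1
      funext p
      unfold RR
      rw [intervalIntegral.integral_of_le (by linarith), integral_const_mul]
    · have hc : Continuous (Function.uncurry fun (v : ℝ) (p : ℝ × ℝ × ℝ) =>
          EE Λ d x p * (cexp (I * ((et Λ p * v : ℝ) : ℂ)) * q v)) := by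
        rw [Function.uncurry_def]
        have := EE_cont Λ d x
        have := et_cont Λ
        fun_prop
      rw [mu3_eq, Measure.prod_restrict]
      have h1 : IntegrableOn (Function.uncurry fun (v : ℝ) (p : ℝ × ℝ × ℝ) =>
          EE Λ d x p * (cexp (I * ((et Λ p * v : ℝ) : ℂ)) * q v))
          (Icc (-Y) Y ×ˢ (Icc (-1) 1 ×ˢ (Icc (-1) 1 ×ˢ Icc (-1) 1))) (volume.prod volume) :=
        hc.continuousOn.integrableOn_compact
          (isCompact_Icc.prod (isCompact_Icc.prod (isCompact_Icc.prod isCompact_Icc)))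
      exact h1.mono_set (prod_mono Ioc_subset_Icc_self (prod_mono Ioc_subset_Icc_self
        (prod_mono Ioc_subset_Icc_self Ioc_subset_Icc_self)))
  rw [e1]
  refine (cs_mu3 hΛ (EE_cont Λ d x) ((RR_cont Y hq).comp (et_cont Λ)) hs).trans ?_
  apply add_le_add le_rfl
  apply mul_le_mul_of_nonneg_left _ (by positivity)
  exact dens hΛ hB (g := fun η => ‖RR Y q η‖ ^ 2) ((RR_cont Y hq).norm.pow 2)
    (fun η => by positivity)

end Pool.Agent.T9h53.AJ
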