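import Pool.Agent.T9h53.AH.Ev
import Pool.Agent.T9h53.AH.Xi

/-! # Parameters -/

set_option autoImplicit false

open Complex Filter Topology Set

namespace Pool.Agent.T9h53.AJ

open Pool.Agent.T9h53.SZ Pool.Agent.T9h53.EQ Pool.Agent.T9h53.AH

/-- the edge factor -/
noncomputable def e8 (b Y : ℝ) : ℝ := Real.exp (-(Real.cosh (b⁻¹ * Y) / 8))

lemma e8_pos (b Y : ℝ) : 0 < e8 b Y := Real.exp_pos _

lemma ed_le_e8 (b Y : ℝ) : ed b Y ≤ e8 b Y := by
  unfold ed e8
  apply Real.exp_le_exp.mpr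
  have := Real.cosh_pos (b⁻¹ * Y)
  linarith

lemma ed_e8 (b Y : ℝ) : Real.exp (3 / 8 * Real.cosh (b⁻¹ * Y)) * ed b Y = e8 b Y := by
  unfold ed e8
  rw [← Real.exp_add]
  congr 1
  ring

lemma e8_small {b x : ℝ} (hb : 0 < b) (hx : 0 < x) :
    e8 b (5 * b * Real.log x) ≤ Real.exp (-(x ^ 5 / 16)) := by
  unfold e8
  apply Real.exp_le_exp.mpr
  have h1 : b⁻¹ * (5 * b * Real.log x) = 5 * Real.log x := by
    field_simp
  rw [h1]
  have := cosh_log hx
  linarith

lemma poly_ev2 (c : ℝ) : ∀ᶠ x : ℝ in atTop, (x + 2) ^ 2 + 20 * x + c ≤ x ^ 5 / 16 := by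
  filter_upwards [eventually_ge_atTop (100 + |c|)] with x hx
  have hc := le_abs_self c
  have hc0 := abs_nonneg c
  have h1 : (x + 2) ^ 2 ≤ 4 * x ^ 2 := by
    have : x + 2 ≤ 2 * x := by linarith
    calc (x + 2) ^ 2 ≤ (2 * x) ^ 2 := pow_le_pow_left₀ (by linarith) this 2
      _ = _ := by ring
  have h2 : x ≤ x ^ 2 := by nlinarith
  have h3 : (100 : ℝ) ^ 3 ≤ x ^ 3 := pow_le_pow_left₀ (by norm_num) (by linarith) 3
  have h4 : 1000 * x ^ 2 ≤ x ^ 5 := by
    calc 1000 * x ^ 2 ≤ x ^ 3 * x ^ 2 := by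
          apply mul_le_mul_of_nonneg_right _ (by positivity)
          linarith
      _ = x ^ 5 := by ring
  nlinarith

lemma ev_e8 {b : ℝ} (hb : 0 < b) (c : ℝ) (hc : 0 < c) :
    ∀ᶠ T : ℝ in atTop, c * (T ^ 20 * Real.exp (Real.log (3 * T) ^ 2)) *
      e8 b (5 * b * Real.log (Real.log T)) ≤ 1 := by
  have h1 := Real.tendsto_log_atTop.eventually (poly_ev2 (Real.log c))
  filter_upwards [h1, Real.tendsto_log_atTop.eventually_ge_atTop 1, eventually_gt_atTop 0]
    with T hT hT1 hT0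
  have hl2 : Real.log (3 * T) = Real.log 3 + Real.log T := Real.log_mul (by norm_num) hT0.ne'
  have hlog3 : Real.log 3 ≤ 2 := by
    have := Real.log_le_sub_one_of_pos (show (0 : ℝ) < 3 by norm_num)
    linarith
  have hlog30 : 0 < Real.log 3 := Real.log_pos (by norm_num)
  have e1 := e8_small hb (x := Real.log T) (by linarith)
  have e2 : c * (T ^ 20 * Real.exp (Real.log (3 * T) ^ 2)) =
      Real.exp (Real.log c + 20 * Real.log T + Real.log (3 * T) ^ 2) := by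
    rw [Real.exp_add, Real.exp_add, Real.exp_log hc,
      show (20 : ℝ) * Real.log T = ((20 : ℕ) : ℝ) * Real.log T by
      norm_num, Real.exp_nat_mul, Real.exp_log hT0]
    ring
  rw [e2]
  calc _ ≤ Real.exp (Real.log c + 20 * Real.log T + Real.log (3 * T) ^ 2) *
        Real.exp (-(Real.log T ^ 5 / 16)) := mul_le_mul_of_nonneg_left e1 (Real.exp_pos _).le
    _ = Real.exp (Real.log c + 20 * Real.log T + Real.log (3 * T) ^ 2 - Real.log T ^ 5 / 16) := by
      rw [← Real.exp_add]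
      congr 1
    _ ≤ 1 := by
      rw [Real.exp_le_one_iff]
      have h3 : Real.log (3 * T) ^ 2 ≤ (Real.log T + 2) ^ 2 := by
        apply pow_le_pow_left₀ (by rw [hl2]; linarith)
        rw [hl2]
        linarith
      linarith

lemma Xi_box (β : ℝ) : ∃ C : ℝ, 0 < C ∧ ∀ σ y T : ℝ, |σ| ≤ 6 → 6 ≤ y → y ≤ T →
    ‖Xi β ⟨σ, y⟩‖ ≤ C * T ^ 12 := by
  obtain ⟨C, hC, h⟩ := Xi_size β
  refine ⟨Real.exp (6 * C), Real.exp_pos _, fun σ y T hσ hy hyT => ?_⟩
  have hy0 : 0 < y := by linarith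
  have hT0 : 0 < T := by linarith
  have k1 := (abs_le.mp (h σ y hy0 (by linarith))).2
  have hpos : 0 < ‖Xi β ⟨σ, y⟩‖ := norm_pos_iff.mpr (Xi_ne _ _)
  rw [← Real.exp_log hpos]
  have e1 : Real.exp (6 * C) * T ^ 12 = Real.exp (6 * C + 12 * Real.log T) := by
    rw [Real.exp_add, show (12 : ℝ) * Real.log T = ((12 : ℕ) : ℝ) * Real.log T by norm_num,
      Real.exp_nat_mul, Real.exp_log hT0]
  rw [e1]
  apply Real.exp_le_exp.mpr
  have hl : 0 ≤ Real.log y := Real.log_nonneg (by linarith)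
  have hl2 : Real.log y ≤ Real.log T := Real.log_le_log hy0 hyT
  have h2 : C * |σ| ≤ 6 * C := by
    rw [mul_comm]
    gcongr
  have h3 : -(2 * σ * Real.log y) ≤ 12 * Real.log T := by
    have h4 := neg_abs_le σ
    nlinarith
  linarith

end Pool.Agent.T9h53.AJ
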