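import Pool.Agent.T9h53.AJ.Nh
import Pool.Agent.T9h53.AH.Fin2

/-! # The final theorems -/

set_option autoImplicit false

open Complex Filter Topology Set MeasureTheory

namespace Pool.Agent.T9h53.AJ

open Pool.Agent.T9h53.SZ Pool.Agent.T9h53.EQ Pool.Agent.T9h53.AH

/-- the positions, in measure -/
theorem pos_meas (β ε : ℝ) (hε : 0 < ε) : ∃ C κ T₀ : ℝ, 0 < C ∧ 0 < κ ∧ κ ≤ 1 ∧ 10 ≤ T₀ ∧
    ∀ T : ℝ, T₀ ≤ T → volume.real {t ∈ Ioc T (2 * T) |
      NearP β (C * Real.log (Real.log T)) (κ / √(Real.log T)) κ t} ≤ ε * T := by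
  obtain ⟨b, c, T₁, hb, hc, hT₁, hmeas⟩ := meas_P β ε hε
  obtain ⟨κ, T₂, hκ, hκ1, hT₂, hQ⟩ := exists_QD β b c hb hc
  have hll : Tendsto (fun t : ℝ => Real.log (Real.log t)) atTop atTop :=
    Real.tendsto_log_atTop.comp Real.tendsto_log_atTop
  obtain ⟨T₃, hT₃⟩ := eventually_atTop.mp (hll.eventually_ge_atTop 1)
  refine ⟨6 * b, κ, max (max T₁ T₂) T₃, by positivity, hκ, hκ1,
    hT₁.trans ((le_max_left _ _).trans (le_max_left _ _)), ?_⟩
  intro T hT
  have hTT1 : T₁ ≤ T := (le_max_left _ _).trans ((le_max_left _ _).trans hT)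
  have hTT2 : T₂ ≤ T := (le_max_right _ _).trans ((le_max_left _ _).trans hT)
  have hTT3 : T₃ ≤ T := (le_max_right _ _).trans hT
  have h3 := hT₃ T hTT3
  apply hmeas T hTT1 _ (fun t ht => ht.1)
  rintro t ⟨ht, hN⟩
  apply hQ T hTT2 t ht.1.le ht.2
  refine NearP_mono ?_ le_rfl le_rfl hN
  nlinarith

lemma spacing_pos {β W c ℓ κ t T : ℝ} (hT : Real.exp (2 + 16 * |β|) + 10 ≤ T) (hℓ : ℓ = Real.log T)
    (hWT : W ≤ T / 4) (ht1 : T ≤ t) (ht2 : t ≤ 2 * T) (hc0 : 0 < c) (hcκ : 8 * c ≤ κ)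
    (hκ1 : κ ≤ 1) (h : NearH β W (c / ℓ) t) : NearP β W (κ / √ℓ) κ t := by
  have hexp10 : (0 : ℝ) < Real.exp (2 + 16 * |β|) := Real.exp_pos _
  have hT0 : 0 < T := by linarith
  have hℓβ : 2 + 16 * |β| ≤ ℓ := by
    rw [hℓ, Real.le_log_iff_exp_le hT0]
    linarith
  have hβ0 := abs_nonneg β
  have hℓ1 : 1 ≤ ℓ := by linarith
  have hℓ0 : 0 < ℓ := by linarith
  have hδ : c / ℓ ≤ 1 / 4 := (div_le_self hc0.le hℓ1).trans (by linarith)
  have hs := slope_T hT hWT ht1 ht2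
  rw [← hℓ] at hs
  have h1 := nearP_of_nearH hℓ0 (by positivity) hδ (by linarith) hs h
  have e : 8 * (c / ℓ) * ℓ = 8 * c := by
    field_simp
  rw [e] at h1
  have hκ0 : 0 ≤ κ := by linarith
  exact NearP_mono le_rfl (by positivity) hcκ h1

lemma add_end {T : ℝ} {P : ℝ → Prop} {e : ℝ}
    (h : volume.real {t ∈ Ioc T (2 * T) | P t} ≤ e) :
    volume {t : ℝ | T ≤ t ∧ t ≤ 2 * T ∧ P t} ≤ ENNReal.ofReal e := by
  have h5 : {t : ℝ | T ≤ t ∧ t ≤ 2 * T ∧ P t} ⊆ {t ∈ Ioc T (2 * T) | P t} ∪ {T} := by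
    rintro t ⟨a1, a2, a3⟩
    rcases eq_or_lt_of_le a1 with h | h
    · right
      exact h.symm
    · left
      exact ⟨⟨h, a2⟩, a3⟩
  have h6 : volume ({t ∈ Ioc T (2 * T) | P t} ∪ {T}) ≤ volume {t ∈ Ioc T (2 * T) | P t} := by
    refine (measure_union_le _ _).trans ?_
    rw [Real.volume_singleton, add_zero]
  refine (measure_mono h5).trans (h6.trans ?_)
  have h7 : volume {t ∈ Ioc T (2 * T) | P t} ≠ ⊤ :=
    ((measure_mono (fun t ht => ht.1)).trans_lt (measure_Ioc_lt_top (a := T) (b := 2 * T))).ne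
  rw [← ENNReal.ofReal_toReal h7]
  exact ENNReal.ofReal_le_ofReal h

theorem all_P (β ε : ℝ) (hε : 0 < ε) : ∃ C c T₀ : ℝ, 0 < C ∧ 0 < c ∧ ∀ T : ℝ, T₀ ≤ T →
    volume {t : ℝ | T ≤ t ∧ t ≤ 2 * T ∧
      NearP β (C * Real.log (Real.log T)) (c / √(Real.log T)) c t} ≤ ENNReal.ofReal (ε * T) ∧
    volume {t : ℝ | T ≤ t ∧ t ≤ 2 * T ∧ NearH β (C * Real.log (Real.log T)) (c / Real.log T) t} ≤
      ENNReal.ofReal (ε * T) ∧
    c * T / Real.log (Real.log T) ≤ ((FarS β (c / Real.log T) T).ncard : ℝ) := by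
  obtain ⟨C, κ, T₁, hC, hκ, hκ1, hT₁, h⟩ := pos_meas β (min ε (1 / 2)) (by positivity)
  have hll : Tendsto (fun t : ℝ => Real.log (Real.log t)) atTop atTop :=
    Real.tendsto_log_atTop.comp Real.tendsto_log_atTop
  obtain ⟨T₂, hT₂⟩ := eventually_atTop.mp
    ((Real.isLittleO_log_id_atTop).bound (show (0 : ℝ) < 1 / (4 * C) by positivity))
  obtain ⟨T₃, hT₃⟩ := eventually_atTop.mp (hll.eventually_ge_atTop 1)
  set c : ℝ := min (κ / 8) (1 / (8 * C)) with hc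
  have hc0 : 0 < c := by positivity
  have hcκ8 : c ≤ κ / 8 := min_le_left _ _
  have hcκ : 8 * c ≤ κ := by linarith
  have hcC : c ≤ 1 / (8 * C) := min_le_right _ _
  refine ⟨C, c, max (max T₁ T₂) (max T₃ (Real.exp (2 + 16 * |β|) + 10)), hC, hc0, fun T hT => ?_⟩
  have hTT1 : T₁ ≤ T := (le_max_left _ _).trans ((le_max_left _ _).trans hT)
  have hTT2 : T₂ ≤ T := (le_max_right _ _).trans ((le_max_left _ _).trans hT)
  have hTT3 : T₃ ≤ T := (le_max_left _ _).trans ((le_max_right _ _).trans hT)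
  have hTT4 : Real.exp (2 + 16 * |β|) + 10 ≤ T :=
    (le_max_right _ _).trans ((le_max_right _ _).trans hT)
  have hT10 : 10 ≤ T := hT₁.trans hTT1
  have hT0 : 0 < T := by linarith
  have h1 := h T hTT1
  have h2 := hT₂ T hTT2
  have h3 := hT₃ T hTT3
  have hℓ1 : 1 ≤ Real.log T := by
    rw [Real.le_log_iff_exp_le hT0]
    have := Real.exp_one_lt_three
    linarith
  have hm : Real.log (Real.log T) ≤ Real.log T := by
    have := Real.log_le_sub_one_of_pos (show 0 < Real.log T by linarith)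
    linarith
  rw [Real.norm_eq_abs, Real.norm_eq_abs, id_eq, abs_of_nonneg (by linarith), abs_of_pos hT0] at h2
  set L := C * Real.log (Real.log T) with hL
  have hL0 : 0 < L := by positivity
  have hLT : L ≤ T / 4 := by
    calc L ≤ C * (1 / (4 * C) * T) := mul_le_mul_of_nonneg_left (hm.trans h2) hC.le
      _ = T / 4 := by field_simp
  have hεT : min ε (1 / 2) * T ≤ ε * T := mul_le_mul_of_nonneg_right (min_le_left _ _) hT0.le
  have hεT2 : min ε (1 / 2) * T ≤ T / 2 := by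
    have : min ε (1 / 2) * T ≤ 1 / 2 * T := mul_le_mul_of_nonneg_right (min_le_right _ _) hT0.le
    linarith
  have hfinm : volume {t ∈ Ioc T (2 * T) | NearP β L (κ / √(Real.log T)) κ t} ≠ ⊤ :=
    ((measure_mono (fun t ht => ht.1)).trans_lt (measure_Ioc_lt_top (a := T) (b := 2 * T))).ne
  have hcle : c ≤ κ := by linarith
  have hsub1 : {t ∈ Ioc T (2 * T) | NearP β L (c / √(Real.log T)) c t} ⊆
      {t ∈ Ioc T (2 * T) | NearP β L (κ / √(Real.log T)) κ t} := fun t ht =>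
    ⟨ht.1, NearP_mono le_rfl (div_le_div_of_nonneg_right hcle (Real.sqrt_nonneg _)) hcle ht.2⟩
  have hsub2 : {t ∈ Ioc T (2 * T) | NearH β L (c / Real.log T) t} ⊆
      {t ∈ Ioc T (2 * T) | NearP β L (κ / √(Real.log T)) κ t} := fun t ht =>
    ⟨ht.1, spacing_pos hTT4 rfl hLT ht.1.1.le ht.1.2 hc0 hcκ hκ1 ht.2⟩
  have h4 := (measureReal_mono hsub1 hfinm).trans h1
  have h5 := (measureReal_mono hsub2 hfinm).trans h1
  refine ⟨add_end (h4.trans hεT), add_end (h5.trans hεT), ?_⟩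
  apply count_le hT0 hL0 hLT (h5.trans hεT2)
  have h9 : 0 < Real.log (Real.log T) := by linarith
  calc c * T / Real.log (Real.log T) * (8 * L) = c * (8 * C) * T := by
        rw [hL]
        field_simp
    _ ≤ 1 / (8 * C) * (8 * C) * T := by gcongr
    _ = T := by field_simp

end Pool.Agent.T9h53.AJ
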