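import Pool.Agent.T9h53.AJ.Pa

/-! # Smoothing of a Lipschitz function by an entire Gaussian kernel -/

set_option autoImplicit false

open Complex Filter Topology Set MeasureTheory

namespace Pool.Agent.T9h53.AJ

/-- the real Gaussian density with variance `1 / ℓ` -/
noncomputable def gs (ℓ w : ℝ) : ℝ := √(ℓ / (2 * Real.pi)) * Real.exp (-(ℓ / 2) * w ^ 2)

lemma gs_nonneg (ℓ w : ℝ) : 0 ≤ gs ℓ w := by unfold gs; positivity

lemma gs_cont (ℓ : ℝ) : Continuous (gs ℓ) := by unfold gs; fun_prop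

lemma gs_int {ℓ : ℝ} (hℓ : 0 < ℓ) : Integrable (gs ℓ) := by
  unfold gs
  exact (integrable_exp_neg_mul_sq (by positivity : 0 < ℓ / 2)).const_mul _

lemma gs_one {ℓ : ℝ} (hℓ : 0 < ℓ) : ∫ w, gs ℓ w = 1 := by
  unfold gs
  rw [integral_const_mul, integral_gaussian, ← Real.sqrt_mul (by positivity)]
  have hpi := Real.pi_pos
  have : ℓ / (2 * Real.pi) * (Real.pi / (ℓ / 2)) = 1 := by field_simp
  rw [this, Real.sqrt_one]

lemma gs_mom {ℓ : ℝ} (hℓ : 0 < ℓ) (w : ℝ) :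
    |w| * gs ℓ w ≤ 1 / √ℓ * (√(ℓ / (2 * Real.pi)) * Real.exp (-(ℓ / 4) * w ^ 2)) := by
  unfold gs
  have hs : 0 < √ℓ := Real.sqrt_pos.mpr hℓ
  set x := √ℓ * |w| with hx
  have hx2 : x ^ 2 = ℓ * w ^ 2 := by rw [hx, mul_pow, Real.sq_sqrt hℓ.le, sq_abs]
  have h1 : x ≤ Real.exp (x ^ 2 / 4) := by
    have := Real.add_one_le_exp (x ^ 2 / 4)
    nlinarith [sq_nonneg (x / 2 - 1)]
  have h2 : Real.exp (-(ℓ / 2) * w ^ 2) = Real.exp (-(ℓ / 4) * w ^ 2) * Real.exp (-(x ^ 2 / 4)) := by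
    rw [← Real.exp_add, hx2]
    congr 1
    ring
  have h3 : x * Real.exp (-(x ^ 2 / 4)) ≤ 1 := by
    rw [Real.exp_neg, ← div_eq_mul_inv, div_le_one (Real.exp_pos _)]
    exact h1
  have e : |w| = 1 / √ℓ * x := by
    rw [hx]
    field_simp
  rw [h2, e]
  have h4 : 0 ≤ 1 / √ℓ * (√(ℓ / (2 * Real.pi)) * Real.exp (-(ℓ / 4) * w ^ 2)) := by positivity
  calc 1 / √ℓ * x * (√(ℓ / (2 * Real.pi)) * (Real.exp (-(ℓ / 4) * w ^ 2) * Real.exp (-(x ^ 2 / 4)))) =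
      1 / √ℓ * (√(ℓ / (2 * Real.pi)) * Real.exp (-(ℓ / 4) * w ^ 2)) *
        (x * Real.exp (-(x ^ 2 / 4))) := by ring
    _ ≤ 1 / √ℓ * (√(ℓ / (2 * Real.pi)) * Real.exp (-(ℓ / 4) * w ^ 2)) * 1 := by gcongr
    _ = _ := mul_one _

lemma gs_mom_int {ℓ : ℝ} (hℓ : 0 < ℓ) : Integrable (fun w : ℝ => |w| * gs ℓ w) ∧
    ∫ w : ℝ, |w| * gs ℓ w ≤ 2 / √ℓ := by
  have hi : Integrable (fun w : ℝ => 1 / √ℓ * (√(ℓ / (2 * Real.pi)) *
      Real.exp (-(ℓ / 4) * w ^ 2))) :=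
    ((integrable_exp_neg_mul_sq (by positivity : 0 < ℓ / 4)).const_mul _).const_mul _
  have h1 : Integrable (fun w : ℝ => |w| * gs ℓ w) := by
    apply hi.mono' ((continuous_abs.mul (gs_cont ℓ)).aestronglyMeasurable)
    apply Eventually.of_forall
    intro w
    show ‖|w| * gs ℓ w‖ ≤ _
    rw [Real.norm_eq_abs, abs_of_nonneg (mul_nonneg (abs_nonneg _) (gs_nonneg _ _))]
    exact gs_mom hℓ w
  refine ⟨h1, ?_⟩
  refine (integral_mono h1 hi (gs_mom hℓ)).trans ?_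
  rw [integral_const_mul, integral_const_mul, integral_gaussian, ← Real.sqrt_mul (by positivity)]
  have hpi := Real.pi_pos
  have : ℓ / (2 * Real.pi) * (Real.pi / (ℓ / 4)) = 2 := by
    field_simp
    norm_num
  rw [this]
  have hs : 0 < √ℓ := Real.sqrt_pos.mpr hℓ
  rw [one_div, div_eq_mul_inv, mul_comm]
  have h2 : √2 ≤ 2 := by
    rw [Real.sqrt_le_left (by norm_num)]
    norm_num
  gcongr

/-- the entire Gaussian -/
noncomputable def gc (ℓ : ℝ) (w : ℂ) : ℂ :=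
  ((√(ℓ / (2 * Real.pi)) : ℝ) : ℂ) * cexp (((ℓ / 2 : ℝ) : ℂ) * w ^ 2)

lemma gc_norm (ℓ x y : ℝ) : ‖gc ℓ ⟨x, y⟩‖ = Real.exp (ℓ / 2 * x ^ 2) * gs ℓ y := by
  unfold gc gs
  rw [norm_mul, Complex.norm_real, Real.norm_eq_abs, abs_of_nonneg (Real.sqrt_nonneg _),
    Complex.norm_exp]
  have e : (((ℓ / 2 : ℝ) : ℂ) * (⟨x, y⟩ : ℂ) ^ 2).re = ℓ / 2 * x ^ 2 + -(ℓ / 2) * y ^ 2 := by
    rw [re_ofReal_mul, sq]
    simp only [Complex.mul_re]
    ring
  rw [e, Real.exp_add]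
  ring

lemma gc_axis (ℓ y : ℝ) : gc ℓ ⟨0, y⟩ = ((gs ℓ y : ℝ) : ℂ) := by
  unfold gc gs
  push_cast
  congr 2
  apply Complex.ext
  · simp [sq, Complex.mul_re, Complex.mul_im]
  · simp [sq, Complex.mul_re, Complex.mul_im]

/-- the smoothing -/
noncomputable def Ha (ℓ V t : ℝ) (a : ℝ → ℂ) (z : ℂ) : ℂ :=
  ∫ u in (-V)..V, a u * gc ℓ (z - I * ((t : ℂ) + u))

lemma Ha_diff (ℓ V t : ℝ) {a : ℝ → ℂ} (ha : Continuous a) (z : ℂ) :
    DifferentiableAt ℂ (Ha ℓ V t a) z := by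
  apply param_diff (F := fun w u => a u * gc ℓ (w - I * ((t : ℂ) + u)))
    (F' := fun w u => a u * (((√(ℓ / (2 * Real.pi)) : ℝ) : ℂ) *
      (cexp (((ℓ / 2 : ℝ) : ℂ) * (w - I * ((t : ℂ) + u)) ^ 2) *
        (((ℓ / 2 : ℝ) : ℂ) * (2 * (w - I * ((t : ℂ) + u)))))))
  · intro w
    unfold gc
    fun_prop
  · simp only [Function.uncurry_def]
    fun_prop
  · intro w u
    unfold gc
    have h1 : HasDerivAt (fun w : ℂ => w - I * ((t : ℂ) + u)) 1 w := (hasDerivAt_id w).sub_const _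
    have h2 := ((h1.pow 2).const_mul ((ℓ / 2 : ℝ) : ℂ)).cexp
    have h3 := (h2.const_mul ((√(ℓ / (2 * Real.pi)) : ℝ) : ℂ)).const_mul (a u)
    refine h3.congr_deriv ?_
    simp

section
variable {ℓ V t K A : ℝ} {a : ℝ → ℂ}

lemma Ha_axis (ha0 : ∀ u, V ≤ |u| → a u = 0) (hV : 0 ≤ V) (v : ℝ) :
    Ha ℓ V t a ⟨0, t + v⟩ = ∫ w : ℝ, a (v - w) * ((gs ℓ w : ℝ) : ℂ) := by
  unfold Ha
  have e1 : ∀ u : ℝ, gc ℓ ((⟨0, t + v⟩ : ℂ) - I * ((t : ℂ) + u)) = ((gs ℓ (v - u) : ℝ) : ℂ) := by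
    intro u
    rw [← gc_axis]
    congr 1
    apply Complex.ext <;> simp
  simp only [e1]
  rw [intervalIntegral.integral_of_le (by linarith), ← integral_sub_left_eq_self
    (fun w => a (v - w) * ((gs ℓ w : ℝ) : ℂ)) volume v]
  simp only [sub_sub_cancel]
  rw [← integral_indicator measurableSet_Ioc]
  congr 1
  funext u
  by_cases hu : u ∈ Ioc (-V) V
  · rw [indicator_of_mem hu]
  · rw [indicator_of_notMem hu, ha0 u, zero_mul]
    rw [mem_Ioc, not_and_or, not_lt, not_le] at hu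
    rcases hu with h | h
    · have := neg_le_abs u
      linarith
    · have := le_abs_self u
      linarith

lemma a_bound (ha : ∀ x y, ‖a x - a y‖ ≤ K * |x - y|) (ha0 : ∀ u, V ≤ |u| → a u = 0)
    (hV : 0 ≤ V) (hK : 0 ≤ K) (u : ℝ) : ‖a u‖ ≤ K * (|u| + V) := by
  have h1 := ha u V
  rw [ha0 V (le_abs_self V), sub_zero] at h1
  refine h1.trans ?_
  apply mul_le_mul_of_nonneg_left _ hK
  refine (abs_sub _ _).trans ?_
  rw [abs_of_nonneg hV]

lemma conv_int (hℓ : 0 < ℓ) (hac : Continuous a) (hb : ∀ u, ‖a u‖ ≤ A) (v : ℝ) :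
    Integrable (fun w : ℝ => a (v - w) * ((gs ℓ w : ℝ) : ℂ)) := by
  have h1 : Integrable (fun w : ℝ => ((gs ℓ w : ℝ) : ℂ)) := (gs_int hℓ).ofReal
  refine h1.bdd_mul (c := A) ?_ ?_
  · exact (hac.comp (by fun_prop)).aestronglyMeasurable
  · exact Eventually.of_forall fun w => hb _

lemma Ha_lip (hℓ : 0 < ℓ) (hac : Continuous a) (ha : ∀ x y, ‖a x - a y‖ ≤ K * |x - y|)
    (ha0 : ∀ u, V ≤ |u| → a u = 0) (hV : 0 ≤ V) (hb : ∀ u, ‖a u‖ ≤ A) (v₁ v₂ : ℝ) :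
    ‖Ha ℓ V t a ⟨0, t + v₁⟩ - Ha ℓ V t a ⟨0, t + v₂⟩‖ ≤ K * |v₁ - v₂| := by
  rw [Ha_axis ha0 hV, Ha_axis ha0 hV, ← integral_sub (conv_int hℓ hac hb v₁)
    (conv_int hℓ hac hb v₂)]
  calc ‖∫ w : ℝ, (a (v₁ - w) * ((gs ℓ w : ℝ) : ℂ) - a (v₂ - w) * ((gs ℓ w : ℝ) : ℂ))‖ ≤
      ∫ w : ℝ, (K * |v₁ - v₂|) * gs ℓ w := by
        apply norm_integral_le_of_norm_le ((gs_int hℓ).const_mul _)
        apply Eventually.of_forall
        intro w
        rw [← sub_mul, norm_mul, Complex.norm_real, Real.norm_eq_abs, abs_of_nonneg (gs_nonneg _ _)]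
        apply mul_le_mul_of_nonneg_right _ (gs_nonneg _ _)
        refine (ha _ _).trans (le_of_eq ?_)
        congr 2
        ring
    _ = _ := by rw [integral_const_mul, gs_one hℓ, mul_one]

lemma Ha_near (hℓ : 0 < ℓ) (hac : Continuous a) (ha : ∀ x y, ‖a x - a y‖ ≤ K * |x - y|)
    (ha0 : ∀ u, V ≤ |u| → a u = 0) (hV : 0 ≤ V) (hK : 0 ≤ K) (hb : ∀ u, ‖a u‖ ≤ A) (v : ℝ) :
    ‖Ha ℓ V t a ⟨0, t + v⟩ - a v‖ ≤ K * (2 / √ℓ) := by
  have e : a v = ∫ w : ℝ, a v * ((gs ℓ w : ℝ) : ℂ) := by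
    rw [integral_const_mul, integral_complex_ofReal, gs_one hℓ]
    simp
  obtain ⟨hm1, hm2⟩ := gs_mom_int hℓ
  rw [Ha_axis ha0 hV]
  conv_lhs => rw [e]
  have hc : Integrable (fun w : ℝ => a v * ((gs ℓ w : ℝ) : ℂ)) :=
    ((gs_int hℓ).ofReal).const_mul (a v)
  rw [← integral_sub (conv_int hℓ hac hb v) hc]
  calc ‖∫ w : ℝ, (a (v - w) * ((gs ℓ w : ℝ) : ℂ) - a v * ((gs ℓ w : ℝ) : ℂ))‖ ≤
      ∫ w : ℝ, K * (|w| * gs ℓ w) := by
        apply norm_integral_le_of_norm_le (hm1.const_mul _)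
        apply Eventually.of_forall
        intro w
        rw [← sub_mul, norm_mul, Complex.norm_real, Real.norm_eq_abs, abs_of_nonneg (gs_nonneg _ _),
          ← mul_assoc]
        apply mul_le_mul_of_nonneg_right _ (gs_nonneg _ _)
        refine (ha _ _).trans (le_of_eq ?_)
        congr 1
        rw [← abs_neg w]
        congr 1
        ring
    _ = K * ∫ w : ℝ, |w| * gs ℓ w := by rw [integral_const_mul]
    _ ≤ _ := by gcongr

lemma Ha_le (hℓ : 0 < ℓ) (hV : 0 ≤ V) (hA : 0 ≤ A) (hb : ∀ u, ‖a u‖ ≤ A) (z : ℂ) :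
    ‖Ha ℓ V t a z‖ ≤ A * Real.exp (ℓ / 2 * z.re ^ 2) := by
  unfold Ha
  rw [intervalIntegral.integral_of_le (by linarith)]
  have e1 : ∀ u : ℝ, ‖gc ℓ (z - I * ((t : ℂ) + u))‖ = Real.exp (ℓ / 2 * z.re ^ 2) *
      gs ℓ ((z.im - t) - u) := by
    intro u
    rw [← gc_norm]
    congr 2
    apply Complex.ext
    · simp
    · simp
      ring
  calc ‖∫ u in Ioc (-V) V, a u * gc ℓ (z - I * ((t : ℂ) + u))‖ ≤
      ∫ u in Ioc (-V) V, A * (Real.exp (ℓ / 2 * z.re ^ 2) * gs ℓ ((z.im - t) - u)) := by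
        apply norm_integral_le_of_norm_le
        · apply Integrable.const_mul
          apply Integrable.const_mul
          exact ((gs_int hℓ).comp_sub_left _).integrableOn
        · apply Eventually.of_forall
          intro u
          rw [norm_mul, e1]
          exact mul_le_mul_of_nonneg_right (hb u) (mul_nonneg (Real.exp_pos _).le (gs_nonneg _ _))
    _ = A * Real.exp (ℓ / 2 * z.re ^ 2) * ∫ u in Ioc (-V) V, gs ℓ ((z.im - t) - u) := by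
        rw [integral_const_mul, integral_const_mul]
        ring
    _ ≤ A * Real.exp (ℓ / 2 * z.re ^ 2) * 1 := by
        apply mul_le_mul_of_nonneg_left _ (by positivity)
        rw [← gs_one hℓ, ← integral_sub_left_eq_self (gs ℓ) volume (z.im - t)]
        exact setIntegral_le_integral ((gs_int hℓ).comp_sub_left _)
          (Eventually.of_forall fun u => gs_nonneg _ _)
    _ = _ := mul_one _

/-- the derivative along the axis -/
lemma Ha_deriv (hℓ : 0 < ℓ) (hac : Continuous a) (ha : ∀ x y, ‖a x - a y‖ ≤ K * |x - y|)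
    (ha0 : ∀ u, V ≤ |u| → a u = 0) (hV : 0 ≤ V) (hK : 0 ≤ K) (hb : ∀ u, ‖a u‖ ≤ A) :
    (∀ v : ℝ, DifferentiableAt ℝ (fun v : ℝ => Ha ℓ V t a ⟨0, t + v⟩) v) ∧
    (∀ v : ℝ, ‖deriv (fun v : ℝ => Ha ℓ V t a ⟨0, t + v⟩) v‖ ≤ K) ∧
    Continuous (deriv (fun v : ℝ => Ha ℓ V t a ⟨0, t + v⟩)) := by
  have hd : ∀ v : ℝ, HasDerivAt (fun v : ℝ => Ha ℓ V t a ⟨0, t + v⟩)
      (I * deriv (Ha ℓ V t a) ⟨0, t + v⟩) v := by
    intro v
    have h1 : HasDerivAt (fun v : ℝ => (⟨0, t + v⟩ : ℂ)) I v := by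
      have e : (fun v : ℝ => (⟨0, t + v⟩ : ℂ)) = fun v : ℝ => I * (t : ℂ) + I * (v : ℂ) := by
        funext v
        apply Complex.ext <;> simp
      rw [e]
      have h2 : HasDerivAt (fun v : ℝ => (v : ℂ)) 1 v := (hasDerivAt_id v).ofReal_comp
      have h3 := (h2.const_mul I).const_add (I * (t : ℂ))
      rwa [mul_one] at h3
    have h4 := (Ha_diff ℓ V t hac (⟨0, t + v⟩ : ℂ)).hasDerivAt
    have h5 := HasDerivAt.scomp v h4 h1
    simpa [Function.comp_def, smul_eq_mul] using h5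
  refine ⟨fun v => (hd v).differentiableAt, ?_, ?_⟩
  · have hl : LipschitzWith K.toNNReal (fun v : ℝ => Ha ℓ V t a ⟨0, t + v⟩) := by
      apply LipschitzWith.of_dist_le_mul
      intro x y
      rw [dist_eq_norm, dist_eq_norm, Real.coe_toNNReal _ hK]
      exact Ha_lip hℓ hac ha ha0 hV hb x y
    intro v
    have := norm_deriv_le_of_lipschitz (x₀ := v) hl
    rwa [Real.coe_toNNReal _ hK] at this
  · have e : deriv (fun v : ℝ => Ha ℓ V t a ⟨0, t + v⟩) =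
        fun v => I * deriv (Ha ℓ V t a) ⟨0, t + v⟩ := by
      funext v
      exact (hd v).deriv
    rw [e]
    have hdif : Differentiable ℂ (Ha ℓ V t a) := Ha_diff ℓ V t hac
    have h1 : Continuous (deriv (Ha ℓ V t a)) := by
      have : ContDiff ℂ 1 (Ha ℓ V t a) := hdif.contDiff
      exact this.continuous_deriv le_rfl
    have h2 : Continuous fun v : ℝ => (⟨0, t + v⟩ : ℂ) := by
      have e : (fun v : ℝ => (⟨0, t + v⟩ : ℂ)) = fun v : ℝ => I * (t : ℂ) + I * (v : ℂ) := by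
        funext v
        apply Complex.ext <;> simp
      rw [e]
      fun_prop
    exact continuous_const.mul (h1.comp h2)

end

end Pool.Agent.T9h53.AJ
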