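import Mathlib

/-! # Diagonally dominant systems -/

set_option autoImplicit false

open Finset

namespace Pool.Agent.T9h53.AJ

/-- the quadratic form of a diagonally dominant matrix -/
lemma quad_lower {ι : Type*} [Fintype ι] [DecidableEq ι] (G : ι → ι → ℂ) {Λ : ℝ} (hΛ : 0 ≤ Λ)
    (hd : ∀ i, G i i = ((2 * Λ : ℝ) : ℂ)) (hrow : ∀ i, ∑ j ∈ univ.erase i, ‖G i j‖ ≤ Λ)
    (hsym : ∀ i j, ‖G i j‖ = ‖G j i‖) (d : ι → ℂ) :
    Λ * ∑ i, ‖d i‖ ^ 2 ≤ ‖∑ i, (starRingEnd ℂ) (d i) * ∑ j, G i j * d j‖ := by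
  have h1 : ∑ i, (starRingEnd ℂ) (d i) * ∑ j, G i j * d j =
      (((2 * Λ) * ∑ i, ‖d i‖ ^ 2 : ℝ) : ℂ) +
        ∑ i, ∑ j ∈ univ.erase i, (starRingEnd ℂ) (d i) * (G i j * d j) := by
    have h2 : ∀ i, (starRingEnd ℂ) (d i) * ∑ j, G i j * d j =
        (((2 * Λ) * ‖d i‖ ^ 2 : ℝ) : ℂ) +
          ∑ j ∈ univ.erase i, (starRingEnd ℂ) (d i) * (G i j * d j) := by
      intro i
      rw [← Finset.add_sum_erase univ (fun j => G i j * d j) (mem_univ i), mul_add, mul_sum, hd]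
      congr 1
      have := Complex.conj_mul' (d i)
      push_cast
      linear_combination (2 * (Λ : ℂ)) * this
    rw [sum_congr rfl fun i _ => h2 i, sum_add_distrib]
    congr 1
    push_cast
    rw [mul_sum]
  have h3 : ‖∑ i, ∑ j ∈ univ.erase i, (starRingEnd ℂ) (d i) * (G i j * d j)‖ ≤
      Λ * ∑ i, ‖d i‖ ^ 2 := by
    calc ‖∑ i, ∑ j ∈ univ.erase i, (starRingEnd ℂ) (d i) * (G i j * d j)‖ ≤
        ∑ i, ∑ j ∈ univ.erase i, ‖G i j‖ * ((‖d i‖ ^ 2 + ‖d j‖ ^ 2) / 2) := by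
          refine (norm_sum_le _ _).trans (sum_le_sum fun i _ => ?_)
          refine (norm_sum_le _ _).trans (sum_le_sum fun j _ => ?_)
          rw [norm_mul, norm_mul, RCLike.norm_conj]
          have : ‖d i‖ * (‖G i j‖ * ‖d j‖) = ‖G i j‖ * (‖d i‖ * ‖d j‖) := by ring
          rw [this]
          apply mul_le_mul_of_nonneg_left _ (norm_nonneg _)
          nlinarith [sq_nonneg (‖d i‖ - ‖d j‖)]
      _ = (∑ i, ∑ j ∈ univ.erase i, ‖G i j‖ * ‖d i‖ ^ 2) / 2 +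
          (∑ i, ∑ j ∈ univ.erase i, ‖G i j‖ * ‖d j‖ ^ 2) / 2 := by
          rw [sum_div, sum_div, ← sum_add_distrib]
          apply sum_congr rfl
          intro i _
          rw [sum_div, sum_div, ← sum_add_distrib]
          apply sum_congr rfl
          intro j _
          ring
      _ = ∑ i, ∑ j ∈ univ.erase i, ‖G i j‖ * ‖d i‖ ^ 2 := by
          have h4 : ∑ i, ∑ j ∈ univ.erase i, ‖G i j‖ * ‖d j‖ ^ 2 =
              ∑ i, ∑ j ∈ univ.erase i, ‖G i j‖ * ‖d i‖ ^ 2 := by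
            have e1 : ∀ f : ι → ι → ℝ, ∑ i, ∑ j ∈ univ.erase i, f i j =
                ∑ i, ∑ j, if j = i then 0 else f i j := by
              intro f
              apply sum_congr rfl
              intro i _
              rw [← Finset.add_sum_erase univ _ (mem_univ i), if_pos rfl, zero_add]
              apply sum_congr rfl
              intro j hj
              rw [if_neg (ne_of_mem_erase hj)]
            rw [e1, e1, sum_comm]
            apply sum_congr rfl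
            intro i _
            apply sum_congr rfl
            intro j _
            by_cases hij : i = j
            · rw [if_pos hij, if_pos hij.symm]
            · rw [if_neg hij, if_neg (Ne.symm hij), hsym]
          rw [h4]
          ring
      _ ≤ ∑ i, Λ * ‖d i‖ ^ 2 := by
          apply sum_le_sum
          intro i _
          rw [← sum_mul]
          exact mul_le_mul_of_nonneg_right (hrow i) (by positivity)
      _ = _ := by rw [mul_sum]
  rw [h1]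
  have h5 : 0 ≤ Λ * ∑ i, ‖d i‖ ^ 2 := mul_nonneg hΛ (sum_nonneg fun i _ => by positivity)
  have h6 := norm_sub_norm_le (((((2 * Λ) * ∑ i, ‖d i‖ ^ 2 : ℝ)) : ℂ))
    (-(∑ i, ∑ j ∈ univ.erase i, (starRingEnd ℂ) (d i) * (G i j * d j)))
  rw [sub_neg_eq_add, norm_neg, Complex.norm_real, Real.norm_eq_abs,
    abs_of_nonneg (by linarith)] at h6
  linarith

theorem gram {ι : Type*} [Fintype ι] [DecidableEq ι] (G : ι → ι → ℂ) {Λ : ℝ} (hΛ : 0 < Λ)
    (hd : ∀ i, G i i = ((2 * Λ : ℝ) : ℂ)) (hrow : ∀ i, ∑ j ∈ univ.erase i, ‖G i j‖ ≤ Λ)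
    (hsym : ∀ i j, ‖G i j‖ = ‖G j i‖) (a : ι → ℂ) : ∃ d : ι → ℂ,
    (∀ i, ∑ j, G i j * d j = a i) ∧
    ‖∑ i, (starRingEnd ℂ) (d i) * ∑ j, G i j * d j‖ ≤ (∑ i, ‖a i‖ ^ 2) / Λ := by
  have hdet : (Matrix.of G).det ≠ 0 := by
    apply det_ne_zero_of_sum_row_lt_diag
    intro k
    have h1 : ‖(Matrix.of G) k k‖ = 2 * Λ := by
      rw [Matrix.of_apply, hd, Complex.norm_real, Real.norm_eq_abs, abs_of_pos (by positivity)]
    rw [h1]
    have h2 := hrow k
    simp only [Matrix.of_apply]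
    linarith
  have hunit : IsUnit (Matrix.of G).det := isUnit_iff_ne_zero.mpr hdet
  set d : ι → ℂ := (Matrix.of G)⁻¹.mulVec a with hdd
  have hGd : ∀ i, ∑ j, G i j * d j = a i := by
    intro i
    have h1 : (Matrix.of G).mulVec d = a := by
      rw [hdd, Matrix.mulVec_mulVec, Matrix.mul_nonsing_inv _ hunit, Matrix.one_mulVec]
    have h2 := congrFun h1 i
    simpa [Matrix.mulVec, dotProduct] using h2
  refine ⟨d, hGd, ?_⟩
  have hlow := quad_lower G hΛ.le hd hrow hsym d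
  set q := ‖∑ i, (starRingEnd ℂ) (d i) * ∑ j, G i j * d j‖ with hq
  have hq2 : q ≤ (Λ * ∑ i, ‖d i‖ ^ 2) / 2 + (∑ i, ‖a i‖ ^ 2) / (2 * Λ) := by
    rw [hq]
    have e : ∑ i, (starRingEnd ℂ) (d i) * ∑ j, G i j * d j = ∑ i, (starRingEnd ℂ) (d i) * a i :=
      sum_congr rfl fun i _ => by rw [hGd i]
    rw [e]
    refine (norm_sum_le _ _).trans ?_
    rw [mul_sum, sum_div, sum_div, ← sum_add_distrib]
    apply sum_le_sum
    intro i _
    rw [norm_mul, RCLike.norm_conj]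
    have h1 : 0 ≤ (Λ * ‖d i‖ - ‖a i‖) ^ 2 := sq_nonneg _
    have h2 : Λ * ‖d i‖ ^ 2 / 2 + ‖a i‖ ^ 2 / (2 * Λ) = ‖d i‖ * ‖a i‖ +
        (Λ * ‖d i‖ - ‖a i‖) ^ 2 / (2 * Λ) := by
      field_simp
      ring
    rw [h2]
    have h3 : 0 ≤ (Λ * ‖d i‖ - ‖a i‖) ^ 2 / (2 * Λ) := by positivity
    linarith
  have h3 : (∑ i, ‖a i‖ ^ 2) / (2 * Λ) = ((∑ i, ‖a i‖ ^ 2) / Λ) / 2 := by
    field_simp
  rw [h3] at hq2
  linarith

end Pool.Agent.T9h53.AJ
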