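import Pool.Agent.T9h53.AJ.Mz
import Pool.Agent.T9h53.AJ.Ga
import Pool.Agent.T9h53.AJ.Bx
import Pool.Agent.T9h53.AH.WinN

/-! # The compensating kernel and the numerator -/

set_option autoImplicit false

open Complex Filter Topology Set MeasureTheory

namespace Pool.Agent.T9h53.AJ

open Pool.Agent.T9h53.SZ Pool.Agent.T9h53.AH Pool.Agent.T9h53.EQ

/-- the compensating kernel -/
noncomputable def kbt (b t : ℝ) (z : ℂ) : ℂ :=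
  cexp (((1 / 4 : ℝ) : ℂ) * Complex.cos (((b⁻¹ : ℝ) : ℂ) * (z - I * t)))

lemma cos_re (a c v : ℝ) : (Complex.cos ((a : ℂ) * (⟨c, v⟩ : ℂ))).re =
    Real.cos (a * c) * Real.cosh (a * v) := by
  rw [mk_eq, show (a : ℂ) * ((c : ℂ) + v * I) = ((a * c : ℝ) : ℂ) + ((a * v : ℝ) : ℂ) * I by
    push_cast; ring, Complex.cos_add_mul_I, ← Complex.ofReal_cos, ← Complex.ofReal_cosh,
    ← Complex.ofReal_sin, ← Complex.ofReal_sinh, sub_re, ← Complex.ofReal_mul,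
    ← Complex.ofReal_mul, re_ofReal_mul, I_re, ofReal_re]
  ring

lemma sub_It (c t v : ℝ) : (⟨c, t + v⟩ : ℂ) - I * t = ⟨c, v⟩ := by
  apply Complex.ext <;> simp

lemma kbt_norm (b t c v : ℝ) : ‖kbt b t ⟨c, t + v⟩‖ =
    Real.exp (1 / 4 * (Real.cos (b⁻¹ * c) * Real.cosh (b⁻¹ * v))) := by
  unfold kbt
  rw [Complex.norm_exp, re_ofReal_mul, sub_It, cos_re]

lemma kbt_kw_eq (b t c v : ℝ) : kbt b t ⟨c, t + v⟩ * kw b⁻¹ c v =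
    cexp (-(((3 / 4 : ℝ) : ℂ) * Complex.cos (((b⁻¹ : ℝ) : ℂ) * (⟨c, v⟩ : ℂ)))) := by
  unfold kbt kw
  rw [sub_It, ← Complex.exp_add]
  congr 1
  push_cast
  ring

lemma cos_small {b c : ℝ} (hb : 10 ≤ b) (hc : |c| ≤ 1) : 2 / 3 ≤ Real.cos (b⁻¹ * c) := by
  have h1 := Real.one_sub_sq_div_two_le_cos (x := b⁻¹ * c)
  have h2 : |b⁻¹ * c| ≤ 1 / 10 := by
    rw [abs_mul, abs_of_pos (inv_pos.mpr (by linarith))]
    calc b⁻¹ * |c| ≤ 10⁻¹ * 1 := by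
          apply mul_le_mul _ hc (abs_nonneg _) (by norm_num)
          exact inv_anti₀ (by norm_num) hb
      _ = 1 / 10 := by norm_num
  have h3 : (b⁻¹ * c) ^ 2 ≤ (1 / 10) ^ 2 := by
    rw [← sq_abs]
    exact pow_le_pow_left₀ (abs_nonneg _) h2 2
  norm_num at h3 ⊢
  linarith

lemma kbt_kw {b t c : ℝ} (v : ℝ) (hb : 10 ≤ b) (hc : |c| ≤ 1) :
    ‖kbt b t ⟨c, t + v⟩ * kw b⁻¹ c v‖ ≤ kk b v := by
  rw [kbt_kw_eq, Complex.norm_exp, neg_re, re_ofReal_mul, cos_re]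
  unfold kk
  apply Real.exp_le_exp.mpr
  have h1 := cos_small hb hc
  have h2 := Real.cosh_pos (b⁻¹ * v)
  nlinarith

lemma kw_kk {b c : ℝ} (v : ℝ) (hb : 10 ≤ b) (hc : |c| ≤ 1) : ‖kw b⁻¹ c v‖ ≤ kk b v :=
  kw_le v (sc (by linarith) (by linarith))

lemma kbt_le {b : ℝ} (t c v : ℝ) :
    ‖kbt b t ⟨c, t + v⟩‖ ≤ Real.exp (1 / 4 * Real.cosh (b⁻¹ * v)) := by
  rw [kbt_norm]
  apply Real.exp_le_exp.mpr
  have h1 := Real.cos_le_one (b⁻¹ * c)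
  have h2 := Real.cosh_pos (b⁻¹ * v)
  nlinarith

lemma cosh_shift {b v Y : ℝ} (hb : 10 ≤ b) (hY : 0 ≤ Y) (hv : |v| ≤ Y + 4) :
    Real.cosh (b⁻¹ * v) ≤ 3 / 2 * Real.cosh (b⁻¹ * Y) := by
  have hb0 : 0 < b⁻¹ := inv_pos.mpr (by linarith)
  have hb1 : b⁻¹ ≤ 10⁻¹ := inv_anti₀ (by norm_num) hb
  have h1 : Real.cosh (b⁻¹ * v) ≤ Real.cosh (b⁻¹ * (Y + 4)) := by
    rw [Real.cosh_le_cosh, abs_mul, abs_mul, abs_of_pos hb0, abs_of_nonneg (show 0 ≤ Y + 4 by linarith)]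
    exact mul_le_mul_of_nonneg_left hv hb0.le
  refine h1.trans ?_
  have e4 : Real.exp (b⁻¹ * 4) ≤ 3 / 2 := by
    have h2 : b⁻¹ * 4 ≤ 2 / 5 := by linarith
    have h3 : Real.exp (2 / 5) ≤ 3 / 2 := by
      have h4 := Real.exp_one_lt_d9
      have h5 : Real.exp (2 / 5) ^ 5 = Real.exp 1 ^ 2 := by
        rw [← Real.exp_nat_mul, ← Real.exp_nat_mul]
        norm_num
      by_contra hc
      push Not at hc
      have h6 : (3 / 2 : ℝ) ^ 5 < Real.exp (2 / 5) ^ 5 := pow_lt_pow_left₀ hc (by norm_num) (by norm_num)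
      rw [h5] at h6
      have h7 : Real.exp 1 ^ 2 ≤ 2.7182818286 ^ 2 := pow_le_pow_left₀ (Real.exp_pos _).le h4.le 2
      norm_num at h6 h7
      linarith
    exact (Real.exp_le_exp.mpr h2).trans h3
  have e5 : Real.exp (-(b⁻¹ * 4)) ≤ 1 := by
    rw [Real.exp_le_one_iff]
    linarith
  rw [Real.cosh_eq, Real.cosh_eq, mul_add, neg_add, Real.exp_add, Real.exp_add]
  have p1 := Real.exp_pos (b⁻¹ * Y)
  have p2 := Real.exp_pos (-(b⁻¹ * Y))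
  nlinarith

lemma kbt_box {b Y t : ℝ} (hb : 10 ≤ b) (hY : 0 ≤ Y) {z : ℂ} (hz : |z.im - t| ≤ Y + 4) :
    ‖kbt b t z‖ ≤ Real.exp (3 / 8 * Real.cosh (b⁻¹ * Y)) := by
  have e : z = ⟨z.re, t + (z.im - t)⟩ := by
    apply Complex.ext <;> simp
  rw [e]
  refine (kbt_le t _ _).trans (Real.exp_le_exp.mpr ?_)
  have := cosh_shift hb hY hz
  linarith

lemma kbt_diff (b t : ℝ) (z : ℂ) : DifferentiableAt ℂ (kbt b t) z := by
  unfold kbt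
  fun_prop

lemma kbt_ne (b t : ℝ) (z : ℂ) : kbt b t z ≠ 0 := Complex.exp_ne_zero _

lemma kbt_axis (b t x : ℝ) : kbt b t ⟨0, t + x⟩ =
    ((Real.exp (1 / 4 * Real.cosh (b⁻¹ * x)) : ℝ) : ℂ) := by
  unfold kbt
  rw [sub_It]
  push_cast
  congr 2
  have e : ((b : ℂ))⁻¹ * (⟨0, x⟩ : ℂ) = ((b⁻¹ * x : ℝ) : ℂ) * I := by
    rw [mk_eq]
    push_cast
    ring
  rw [e, Complex.cos_mul_I]
  push_cast
  rfl

lemma kbt_kw_axis (b t x : ℝ) : kbt b t ⟨0, t + x⟩ * kw b⁻¹ 0 x =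
    ((Real.exp (-(3 / 4 * Real.cosh (b⁻¹ * x))) : ℝ) : ℂ) := by
  rw [kbt_axis, kw_zero, ← Complex.ofReal_mul, ← Real.exp_add]
  congr 2
  ring

variable {ι : Type*} [Fintype ι]

/-- the added part -/
noncomputable def Hh (b t ℓ V Λ : ℝ) (a : ℝ → ℂ) (d : ι → ℂ) (x : ι → ℝ) (z : ℂ) : ℂ :=
  Ha ℓ V t a z + Hb Λ d x (z - I * t) * kbt b t z

lemma Hh_diff (b t ℓ V Λ : ℝ) {a : ℝ → ℂ} (ha : Continuous a) (d : ι → ℂ) (x : ι → ℝ) (z : ℂ) :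
    DifferentiableAt ℂ (Hh b t ℓ V Λ a d x) z := by
  unfold Hh
  have h1 : DifferentiableAt ℂ (fun z : ℂ => Hb Λ d x (z - I * t)) z :=
    DifferentiableAt.comp z (g := Hb Λ d x) (f := fun w => w - I * t) (Hb_diff Λ d x _)
      (by fun_prop)
  exact (Ha_diff ℓ V t ha z).add (h1.mul (kbt_diff b t z))

/-- the data of the quotient -/
structure QD (β b Y ℓ Λ K q t : ℝ) (u : ℂ) (a : ℝ → ℂ) (d : ι → ℂ) (x : ι → ℝ) (D : ℂ → ℂ) :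
    Prop where
  hu : ‖u‖ = 1
  ac : Continuous a
  al : ∀ x y, ‖a x - a y‖ ≤ K * |x - y|
  a0 : a 0 = 0
  av : ∀ y, 3 * (Y + 5) ≤ |y| → a y = 0
  ab : ∀ y, ‖a y‖ ≤ 2
  hq : Aq Λ d x ≤ q
  hD : ∀ z : ℂ, |z.im - t| < Y + 5 → AnalyticAt ℂ D z
  hDe : ∀ z : ℂ, |z.im - t| < Y + 5 →
    (1 - u * Xi β z) + Hh b t ℓ (3 * (Y + 5)) Λ a d x z = D z * riemannZeta (1 / 2 + z)

lemma Hb_edge {Λ q : ℝ} (hΛ : 0 < Λ) {d : ι → ℂ} {x : ι → ℝ} (hq : Aq Λ d x ≤ q) (hq0 : 0 < q)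
    {w : ℂ} (hw : w.re = 1 ∨ w.re = -1) : ‖Hb Λ d x w‖ ≤ √q * Real.exp (Λ + 1) := by
  have hs : 0 < √q := Real.sqrt_pos.mpr hq0
  have hE := Real.exp_pos (Λ + 1)
  have h1 := Hb_le hΛ d x w (s := Real.exp (Λ + 1) / √q) (by positivity)
  have h2 : ‖SS Λ ((2 * w.re : ℝ) : ℂ)‖ ≤ Real.exp (2 * (Λ + 1)) := by
    apply SS_real2 hΛ
    rcases hw with h | h
    · left
      rw [h]
      norm_num
    · right
      rw [h]
      norm_num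
  have h3 : Real.exp (2 * (Λ + 1)) = Real.exp (Λ + 1) ^ 2 := by
    rw [← Real.exp_nat_mul]
    norm_num
  rw [h3] at h2
  have h4 : √q ^ 2 = q := Real.sq_sqrt hq0.le
  calc ‖Hb Λ d x w‖ ≤ Real.exp (Λ + 1) / √q / 2 * q + 1 / (2 * (Real.exp (Λ + 1) / √q)) *
        Real.exp (Λ + 1) ^ 2 := by
        refine h1.trans ?_
        gcongr
    _ = Real.exp (Λ + 1) / √q / 2 * √q ^ 2 + 1 / (2 * (Real.exp (Λ + 1) / √q)) *
        Real.exp (Λ + 1) ^ 2 := by rw [h4]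
    _ = _ := by
      field_simp
      ring

lemma Hb_box {Λ q : ℝ} (hΛ : 0 < Λ) {d : ι → ℂ} {x : ι → ℝ} (hq : Aq Λ d x ≤ q)
    {w : ℂ} (hw : |w.re| ≤ 6) : ‖Hb Λ d x w‖ ≤ q + Λ * Real.exp (12 * (Λ + 1)) := by
  have h1 := Hb_le hΛ d x w (s := 1) one_pos
  have h2 := SS_real hΛ (2 * w.re)
  have h0 := Aq_nonneg hΛ d x
  have h3 : Real.exp ((Λ + 1) * |2 * w.re|) ≤ Real.exp (12 * (Λ + 1)) := by
    apply Real.exp_le_exp.mpr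
    rw [abs_mul, abs_two]
    nlinarith
  have h4 : 2 * Λ * Real.exp ((Λ + 1) * |2 * w.re|) ≤ 2 * Λ * Real.exp (12 * (Λ + 1)) := by
    gcongr
  linarith

/-- size of the added part in a box -/
lemma Hh_box {β b Y ℓ Λ K q t : ℝ} {u : ℂ} {a : ℝ → ℂ} {d : ι → ℂ} {x : ι → ℝ} {D : ℂ → ℂ}
    (h : QD β b Y ℓ Λ K q t u a d x D) (hb : 10 ≤ b) (hY : 0 ≤ Y) (hℓ : 0 < ℓ) (hΛ : 0 < Λ)
    (hq : 0 ≤ q) {z : ℂ} (hz : |z.im - t| ≤ Y + 4) (hre : |z.re| ≤ 6) :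
    ‖Hh b t ℓ (3 * (Y + 5)) Λ a d x z‖ ≤ (2 * Real.exp (18 * ℓ) + q + Λ * Real.exp (12 * (Λ + 1))) *
      Real.exp (3 / 8 * Real.cosh (b⁻¹ * Y)) := by
  unfold Hh
  have h1 := Ha_le (t := t) (V := 3 * (Y + 5)) hℓ (by linarith) (show (0 : ℝ) ≤ 2 by norm_num) h.ab z
  have h2 : Real.exp (ℓ / 2 * z.re ^ 2) ≤ Real.exp (18 * ℓ) := by
    apply Real.exp_le_exp.mpr
    have : z.re ^ 2 ≤ 36 := by
      rw [← sq_abs]
      nlinarith [abs_nonneg z.re]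
    nlinarith
  have h3 : ‖Hb Λ d x (z - I * t)‖ ≤ q + Λ * Real.exp (12 * (Λ + 1)) := by
    apply Hb_box hΛ h.hq
    simpa using hre
  have h4 := kbt_box hb hY hz
  have h5 : 1 ≤ Real.exp (3 / 8 * Real.cosh (b⁻¹ * Y)) := by
    apply Real.one_le_exp
    have := Real.cosh_pos (b⁻¹ * Y)
    positivity
  set E := Real.exp (3 / 8 * Real.cosh (b⁻¹ * Y)) with hE
  refine (norm_add_le _ _).trans ?_
  rw [norm_mul]
  have h6 : ‖Ha ℓ (3 * (Y + 5)) t a z‖ ≤ 2 * Real.exp (18 * ℓ) * E := by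
    calc ‖Ha ℓ (3 * (Y + 5)) t a z‖ ≤ 2 * Real.exp (18 * ℓ) := by linarith
      _ ≤ 2 * Real.exp (18 * ℓ) * E := le_mul_of_one_le_right (by positivity) h5
  have h7 : ‖Hb Λ d x (z - I * t)‖ * ‖kbt b t z‖ ≤ (q + Λ * Real.exp (12 * (Λ + 1))) * E := by
    gcongr
  calc _ ≤ 2 * Real.exp (18 * ℓ) * E + (q + Λ * Real.exp (12 * (Λ + 1))) * E := add_le_add h6 h7
    _ = _ := by ring

/-- size of the added part times the kernel on the two sides -/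
lemma Hh_side {β b Y ℓ Λ K q t : ℝ} {u : ℂ} {a : ℝ → ℂ} {d : ι → ℂ} {x : ι → ℝ} {D : ℂ → ℂ}
    (h : QD β b Y ℓ Λ K q t u a d x D) (hb : 10 ≤ b) (hY : 0 ≤ Y) (hℓ : 0 < ℓ) (hΛ : 0 < Λ)
    (hq : 0 < q) {c : ℝ} (hc : c = 1 ∨ c = -1) (v : ℝ) :
    ‖Hh b t ℓ (3 * (Y + 5)) Λ a d x ⟨c, t + v⟩ * kw b⁻¹ c v‖ ≤
      (2 * Real.exp (ℓ / 2) + √q * Real.exp (Λ + 1)) * kk b v := by
  unfold Hh
  have hc1 : |c| ≤ 1 := by rcases hc with h | h <;> rw [h] <;> norm_num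
  have hc2 : c ^ 2 = 1 := by rcases hc with h | h <;> rw [h] <;> norm_num
  have h1 := Ha_le (t := t) (V := 3 * (Y + 5)) hℓ (by linarith) (show (0 : ℝ) ≤ 2 by norm_num) h.ab
    ⟨c, t + v⟩
  simp only [hc2, mul_one] at h1
  have h3 : ‖Hb Λ d x ((⟨c, t + v⟩ : ℂ) - I * t)‖ ≤ √q * Real.exp (Λ + 1) := by
    apply Hb_edge hΛ h.hq hq
    rw [sub_It]
    exact hc
  have h4 := kbt_kw (t := t) v hb hc1
  have h5 := kw_kk v hb hc1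
  have hk := kk_nonneg b v
  rw [add_mul, mul_assoc]
  refine (norm_add_le _ _).trans ?_
  rw [norm_mul, norm_mul, add_mul]
  apply add_le_add
  · exact mul_le_mul h1 h5 (norm_nonneg _) (by positivity)
  · exact mul_le_mul h3 h4 (norm_nonneg _) (by positivity)

end Pool.Agent.T9h53.AJ
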