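import Pool.Agent.T9h53.AJ.Za
import Pool.Agent.T9h53.AH.MeasB

/-! # The measure of the heights at which there is a quotient -/

set_option autoImplicit false

open Complex Filter Topology Set MeasureTheory

namespace Pool.Agent.T9h53.AJ

open Pool.Agent.T9h53.SZ Pool.Agent.T9h53.AH Pool.Agent.T9h53.EQ
open Pool.Agent.TH823.MRS (mob)

/-- the main part -/
lemma v1_bound {β b ε ε₁ K₀ R T : ℝ} (hε₁ : ε₁ = ε / (25804800 * K₀ ^ 2 * R)) (hε : 0 < ε)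
    (hb : 1 ≤ b) (hK₀ : 1 ≤ K₀) (hR : 1 ≤ R) (hT : 10 ≤ T)
    (hCT : 8 * (1600 * K₀ ^ 2 * (7 * (2 * (144 * (1296 * R ^ 4) + 32 * (144 * R ^ 2))))) / ε ≤ T)
    {X : ℕ} (hX1 : 1 ≤ X) (hXu : (X : ℝ) ≤ 2 * R * T) {Y : ℝ}
    (hE : T ^ 3 * Real.exp (Real.log (2 * T) ^ 4) * ed b Y ≤ 1) (hℓ1 : 1 ≤ Real.log T)
    {a₁ : ℕ → ℂ}
    (h1 : ∫⁻ t : ℝ, ‖VW (fun z => HH β (T ^ 3)⁻¹ z.im * AH.PP (Finset.Icc 1 (3 * X)) a₁ z) b⁻¹ Y t
      0‖ₑ ^ 2 ≤ ENNReal.ofReal (2 * Real.pi * (144 * b ^ 2 * (ε₁ * X) + 2 * (144 * b ^ 2 *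
        ((3 * X : ℕ) : ℝ) ^ 4 * (T ^ 3)⁻¹ ^ 2 + 32 * b ^ 2 * ed b Y ^ 2 * ((3 * X : ℕ) : ℝ) ^ 2 *
        (1 + 1 / (T ^ 3)⁻¹) ^ 2)))) :
    volume.real ({t : ℝ | b / (40 * K₀) ≤ ‖VW (fun z => HH β (T ^ 3)⁻¹ z.im *
      AH.PP (Finset.Icc 1 (3 * X)) a₁ z) b⁻¹ Y t 0‖} ∩ Ioc T (T + T)) ≤ ε / 4 * T := by
  have hb0 : 0 < b := by linarith
  have hK0 : 0 < K₀ := by linarith
  have hR0 : 0 < R := by linarith
  have hT0 : 0 < T := by linarith
  have hε₁0 : 0 < ε₁ := by rw [hε₁]; positivity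
  have hpi := Real.pi_pos
  set V : ℝ := 2 * Real.pi * (144 * b ^ 2 * (ε₁ * X) + 2 * (144 * b ^ 2 *
        ((3 * X : ℕ) : ℝ) ^ 4 * (T ^ 3)⁻¹ ^ 2 + 32 * b ^ 2 * ed b Y ^ 2 * ((3 * X : ℕ) : ℝ) ^ 2 *
        (1 + 1 / (T ^ 3)⁻¹) ^ 2)) with hV
  have hV0 : 0 ≤ V := by positivity
  have h2 := markov_lint (VW_HH_cont β _ b Y _ a₁) (a := b / (40 * K₀))
    (by positivity) hV0 h1
  have h3 : volume.real ({t : ℝ | b / (40 * K₀) ≤ ‖VW (fun z => HH β (T ^ 3)⁻¹ z.im *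
      AH.PP (Finset.Icc 1 (3 * X)) a₁ z) b⁻¹ Y t 0‖} ∩ Ioc T (T + T)) ≤
      V / (b / (40 * K₀)) ^ 2 := by
    apply ENNReal.toReal_le_of_le_ofReal (by positivity)
    exact (measure_mono inter_subset_left).trans h2
  refine h3.trans ?_
  have e1 : V / (b / (40 * K₀)) ^ 2 = 1600 * K₀ ^ 2 * (2 * Real.pi) * (144 * (ε₁ * X)) +
      1600 * K₀ ^ 2 * (2 * Real.pi * (2 * (144 * (((3 * X : ℕ) : ℝ) ^ 4 * (T ^ 3)⁻¹ ^ 2) + 32 *
      (ed b Y ^ 2 * ((3 * X : ℕ) : ℝ) ^ 2 * (1 + 1 / (T ^ 3)⁻¹) ^ 2)))) := by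
    rw [hV]
    field_simp
    ring
  rw [e1]
  have hpi7 : 2 * Real.pi ≤ 7 := by
    have := Real.pi_lt_d2
    linarith
  have p1 : 1600 * K₀ ^ 2 * (2 * Real.pi) * (144 * (ε₁ * X)) ≤ ε / 8 * T := by
    calc 1600 * K₀ ^ 2 * (2 * Real.pi) * (144 * (ε₁ * X)) ≤
        1600 * K₀ ^ 2 * 7 * (144 * (ε₁ * (2 * R * T))) := by gcongr
      _ = 3225600 * K₀ ^ 2 * R * ε₁ * T := by ring
      _ = ε / 8 * T := by
        rw [hε₁]
        field_simp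
        norm_num
  have h3X : ((3 * X : ℕ) : ℝ) ≤ 6 * R * T := by
    push_cast
    linarith
  have p2 : ((3 * X : ℕ) : ℝ) ^ 4 * (T ^ 3)⁻¹ ^ 2 ≤ 1296 * R ^ 4 := by
    calc ((3 * X : ℕ) : ℝ) ^ 4 * (T ^ 3)⁻¹ ^ 2 ≤ (6 * R * T) ^ 4 * (T ^ 3)⁻¹ ^ 2 := by gcongr
      _ = 1296 * R ^ 4 * (1 / T ^ 2) := by
        field_simp
        norm_num
      _ ≤ 1296 * R ^ 4 * 1 := by
        apply mul_le_mul_of_nonneg_left _ (by positivity)
        rw [div_le_one (by positivity)]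
        nlinarith
      _ = _ := mul_one _
  have hed := ed_pos b Y
  have hlog2T : Real.log (2 * T) ≤ Real.log (2 * T) ^ 4 := by
    have h4 : 1 ≤ Real.log (2 * T) := hℓ1.trans (Real.log_le_log hT0 (by linarith))
    calc Real.log (2 * T) = Real.log (2 * T) ^ 1 := (pow_one _).symm
      _ ≤ Real.log (2 * T) ^ 4 := pow_le_pow_right₀ h4 (by norm_num)
  have hexp2T : T ≤ Real.exp (Real.log (2 * T) ^ 4) := by
    calc T ≤ 2 * T := by linarith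
      _ = Real.exp (Real.log (2 * T)) := (Real.exp_log (by linarith)).symm
      _ ≤ _ := Real.exp_le_exp.mpr hlog2T
  have p3 : T ^ 4 * ed b Y ≤ 1 := by
    refine le_trans ?_ hE
    apply mul_le_mul_of_nonneg_right _ hed.le
    calc T ^ 4 = T ^ 3 * T := by ring
      _ ≤ _ := by gcongr
  have p4 : ed b Y ^ 2 * ((3 * X : ℕ) : ℝ) ^ 2 * (1 + 1 / (T ^ 3)⁻¹) ^ 2 ≤ 144 * R ^ 2 := by
    have h5 : 1 + 1 / (T ^ 3)⁻¹ ≤ 2 * T ^ 3 := by
      rw [one_div, inv_inv]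
      have : (1 : ℝ) ≤ T ^ 3 := one_le_pow₀ (by linarith)
      linarith
    have h50 : 0 ≤ 1 + 1 / (T ^ 3)⁻¹ := by positivity
    calc ed b Y ^ 2 * ((3 * X : ℕ) : ℝ) ^ 2 * (1 + 1 / (T ^ 3)⁻¹) ^ 2 ≤
        ed b Y ^ 2 * (6 * R * T) ^ 2 * (2 * T ^ 3) ^ 2 := by gcongr
      _ = 144 * R ^ 2 * (T ^ 4 * ed b Y) ^ 2 := by ring
      _ ≤ 144 * R ^ 2 * 1 ^ 2 := by gcongr
      _ = _ := by ring
  have p5 : 1600 * K₀ ^ 2 * (2 * Real.pi * (2 * (144 * (((3 * X : ℕ) : ℝ) ^ 4 * (T ^ 3)⁻¹ ^ 2) + 32 *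
      (ed b Y ^ 2 * ((3 * X : ℕ) : ℝ) ^ 2 * (1 + 1 / (T ^ 3)⁻¹) ^ 2)))) ≤
      1600 * K₀ ^ 2 * (7 * (2 * (144 * (1296 * R ^ 4) + 32 * (144 * R ^ 2)))) := by
    gcongr
  have p6 : 1600 * K₀ ^ 2 * (7 * (2 * (144 * (1296 * R ^ 4) + 32 * (144 * R ^ 2)))) ≤ ε / 8 * T := by
    rw [div_le_iff₀ hε] at hCT
    linarith
  linarith

theorem meas_P (β ε : ℝ) (hε : 0 < ε) : ∃ b c T₀ : ℝ, 10 ≤ b ∧ 0 < c ∧ 10 ≤ T₀ ∧ ∀ T : ℝ, T₀ ≤ T →
    ∀ Bad : Set ℝ, Bad ⊆ Ioc T (2 * T) →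
    (∀ t ∈ Bad, ∃ (ι : Type) (_ : Fintype ι) (Λ : ℝ) (u : ℂ) (a : ℝ → ℂ)
      (d : ι → ℂ) (x : ι → ℝ) (D : ℂ → ℂ),
      QD β b (5 * b * Real.log (Real.log T)) (Real.log T) Λ c (c ^ 2 / Real.log T) t u a d x D ∧
      0 < Λ ∧ Λ ≤ Real.log T + cbe β) →
    volume.real Bad ≤ ε * T := by
  obtain ⟨K₀, q₀, hK₀, hq₀, hwin⟩ := win_P β
  have hK0 : 0 < K₀ := by linarith
  set R : ℝ := 1 + 46080000 * K₀ ^ 2 / ε with hR
  have hR1 : 1 ≤ R := by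
    rw [hR]
    have : 0 ≤ 46080000 * K₀ ^ 2 / ε := by positivity
    linarith
  have hR0 : 0 < R := by linarith
  have hl6R : 0 ≤ Real.log (6 * R) := Real.log_nonneg (by linarith)
  set ε₁ : ℝ := ε / (25804800 * K₀ ^ 2 * R) with hε₁
  have hε₁0 : 0 < ε₁ := by positivity
  obtain ⟨b₀, X₀, hb₀, hmel⟩ := mel_window β ε₁ hε₁0
  obtain ⟨b₁, hb₁⟩ := exists_b
  set b : ℝ := max (max b₀ b₁) 10 with hb
  have hb10 : 10 ≤ b := le_max_right _ _
  have hbb0 : b₀ ≤ b := (le_max_left _ _).trans (le_max_left _ _)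
  have hbb1 : b₁ ≤ b := (le_max_right _ _).trans (le_max_left _ _)
  have hb1 : 1 ≤ b := by linarith
  have hb0 : 0 < b := by linarith
  obtain ⟨T1, hT1, hwin⟩ := hwin b hb10 (hb₁ b hbb1) R hR1
  have hθ := th0_pos β
  have hpi := Real.pi_pos
  set CZ : ℝ := (1 + 6 * R) * (400 * ((6 * b) ^ 2 + 12) + 200 * ((6 * b) ^ 2 + 12) * (6 * b) +
        400 * (144 * b ^ 2 + 16) * (2 + Real.log (6 * R))) with hCZ
  have hCZ0 : 0 < CZ := by positivity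
  set c : ℝ := min (min 1 (√q₀)) (min (b / (40 * (3 + 6 * b))) (ε * b / (160 * CZ))) with hc
  have hsq₀ : 0 < √q₀ := Real.sqrt_pos.mpr hq₀
  have hc0 : 0 < c := by positivity
  have hc1 : c ≤ 1 := (min_le_left _ _).trans (min_le_left _ _)
  have hc2 : c ≤ √q₀ := (min_le_left _ _).trans (min_le_right _ _)
  have hc3 : c * (3 + 6 * b) ≤ b / 40 := by
    have h1 : c ≤ b / (40 * (3 + 6 * b)) := (min_le_right _ _).trans (min_le_left _ _)
    rw [le_div_iff₀ (by positivity)] at h1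
    linarith
  have hc4 : CZ / (b / (40 * c)) ≤ ε / 4 := by
    have h1 : c ≤ ε * b / (160 * CZ) := (min_le_right _ _).trans (min_le_right _ _)
    rw [le_div_iff₀ (by positivity)] at h1
    have e : CZ / (b / (40 * c)) = 40 * c * CZ / b := by
      field_simp
    rw [e, div_le_iff₀ hb0]
    linarith
  have hcq : c ^ 2 ≤ q₀ := by
    calc c ^ 2 ≤ √q₀ ^ 2 := pow_le_pow_left₀ hc0.le hc2 2
      _ = q₀ := Real.sq_sqrt hq₀.le
  set CT : ℝ := 8 * (1600 * K₀ ^ 2 * (7 * (2 * (144 * (1296 * R ^ 4) + 32 * (144 * R ^ 2))))) / ε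
    with hCT
  have hCT0 : 0 < CT := by positivity
  have hev := ev_ed hb0 1 one_pos
  obtain ⟨T2, hT2⟩ := eventually_atTop.mp hev
  set KK : ℝ := 4 * ((b - 1) / (2 * Real.pi) / th0 β) with hKK
  have hKK0 : 0 < KK := by
    have : 0 < b - 1 := by linarith
    positivity
  refine ⟨b, c, max (max T1 T2) (10 + X₀ + KK + CT), hb10, hc0, ?_, ?_⟩
  · refine le_trans ?_ (le_max_right _ _)
    have : (0 : ℝ) ≤ X₀ := Nat.cast_nonneg _
    linarith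
  intro T hT Bad hBad hdata
  have hTT1 : T1 ≤ T := (le_max_left _ _).trans ((le_max_left _ _).trans hT)
  have hTT2 : T2 ≤ T := (le_max_right _ _).trans ((le_max_left _ _).trans hT)
  have hTT3 : 10 + X₀ + KK + CT ≤ T := (le_max_right _ _).trans hT
  have hX00 : (0 : ℝ) ≤ X₀ := Nat.cast_nonneg _
  have hT10 : 10 ≤ T := by linarith
  have hT0 : 0 < T := by linarith
  have hℓ1 : 1 ≤ Real.log T := by
    rw [Real.le_log_iff_exp_le hT0]
    have := Real.exp_one_lt_three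
    linarith
  set ℓ := Real.log T with hℓ
  set Y := 5 * b * Real.log ℓ with hY
  have hY0 : 0 ≤ Y := by
    have : 0 ≤ Real.log ℓ := Real.log_nonneg hℓ1
    positivity
  set X : ℕ := ⌈R * T⌉₊ with hX
  have hXl : R * T ≤ X := Nat.le_ceil _
  have hXT : T ≤ X := by nlinarith
  have hXu : (X : ℝ) ≤ 2 * R * T := by
    have h1 := Nat.ceil_lt_add_one (show 0 ≤ R * T by positivity)
    rw [← hX] at h1
    nlinarith
  have hXr : (0 : ℝ) < X := by linarith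
  have hX1 : 1 ≤ X := by
    have : (1 : ℝ) ≤ X := by linarith
    exact_mod_cast this
  set ψ := psi1 X with hψ
  set a₁ : ℕ → ℂ := fun n => ((ψ n : ℝ) : ℂ) * (mob n : ℂ) with ha₁
  set a₂ : ℕ → ℂ := fun n => ((1 - ψ n : ℝ) : ℂ) * (mob n : ℂ) with ha₂
  have ha1n : ∀ n, ‖a₁ n‖ ≤ 1 := by
    intro n
    rw [ha₁]
    simp only
    rw [norm_mul, Complex.norm_real, Real.norm_of_nonneg (psi1_range X n).1]
    calc ψ n * ‖(mob n : ℂ)‖ ≤ 1 * 1 :=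
          mul_le_mul (psi1_range X n).2 (mob_norm n) (norm_nonneg _) zero_le_one
      _ = 1 := one_mul 1
  have ha2n : ∀ n, ‖a₂ n‖ ≤ 1 := by
    intro n
    rw [ha₂]
    simp only
    have h1 := psi1_range X n
    rw [norm_mul, Complex.norm_real, Real.norm_of_nonneg (by linarith)]
    calc (1 - ψ n) * ‖(mob n : ℂ)‖ ≤ 1 * 1 :=
          mul_le_mul (by linarith) (mob_norm n) (norm_nonneg _) zero_le_one
      _ = 1 := one_mul 1
  have ha20 : ∀ n, n ≤ X → a₂ n = 0 := by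
    intro n hn
    rw [ha₂]
    simp only
    rw [hψ, psi1_one hX1 hn, sub_self, Complex.ofReal_zero, zero_mul]
  have hIoc : Ioc T (2 * T) = Ioc T (T + T) := by rw [two_mul]
  set I2 : ℝ → ℝ := fun t => ∫ v in (-Y)..Y, ‖AH.PP (Finset.Icc 1 (X ^ 8)) a₂ ⟨-1, t + v⟩‖ * kk b v
    with hI2
  set I1 : ℝ → ℂ := fun t => VW (fun z => HH β (T ^ 3)⁻¹ z.im *
    AH.PP (Finset.Icc 1 (3 * X)) a₁ z) b⁻¹ Y t 0 with hI1
  set B2 : Set ℝ := {t ∈ Ioc T (T + T) | b / (40 * K₀ * T) ≤ I2 t} with hB2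
  set B3 : Set ℝ := {t ∈ Ioc T (T + T) | b / (40 * c) ≤ ZZ (3 * X) a₁ b Y ℓ t} with hB3
  set B1 : Set ℝ := {t | b / (40 * K₀) ≤ ‖I1 t‖} with hB1
  have hsub : Bad ⊆ (B2 ∪ B3) ∪ (B1 ∩ Ioc T (T + T)) := by
    intro t ht
    have htI := hBad ht
    rw [hIoc] at htI
    obtain ⟨ι, hι, Λ, u, a, d, x, D, hQD, hΛ, hΛ2⟩ := hdata t ht
    have h3 : b / 10 ≤ K₀ * T * I2 t + K₀ * ‖I1 t‖ + AX (3 * X) a₁ b Y ℓ c (c ^ 2 / ℓ) (ℓ / c) t :=
      hwin T hTT1 X hXT hXu ψ (psi1_range X) (fun n hn => psi1_zero hX1 hn) t htI.1.le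
      (by linarith [htI.2]) ι Λ c (c ^ 2 / ℓ) (ℓ / c) u a d x D hQD (by positivity) (by
        rw [div_le_iff₀ (by linarith)]
        nlinarith) hc0.le hΛ hΛ2 (by positivity)
    have h4 := AX_le (N := 3 * X) (a₁ := a₁) (b := b) (Y := Y) (t := t) hℓ1 hc0
    by_cases h5 : b / 40 ≤ K₀ * T * I2 t
    · left; left
      refine ⟨htI, ?_⟩
      rw [div_le_iff₀ (by positivity)]
      linarith
    · by_cases h6 : b / 40 ≤ c * ZZ (3 * X) a₁ b Y ℓ t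
      · left; right
        refine ⟨htI, ?_⟩
        rw [div_le_iff₀ (by positivity)]
        linarith
      · right
        refine ⟨?_, htI⟩
        show b / (40 * K₀) ≤ ‖I1 t‖
        push Not at h5 h6
        rw [div_le_iff₀ (by positivity)]
        linarith
  -- the second set
  have v2 : volume.real B2 ≤ ε / 4 * T := by
    have h1 := markov_win (f := fun x => ‖AH.PP (Finset.Icc 1 (X ^ 8)) a₂ ⟨-1, x⟩‖) (w := kk b)
      (K := 6 * b) (M := 200 / X) (a := b / (40 * K₀ * T)) (T := T) (B := T)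
      (PP_cont _ _ _) (fun _ => norm_nonneg _) (kk_cont b) (kk_nonneg b) hY0 (by positivity)
      (kk_mass hb0 hY0) (by positivity) (by
        intro v _
        refine (PP_mv (Finset.Icc 1 (X ^ 8)) (fun m hm => (Finset.mem_Icc.mp hm).1) a₂ (-1) T v
          hT10).trans ?_
        have h2 := sum_J2 (N := X ^ 8) hX1 hXT ha2n ha20
        calc 100 * _ ≤ 100 * (2 / (X : ℝ)) := mul_le_mul_of_nonneg_left h2 (by norm_num)
          _ = 200 / X := by ring) (by positivity) hT0.le B2 (fun t ht => ht.1) (fun t ht => ht.2)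
    refine h1.trans ?_
    have e1 : (6 * b) ^ 2 * (200 / X) / (b / (40 * K₀ * T)) ^ 2 =
        11520000 * K₀ ^ 2 * T ^ 2 / X := by
      field_simp
      ring
    rw [e1, div_le_iff₀ hXr]
    have h2 : 46080000 * K₀ ^ 2 / ε * T ≤ X := by
      refine le_trans ?_ hXl
      apply mul_le_mul_of_nonneg_right _ hT0.le
      rw [hR]
      linarith
    calc 11520000 * K₀ ^ 2 * T ^ 2 = ε / 4 * T * (46080000 * K₀ ^ 2 / ε * T) := by
          field_simp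
          norm_num
      _ ≤ ε / 4 * T * X := mul_le_mul_of_nonneg_left h2 (by positivity)
  -- the third set
  have v3 : volume.real B3 ≤ ε / 4 * T := by
    have h1 := ZZ_meas (N := 3 * X) ha1n hb0 hY0 hT10 hR1 hℓ hℓ1 (by omega) (by
      push_cast
      linarith) (show 0 < b / (40 * c) by positivity) (G := B3) (fun t ht => ht.1)
      (fun t ht => ht.2)
    refine h1.trans ?_
    rw [← hCZ, mul_div_right_comm]
    exact mul_le_mul_of_nonneg_right hc4 hT0.le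
  -- the first set
  have v1 : volume.real (B1 ∩ Ioc T (T + T)) ≤ ε / 4 * T := by
    have h1 := hmel X (by
      have : (X₀ : ℝ) ≤ X := by linarith
      exact_mod_cast this) b hbb0 (by
      rw [← hKK]
      linarith) ψ (psi1_range X) (by
      intro n m
      refine (psi1_lip hX1 n m).trans ?_
      rw [← hKK]
      apply div_le_div_of_nonneg_left (abs_nonneg _) hKK0
      linarith) (fun n hn => psi1_zero hX1 hn) (T ^ 3)⁻¹ Y (by positivity) hY0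
    have hE := hT2 T hTT2
    rw [one_mul, ← hℓ, ← hY] at hE
    exact v1_bound hε₁ hε hb1 hK₀ hR1 hT10 (by rw [← hCT]; linarith) hX1 hXu hE hℓ1 h1
  -- conclusion
  have hfin : volume ((B2 ∪ B3) ∪ (B1 ∩ Ioc T (T + T))) ≠ ⊤ := by
    apply ((measure_mono (?_ : (B2 ∪ B3) ∪ (B1 ∩ Ioc T (T + T)) ⊆ Ioc T (T + T))).trans_lt
      measure_Ioc_lt_top).ne
    rintro t ((ht | ht) | ht)
    · exact ht.1
    · exact ht.1
    · exact ht.2
  have hεT : 0 < ε * T := by positivity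
  calc volume.real Bad ≤ volume.real ((B2 ∪ B3) ∪ (B1 ∩ Ioc T (T + T))) := measureReal_mono hsub hfin
    _ ≤ volume.real (B2 ∪ B3) + volume.real (B1 ∩ Ioc T (T + T)) := measureReal_union_le _ _
    _ ≤ volume.real B2 + volume.real B3 + volume.real (B1 ∩ Ioc T (T + T)) := by
      have := measureReal_union_le (μ := volume) B2 B3
      linarith
    _ ≤ ε / 4 * T + ε / 4 * T + ε / 4 * T := by linarith
    _ ≤ ε * T := by linarith

end Pool.Agent.T9h53.AJ
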