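import Pool.Agent.T9h53.AJ.En
import Pool.Agent.T9h53.AJ.Eb
import Pool.Agent.T9h53.AH.MeasA

/-! # Mean values of the smoothed polynomials -/

set_option autoImplicit false

open Complex Filter Topology Set MeasureTheory

namespace Pool.Agent.T9h53.AJ

open Pool.Agent.T9h53.SZ Pool.Agent.T9h53.AH Pool.Agent.T9h53.EQ

/-- the weighted polynomial -/
noncomputable def DS (S : Finset ℕ) (a : ℕ → ℂ) (c : ℕ → ℝ → ℂ) (t v : ℝ) : ℂ :=
  ∑ n ∈ S, (a n * ((Real.exp (-(Real.log n / 2)) : ℝ) : ℂ) * c n v) *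
    cexp (((-(Real.log n * t) : ℝ) : ℂ) * I)

lemma DS_cont (S : Finset ℕ) (a : ℕ → ℂ) {c : ℕ → ℝ → ℂ} (hc : ∀ n, Continuous (c n)) :
    Continuous (Function.uncurry (DS S a c)) := by
  rw [Function.uncurry_def]
  unfold DS
  apply continuous_finsetSum
  intro n _
  have := hc n
  fun_prop

lemma DS_mean (S : Finset ℕ) (hS : ∀ m ∈ S, 1 ≤ m) (a : ℕ → ℂ) (c : ℕ → ℝ → ℂ) (v T : ℝ) {B : ℝ}
    (hB : 10 ≤ B) : ∫ t in T..(T + B), ‖DS S a c t v‖ ^ 2 ≤
      100 * ∑ n ∈ S, (‖a n‖ * Real.exp (-(Real.log n / 2)) * ‖c n v‖) ^ 2 * (B + n) := by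
  have h := mv_nat S hS (fun n => (starRingEnd ℂ) (a n * ((Real.exp (-(Real.log n / 2)) : ℝ) : ℂ) *
    c n v)) T hB
  have e1 : ∀ t : ℝ, ‖DS S a c t v‖ = ‖∑ n ∈ S, (starRingEnd ℂ) (a n *
      ((Real.exp (-(Real.log n / 2)) : ℝ) : ℂ) * c n v) *
      cexp (((Real.log n : ℝ) : ℂ) * ⟨0, t⟩)‖ := by
    intro t
    rw [← Complex.norm_conj]
    unfold DS
    rw [map_sum]
    congr 1
    apply Finset.sum_congr rfl
    intro n _
    rw [map_mul, ← Complex.exp_conj]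
    congr 2
    rw [mk_eq, map_mul, conj_I, conj_ofReal]
    push_cast
    ring
  simp only [e1]
  refine h.trans (le_of_eq ?_)
  congr 1
  apply Finset.sum_congr rfl
  intro n _
  rw [RCLike.norm_conj, norm_mul, norm_mul, Complex.norm_real, Real.norm_of_nonneg (Real.exp_pos _).le]

/-- the partial transform of the kernel -/
noncomputable def cI (p b Y ξ v : ℝ) : ℂ :=
  ∫ x in v..Y, cexp (I * ((ξ * x : ℝ) : ℂ)) * ((Real.exp (-(p * Real.cosh (b⁻¹ * x))) : ℝ) : ℂ)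

lemma ck_cont (p b ξ : ℝ) : Continuous fun x : ℝ =>
    cexp (I * ((ξ * x : ℝ) : ℂ)) * ((Real.exp (-(p * Real.cosh (b⁻¹ * x))) : ℝ) : ℂ) := by
  have := Real.continuous_cosh
  fun_prop

lemma cI_cont (p b Y ξ : ℝ) : Continuous (cI p b Y ξ) := by
  have h1 : cI p b Y ξ = fun v => -∫ x in Y..v, cexp (I * ((ξ * x : ℝ) : ℂ)) *
      ((Real.exp (-(p * Real.cosh (b⁻¹ * x))) : ℝ) : ℂ) := by
    funext v
    unfold cI
    exact intervalIntegral.integral_symm _ _
  rw [h1]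
  apply Continuous.neg
  exact intervalIntegral.continuous_primitive (fun a b' => (ck_cont p b ξ).intervalIntegrable _ _) _

lemma cI_cont2 (p b Y v : ℝ) : Continuous fun ξ => cI p b Y ξ v := by
  unfold cI
  apply intervalIntegral.continuous_parametric_intervalIntegral_of_continuous'
  rw [Function.uncurry_def]
  have := Real.continuous_cosh
  fun_prop

lemma cosh_mono {b x v : ℝ} (hb : 0 < b) (hv : 0 ≤ v) (hx : v ≤ x) :
    Real.cosh (b⁻¹ * v) ≤ Real.cosh (b⁻¹ * x) := by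
  have hb' : 0 < b⁻¹ := inv_pos.mpr hb
  rw [Real.cosh_le_cosh, abs_of_nonneg (by positivity), abs_of_nonneg (by
    have : 0 ≤ x := hv.trans hx
    positivity)]
  exact mul_le_mul_of_nonneg_left hx hb'.le

lemma kk_sub {b Y v : ℝ} (hb : 0 < b) (hv : 0 ≤ v) (hvY : v ≤ Y) :
    ∫ x in v..Y, kk b x ≤ 6 * b := by
  refine le_trans ?_ (kk_mass hb (hv.trans hvY))
  rw [intervalIntegral.integral_of_le hvY, intervalIntegral.integral_of_le (by linarith)]
  apply setIntegral_mono_set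
  · exact ((kk_cont b).intervalIntegrable _ _).1
  · exact Eventually.of_forall fun x => kk_nonneg b x
  · exact (Ioc_subset_Ioc_left (by linarith)).eventuallyLE

lemma cI_norm (p b ξ x : ℝ) : ‖cexp (I * ((ξ * x : ℝ) : ℂ)) *
    ((Real.exp (-(p * Real.cosh (b⁻¹ * x))) : ℝ) : ℂ)‖ = Real.exp (-(p * Real.cosh (b⁻¹ * x))) := by
  rw [norm_mul, mul_comm I, Complex.norm_exp_ofReal_mul_I, one_mul, Complex.norm_real,
    Real.norm_of_nonneg (Real.exp_pos _).le]

/-- size of the full transform -/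
lemma cI_one {b Y ξ v : ℝ} (hb : 0 < b) (hv : 0 ≤ v) (hvY : v ≤ Y) :
    ‖cI 1 b Y ξ v‖ ≤ 6 * b * kk b v := by
  unfold cI
  have hkc := kk_cont b
  have h1 : ‖∫ x in v..Y, cexp (I * ((ξ * x : ℝ) : ℂ)) *
      ((Real.exp (-(1 * Real.cosh (b⁻¹ * x))) : ℝ) : ℂ)‖ ≤ ∫ x in v..Y, kk b v * kk b x := by
    apply intervalIntegral.norm_integral_le_of_norm_le hvY
    · apply Eventually.of_forall
      intro x hx
      rw [cI_norm, one_mul]
      unfold kk
      rw [← Real.exp_add]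
      apply Real.exp_le_exp.mpr
      have := cosh_mono hb hv hx.1.le
      linarith
    · exact (hkc.const_mul _).intervalIntegrable _ _
  rw [intervalIntegral.integral_const_mul] at h1
  refine h1.trans ?_
  have h2 := kk_sub hb hv hvY
  have := kk_nonneg b v
  calc kk b v * ∫ x in v..Y, kk b x ≤ kk b v * (6 * b) := by gcongr
    _ = _ := by ring

lemma cI_three {b Y ξ v : ℝ} (hb : 0 < b) (hv : 0 ≤ v) (hvY : v ≤ Y) :
    ‖cI (3 / 4) b Y ξ v‖ ≤ 6 * b := by
  unfold cI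
  have hkc := kk_cont b
  have h1 : ‖∫ x in v..Y, cexp (I * ((ξ * x : ℝ) : ℂ)) *
      ((Real.exp (-(3 / 4 * Real.cosh (b⁻¹ * x))) : ℝ) : ℂ)‖ ≤ ∫ x in v..Y, kk b x := by
    apply intervalIntegral.norm_integral_le_of_norm_le hvY
    · apply Eventually.of_forall
      intro x hx
      rw [cI_norm]
      unfold kk
      apply Real.exp_le_exp.mpr
      have := Real.cosh_pos (b⁻¹ * x)
      linarith
    · exact hkc.intervalIntegrable _ _
  exact h1.trans (kk_sub hb hv hvY)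

/-- oscillation -/
lemma cI_osc {p b Y ξ v : ℝ} (hp : 0 ≤ p) (hb : 0 < b) (hv : 0 ≤ v) (hvY : v ≤ Y) (hξ : ξ ≠ 0) :
    ‖cI p b Y ξ v‖ ≤ 2 * Real.exp (-(p * Real.cosh (b⁻¹ * v))) / |ξ| := by
  unfold cI
  refine osc (f := fun x => Real.exp (-(p * Real.cosh (b⁻¹ * x))))
    (f' := fun x => Real.exp (-(p * Real.cosh (b⁻¹ * x))) * (-(p * (Real.sinh (b⁻¹ * x) * b⁻¹))))
    hvY hξ ?_ ?_ ?_ (Real.exp_pos _).le
  · intro x
    have h1 : HasDerivAt (fun x : ℝ => b⁻¹ * x) b⁻¹ x := by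
      simpa using (hasDerivAt_id x).const_mul b⁻¹
    have h2 := ((h1.cosh.const_mul p).neg).exp
    exact h2
  · have := Real.continuous_cosh
    have := Real.continuous_sinh
    fun_prop
  · intro x hx
    have hx0 : 0 ≤ x := hv.trans hx.1
    have h1 : 0 ≤ Real.sinh (b⁻¹ * x) := by
      rw [Real.sinh_nonneg_iff]
      have : 0 < b⁻¹ := inv_pos.mpr hb
      positivity
    have h2 : 0 ≤ p * (Real.sinh (b⁻¹ * x) * b⁻¹) := by
      have : 0 < b⁻¹ := inv_pos.mpr hb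
      positivity
    have h3 := Real.exp_pos (-(p * Real.cosh (b⁻¹ * x)))
    nlinarith

/-- the smoothed polynomial is a weighted polynomial -/
lemma PM_eq (S : Finset ℕ) (a : ℕ → ℂ) (t x : ℝ) : PP S a (-(⟨0, t + x⟩ : ℂ)) =
    ∑ n ∈ S, (a n * ((Real.exp (-(Real.log n / 2)) : ℝ) : ℂ)) *
      (cexp (((-(Real.log n * t) : ℝ) : ℂ) * I) * cexp (I * ((-(Real.log n) * x : ℝ) : ℂ))) := by
  unfold AH.PP
  apply Finset.sum_congr rfl
  intro n _
  rw [← Complex.exp_add, mk_eq, ← mul_assoc]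
  congr 2
  push_cast
  ring

lemma PM_cont (S : Finset ℕ) (a : ℕ → ℂ) : Continuous fun x : ℝ => PP S a (-(⟨0, x⟩ : ℂ)) := by
  unfold AH.PP
  simp only [mk_eq]
  fun_prop

lemma part_eq (S : Finset ℕ) (a : ℕ → ℂ) (p b Y η t v : ℝ) :
    ∫ x in v..Y, cexp (I * ((η * x : ℝ) : ℂ)) * (PP S a (-(⟨0, t + x⟩ : ℂ)) *
      ((Real.exp (-(p * Real.cosh (b⁻¹ * x))) : ℝ) : ℂ)) =
    DS S a (fun n v => cI p b Y (η - Real.log n) v) t v := by
  unfold DS cI
  have e1 : ∀ x : ℝ, cexp (I * ((η * x : ℝ) : ℂ)) * (PP S a (-(⟨0, t + x⟩ : ℂ)) *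
      ((Real.exp (-(p * Real.cosh (b⁻¹ * x))) : ℝ) : ℂ)) =
      ∑ n ∈ S, ((a n * ((Real.exp (-(Real.log n / 2)) : ℝ) : ℂ)) *
        cexp (((-(Real.log n * t) : ℝ) : ℂ) * I)) * (cexp (I * (((η - Real.log n) * x : ℝ) : ℂ)) *
        ((Real.exp (-(p * Real.cosh (b⁻¹ * x))) : ℝ) : ℂ)) := by
    intro x
    rw [PM_eq, Finset.sum_mul, Finset.mul_sum]
    apply Finset.sum_congr rfl
    intro n _
    have : cexp (I * (((η - Real.log n) * x : ℝ) : ℂ)) = cexp (I * ((η * x : ℝ) : ℂ)) *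
        cexp (I * ((-(Real.log n) * x : ℝ) : ℂ)) := by
      rw [← Complex.exp_add]
      congr 1
      push_cast
      ring
    rw [this]
    ring
  simp only [e1]
  rw [intervalIntegral.integral_finsetSum]
  · apply Finset.sum_congr rfl
    intro n _
    rw [intervalIntegral.integral_const_mul]
    ring
  · intro n _
    exact ((ck_cont p b _).const_mul _).intervalIntegrable _ _

lemma part_neg (S : Finset ℕ) (a : ℕ → ℂ) (p b Y η t v : ℝ) :
    ∫ x in (-Y)..v, cexp (I * ((η * x : ℝ) : ℂ)) * (PP S a (-(⟨0, t + x⟩ : ℂ)) *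
      ((Real.exp (-(p * Real.cosh (b⁻¹ * x))) : ℝ) : ℂ)) =
    DS S a (fun n v => cI p b Y (Real.log n - η) (-v)) t v := by
  have h0 := intervalIntegral.integral_comp_neg (a := -v) (b := Y)
    (fun x : ℝ => cexp (I * ((η * x : ℝ) : ℂ)) * (PP S a (-(⟨0, t + x⟩ : ℂ)) *
      ((Real.exp (-(p * Real.cosh (b⁻¹ * x))) : ℝ) : ℂ)))
  rw [neg_neg] at h0
  rw [← h0]
  unfold DS cI
  have e1 : ∀ x : ℝ, cexp (I * ((η * -x : ℝ) : ℂ)) * (PP S a (-(⟨0, t + -x⟩ : ℂ)) *
      ((Real.exp (-(p * Real.cosh (b⁻¹ * -x))) : ℝ) : ℂ)) =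
      ∑ n ∈ S, ((a n * ((Real.exp (-(Real.log n / 2)) : ℝ) : ℂ)) *
        cexp (((-(Real.log n * t) : ℝ) : ℂ) * I)) * (cexp (I * (((Real.log n - η) * x : ℝ) : ℂ)) *
        ((Real.exp (-(p * Real.cosh (b⁻¹ * x))) : ℝ) : ℂ)) := by
    intro x
    rw [PM_eq, Finset.sum_mul, Finset.mul_sum]
    apply Finset.sum_congr rfl
    intro n _
    have : cexp (I * (((Real.log n - η) * x : ℝ) : ℂ)) = cexp (I * ((η * -x : ℝ) : ℂ)) *
        cexp (I * ((-(Real.log n) * -x : ℝ) : ℂ)) := by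
      rw [← Complex.exp_add]
      congr 1
      push_cast
      ring
    rw [this, mul_neg b⁻¹, Real.cosh_neg]
    ring
  simp only [e1]
  rw [intervalIntegral.integral_finsetSum]
  · apply Finset.sum_congr rfl
    intro n _
    rw [intervalIntegral.integral_const_mul]
    ring
  · intro n _
    exact ((ck_cont p b _).const_mul _).intervalIntegrable _ _

/-- the convergent sum -/
lemma log_sum (N : ℕ) : ∑ n ∈ Finset.Icc 2 N, 1 / ((n : ℝ) * Real.log n ^ 2) ≤ 3 := by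
  have hl2 : 0.6931 < Real.log 2 := lt_trans (by norm_num) Real.log_two_gt_d9
  have key : ∀ N : ℕ, 2 ≤ N → ∑ n ∈ Finset.Icc 2 N, 1 / ((n : ℝ) * Real.log n ^ 2) ≤
      3 - 1 / Real.log N := by
    intro N hN
    induction N, hN using Nat.le_induction with
    | base =>
      rw [Finset.Icc_self, Finset.sum_singleton]
      push_cast
      have h1 : 1 / (2 * Real.log 2 ^ 2) ≤ 1 / (2 * 0.6931 ^ 2) := by
        apply one_div_le_one_div_of_le (by norm_num)
        gcongr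
      have h2 : 1 / Real.log 2 ≤ 1 / 0.6931 := one_div_le_one_div_of_le (by norm_num) hl2.le
      norm_num at h1 h2 ⊢
      linarith
    | succ N hN ih =>
      rw [Finset.sum_Icc_succ_top (by omega)]
      have hN0 : (0 : ℝ) < N := by
        have : 0 < N := by omega
        exact_mod_cast this
      have hN1 : (2 : ℝ) ≤ N := by exact_mod_cast hN
      set x := Real.log N with hx
      set y := Real.log ((N + 1 : ℕ) : ℝ) with hy
      have hx0 : 0 < x := Real.log_pos (by linarith)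
      have hxy : x ≤ y := Real.log_le_log hN0 (by push_cast; linarith)
      have hy0 : 0 < y := by linarith
      have hd : 1 / ((N + 1 : ℕ) : ℝ) ≤ y - x := by
        have h1 := Real.one_sub_inv_le_log_of_pos
          (show (0 : ℝ) < ((N + 1 : ℕ) : ℝ) / N by positivity)
        rw [Real.log_div (by positivity) hN0.ne', inv_div] at h1
        refine le_trans (le_of_eq ?_) h1
        push_cast
        field_simp
        ring
      have h1 : 1 / (((N + 1 : ℕ) : ℝ) * y ^ 2) ≤ 1 / x - 1 / y := by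
        have e1 : 1 / x - 1 / y = (y - x) / (x * y) := by
          field_simp
        have e2 : 1 / (((N + 1 : ℕ) : ℝ) * y ^ 2) = 1 / ((N + 1 : ℕ) : ℝ) / y ^ 2 := by
          field_simp
        rw [e1, e2]
        apply div_le_div₀ (by linarith) hd (by positivity)
        nlinarith
      linarith
  rcases Nat.lt_or_ge N 2 with h | h
  · rw [Finset.Icc_eq_empty (by omega), Finset.sum_empty]
    norm_num
  · have h1 := key N h
    have h2 : 0 ≤ 1 / Real.log N := by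
      have : (1 : ℝ) ≤ N := by
        have : 1 ≤ N := by omega
        exact_mod_cast this
      have := Real.log_nonneg this
      positivity
    linarith

lemma exp_half_sq {n : ℕ} (hn : 1 ≤ n) : Real.exp (-(Real.log n / 2)) ^ 2 = 1 / n := by
  have hn0 : (0 : ℝ) < n := by exact_mod_cast hn
  rw [← Real.exp_nat_mul, one_div, ← Real.exp_log hn0, ← Real.exp_neg, Real.log_exp]
  congr 1
  push_cast
  ring

/-- weighted sums with the coefficients of the partial transforms -/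
lemma coef_sum {N : ℕ} {a : ℕ → ℂ} (ha : ∀ n, ‖a n‖ ≤ 1) {c : ℕ → ℂ} {B A k : ℝ} (hB : 0 ≤ B)
    (hA : 0 ≤ A) (hk : 0 ≤ k) (h1 : ∀ n, ‖c n‖ ≤ A * k)
    (h2 : ∀ n, 2 ≤ n → ‖c n‖ ≤ 2 * k / Real.log n) :
    ∑ n ∈ Finset.Icc 1 N, (‖a n‖ * Real.exp (-(Real.log n / 2)) * ‖c n‖) ^ 2 * (B + n) ≤
      (B + N) * (A ^ 2 + 12) * k ^ 2 := by
  have hterm : ∀ n ∈ Finset.Icc 1 N, (‖a n‖ * Real.exp (-(Real.log n / 2)) * ‖c n‖) ^ 2 * (B + n) ≤
      (B + N) * (1 / n * ‖c n‖ ^ 2) := by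
    intro n hn
    obtain ⟨hn1, hn2⟩ := Finset.mem_Icc.mp hn
    have hn2' : (n : ℝ) ≤ N := by exact_mod_cast hn2
    rw [mul_pow, mul_pow, exp_half_sq hn1]
    have h3 : ‖a n‖ ^ 2 ≤ 1 := pow_le_one₀ (norm_nonneg _) (ha n)
    calc ‖a n‖ ^ 2 * (1 / n) * ‖c n‖ ^ 2 * (B + n) ≤ 1 * (1 / n) * ‖c n‖ ^ 2 * (B + N) := by
          gcongr
      _ = _ := by ring
  refine (Finset.sum_le_sum hterm).trans ?_
  rw [← Finset.mul_sum, mul_assoc]
  apply mul_le_mul_of_nonneg_left _ (by positivity)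
  rcases Nat.eq_zero_or_pos N with hN | hN
  · rw [hN, Finset.Icc_eq_empty (by omega), Finset.sum_empty]
    positivity
  · rw [← Finset.add_sum_Ioc_eq_sum_Icc hN]
    have e1 : Finset.Ioc 1 N = Finset.Icc 2 N := by
      ext n
      simp only [Finset.mem_Ioc, Finset.mem_Icc]
      omega
    rw [e1]
    have h3 : 1 / ((1 : ℕ) : ℝ) * ‖c 1‖ ^ 2 ≤ A ^ 2 * k ^ 2 := by
      rw [Nat.cast_one, div_one, one_mul, ← mul_pow]
      exact pow_le_pow_left₀ (norm_nonneg _) (h1 1) 2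
    have h4 : ∑ n ∈ Finset.Icc 2 N, 1 / (n : ℝ) * ‖c n‖ ^ 2 ≤
        ∑ n ∈ Finset.Icc 2 N, 4 * k ^ 2 * (1 / ((n : ℝ) * Real.log n ^ 2)) := by
      apply Finset.sum_le_sum
      intro n hn
      have hn2 := (Finset.mem_Icc.mp hn).1
      have hn2' : (2 : ℝ) ≤ n := by exact_mod_cast hn2
      have hl : 0 < Real.log n := Real.log_pos (by linarith)
      have h5 : ‖c n‖ ^ 2 ≤ (2 * k / Real.log n) ^ 2 :=
        pow_le_pow_left₀ (norm_nonneg _) (h2 n hn2) 2
      calc 1 / (n : ℝ) * ‖c n‖ ^ 2 ≤ 1 / (n : ℝ) * (2 * k / Real.log n) ^ 2 := by gcongr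
        _ = _ := by
          field_simp
          ring
    rw [← Finset.mul_sum] at h4
    have h5 := log_sum N
    have h6 : 4 * k ^ 2 * ∑ n ∈ Finset.Icc 2 N, 1 / ((n : ℝ) * Real.log n ^ 2) ≤
        4 * k ^ 2 * 3 := mul_le_mul_of_nonneg_left h5 (by positivity)
    linarith

end Pool.Agent.T9h53.AJ
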