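import Pool.Agent.T9h53.AJ.Mn

/-! # The energies of the smoothed polynomials -/

set_option autoImplicit false

open Complex Filter Topology Set MeasureTheory

namespace Pool.Agent.T9h53.AJ

open Pool.Agent.T9h53.SZ Pool.Agent.T9h53.AH Pool.Agent.T9h53.EQ

lemma kk_pos (b v : ℝ) : 0 < kk b v := Real.exp_pos _

lemma kk_le_one (b v : ℝ) : kk b v ≤ 1 := by
  unfold kk
  rw [Real.exp_le_one_iff]
  have := Real.cosh_pos (b⁻¹ * v)
  linarith

lemma kk_even (b v : ℝ) : kk b (-v) = kk b v := by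
  unfold kk
  rw [mul_neg, Real.cosh_neg]

lemma exp_cosh_kk (b v : ℝ) : Real.exp (-(1 * Real.cosh (b⁻¹ * v))) ≤ kk b v := by
  unfold kk
  apply Real.exp_le_exp.mpr
  have := Real.cosh_pos (b⁻¹ * v)
  linarith

/-- the tail transform -/
noncomputable def Fp (N : ℕ) (a : ℕ → ℂ) (b Y t v : ℝ) : ℂ :=
  DS (Finset.Icc 1 N) a (fun n v => cI 1 b Y (0 - Real.log n) v) t v

/-- the head transform -/
noncomputable def Fm (N : ℕ) (a : ℕ → ℂ) (b Y t v : ℝ) : ℂ :=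
  DS (Finset.Icc 1 N) a (fun n v => cI 1 b Y (Real.log n - 0) (-v)) t v

/-- the transform -/
noncomputable def Rq (N : ℕ) (a : ℕ → ℂ) (b Y t η : ℝ) : ℂ :=
  DS (Finset.Icc 1 N) a (fun n η => cI (3 / 4) b Y (Real.log n - η) 0 +
    cI (3 / 4) b Y (η - Real.log n) 0) t η

lemma Fp_cont (N : ℕ) (a : ℕ → ℂ) (b Y : ℝ) : Continuous (Function.uncurry (Fp N a b Y)) :=
  DS_cont _ _ fun n => cI_cont _ _ _ _

lemma Fm_cont (N : ℕ) (a : ℕ → ℂ) (b Y : ℝ) : Continuous (Function.uncurry (Fm N a b Y)) :=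
  DS_cont _ _ fun n => (cI_cont _ _ _ _).comp continuous_neg

lemma Rq_cont (N : ℕ) (a : ℕ → ℂ) (b Y : ℝ) : Continuous (Function.uncurry (Rq N a b Y)) :=
  DS_cont _ _ fun n => ((cI_cont2 _ _ _ _).comp (by fun_prop)).add
    ((cI_cont2 _ _ _ _).comp (by fun_prop))

lemma c1_bounds {b Y v ξ : ℝ} (hb : 0 < b) (hv : 0 ≤ v) (hvY : v ≤ Y) :
    ‖cI 1 b Y ξ v‖ ≤ 6 * b * kk b v ∧ (ξ ≠ 0 → ‖cI 1 b Y ξ v‖ ≤ 2 * kk b v / |ξ|) := by
  refine ⟨cI_one hb hv hvY, fun hξ => (cI_osc zero_le_one hb hv hvY hξ).trans ?_⟩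
  have := exp_cosh_kk b v
  have h2 : 0 < |ξ| := abs_pos.mpr hξ
  gcongr

lemma Fp_sq {N : ℕ} {a : ℕ → ℂ} (ha : ∀ n, ‖a n‖ ≤ 1) {b Y v T : ℝ} (hb : 0 < b) (hv : 0 ≤ v)
    (hvY : v ≤ Y) (hT : 10 ≤ T) :
    ∫ t in T..(T + T), ‖Fp N a b Y t v‖ ^ 2 ≤ 100 * (T + N) * ((6 * b) ^ 2 + 12) * kk b v ^ 2 := by
  refine (DS_mean _ (fun m hm => (Finset.mem_Icc.mp hm).1) a _ v T hT).trans ?_
  have h := coef_sum (N := N) ha (c := fun n => cI 1 b Y (0 - Real.log n) v) (B := T) (A := 6 * b)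
    (k := kk b v) (by linarith) (by positivity) (kk_nonneg b v)
    (fun n => (c1_bounds hb hv hvY).1) (by
      intro n hn
      have hn2 : (2 : ℝ) ≤ n := by exact_mod_cast hn
      have hl : 0 < Real.log n := Real.log_pos (by linarith)
      have := (c1_bounds (ξ := 0 - Real.log n) hb hv hvY).2 (by linarith)
      have e : |0 - Real.log n| = Real.log n := by rw [zero_sub, abs_neg, abs_of_pos hl]
      rwa [e] at this)
  calc 100 * ∑ n ∈ Finset.Icc 1 N, (‖a n‖ * Real.exp (-(Real.log n / 2)) *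
      ‖cI 1 b Y (0 - Real.log n) v‖) ^ 2 * (T + n) ≤
      100 * ((T + N) * ((6 * b) ^ 2 + 12) * kk b v ^ 2) := by gcongr
    _ = _ := by ring

lemma Fm_sq {N : ℕ} {a : ℕ → ℂ} (ha : ∀ n, ‖a n‖ ≤ 1) {b Y v T : ℝ} (hb : 0 < b) (hv : v ≤ 0)
    (hvY : -Y ≤ v) (hT : 10 ≤ T) :
    ∫ t in T..(T + T), ‖Fm N a b Y t v‖ ^ 2 ≤ 100 * (T + N) * ((6 * b) ^ 2 + 12) * kk b v ^ 2 := by
  refine (DS_mean _ (fun m hm => (Finset.mem_Icc.mp hm).1) a _ v T hT).trans ?_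
  have hv' : 0 ≤ -v := by linarith
  have hvY' : -v ≤ Y := by linarith
  have h := coef_sum (N := N) ha (c := fun n => cI 1 b Y (Real.log n - 0) (-v)) (B := T) (A := 6 * b)
    (k := kk b v) (by linarith) (by positivity) (kk_nonneg b v)
    (fun n => by
      have := (c1_bounds (ξ := Real.log n - 0) hb hv' hvY').1
      rwa [kk_even] at this) (by
      intro n hn
      have hn2 : (2 : ℝ) ≤ n := by exact_mod_cast hn
      have hl : 0 < Real.log n := Real.log_pos (by linarith)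
      have := (c1_bounds (ξ := Real.log n - 0) hb hv' hvY').2 (by linarith)
      have e : |Real.log n - 0| = Real.log n := by rw [sub_zero, abs_of_pos hl]
      rwa [e, kk_even] at this)
  calc 100 * ∑ n ∈ Finset.Icc 1 N, (‖a n‖ * Real.exp (-(Real.log n / 2)) *
      ‖cI 1 b Y (Real.log n - 0) (-v)‖) ^ 2 * (T + n) ≤
      100 * ((T + N) * ((6 * b) ^ 2 + 12) * kk b v ^ 2) := by gcongr
    _ = _ := by ring

lemma inv_kk_cont (b : ℝ) : Continuous fun v => (kk b v)⁻¹ :=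
  (kk_cont b).inv₀ fun v => (kk_pos b v).ne'

theorem Z2_mean {N : ℕ} {a : ℕ → ℂ} (ha : ∀ n, ‖a n‖ ≤ 1) {b Y T : ℝ} (hb : 0 < b) (hY : 0 ≤ Y)
    (hT : 10 ≤ T) :
    (Continuous fun t => ∫ v in (0)..Y, ‖Fp N a b Y t v‖ ^ 2 * (kk b v)⁻¹) ∧
    ∫ t in T..(T + T), ∫ v in (0)..Y, ‖Fp N a b Y t v‖ ^ 2 * (kk b v)⁻¹ ≤
      100 * (T + N) * ((6 * b) ^ 2 + 12) * (6 * b) := by
  obtain ⟨h1, h2⟩ := en_mean (G := Fp N a b Y) (Fp_cont N a b Y) (inv_kk_cont b) (kk_cont b) hY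
    (T := T) (B := T) (M := 100 * (T + N) * ((6 * b) ^ 2 + 12)) (by
      intro v hv
      have h3 := Fp_sq (N := N) ha hb hv.1 hv.2 hT
      have h4 := kk_pos b v
      rw [inv_mul_le_iff₀ h4]
      refine h3.trans (le_of_eq ?_)
      ring)
  refine ⟨h1, h2.trans ?_⟩
  have h3 := kk_sub hb le_rfl hY
  gcongr

theorem Z3_mean {N : ℕ} {a : ℕ → ℂ} (ha : ∀ n, ‖a n‖ ≤ 1) {b Y T : ℝ} (hb : 0 < b) (hY : 0 ≤ Y)
    (hT : 10 ≤ T) :
    (Continuous fun t => ∫ v in (-Y)..0, ‖Fm N a b Y t v‖ ^ 2 * (kk b v)⁻¹) ∧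
    ∫ t in T..(T + T), ∫ v in (-Y)..0, ‖Fm N a b Y t v‖ ^ 2 * (kk b v)⁻¹ ≤
      100 * (T + N) * ((6 * b) ^ 2 + 12) * (6 * b) := by
  obtain ⟨h1, h2⟩ := en_mean (G := Fm N a b Y) (Fm_cont N a b Y) (inv_kk_cont b) (kk_cont b)
    (show -Y ≤ 0 by linarith)
    (T := T) (B := T) (M := 100 * (T + N) * ((6 * b) ^ 2 + 12)) (by
      intro v hv
      have h3 := Fm_sq (N := N) ha hb hv.2 hv.1 hT
      have h4 := kk_pos b v
      rw [inv_mul_le_iff₀ h4]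
      refine h3.trans (le_of_eq ?_)
      ring)
  refine ⟨h1, h2.trans ?_⟩
  have h3 : ∫ v in (-Y)..0, kk b v ≤ 6 * b := by
    have h4 := intervalIntegral.integral_comp_neg (a := 0) (b := Y) (fun v => kk b v)
    rw [neg_zero] at h4
    rw [← h4]
    simp only [kk_even]
    exact kk_sub hb le_rfl hY
  gcongr

theorem Z1_mean {N : ℕ} {a : ℕ → ℂ} (ha : ∀ n, ‖a n‖ ≤ 1) {b Y T : ℝ} (hb : 0 < b) (hY : 0 ≤ Y)
    (hT : 10 ≤ T) :
    (Continuous fun t => ‖Fp N a b Y t 0‖ ^ 2 + ‖Fm N a b Y t 0‖ ^ 2) ∧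
    ∫ t in T..(T + T), (‖Fp N a b Y t 0‖ ^ 2 + ‖Fm N a b Y t 0‖ ^ 2) ≤
      200 * (T + N) * ((6 * b) ^ 2 + 12) := by
  have c1 : Continuous fun t => ‖Fp N a b Y t 0‖ ^ 2 := by
    have := (Fp_cont N a b Y).comp (by fun_prop : Continuous fun t : ℝ => (t, (0 : ℝ)))
    exact (this.norm).pow 2
  have c2 : Continuous fun t => ‖Fm N a b Y t 0‖ ^ 2 := by
    have := (Fm_cont N a b Y).comp (by fun_prop : Continuous fun t : ℝ => (t, (0 : ℝ)))
    exact (this.norm).pow 2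
  refine ⟨c1.add c2, ?_⟩
  rw [intervalIntegral.integral_add (c1.intervalIntegrable _ _) (c2.intervalIntegrable _ _)]
  have h1 := Fp_sq (N := N) ha hb le_rfl hY hT
  have h2 := Fm_sq (N := N) (Y := Y) ha hb le_rfl (by linarith) hT
  have h3 : 100 * (T + N) * ((6 * b) ^ 2 + 12) * kk b 0 ^ 2 ≤
      100 * (T + N) * ((6 * b) ^ 2 + 12) * 1 := by
    have h4 : kk b 0 ^ 2 ≤ 1 := pow_le_one₀ (kk_nonneg b 0) (kk_le_one b 0)
    gcongr
  linarith

lemma c4_bound {b Y ξ : ℝ} (hb : 0 < b) (hY : 0 ≤ Y) :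
    ‖cI (3 / 4) b Y (-ξ) 0 + cI (3 / 4) b Y ξ 0‖ ^ 2 ≤ (144 * b ^ 2 + 16) * (1 + ξ ^ 2)⁻¹ := by
  have h1 : ‖cI (3 / 4) b Y (-ξ) 0 + cI (3 / 4) b Y ξ 0‖ ≤ 12 * b := by
    refine (norm_add_le _ _).trans ?_
    have a1 := cI_three (ξ := -ξ) hb le_rfl hY
    have a2 := cI_three (ξ := ξ) hb le_rfl hY
    linarith
  have h1' : ‖cI (3 / 4) b Y (-ξ) 0 + cI (3 / 4) b Y ξ 0‖ ^ 2 ≤ (12 * b) ^ 2 :=
    pow_le_pow_left₀ (norm_nonneg _) h1 2
  have h2 : ‖cI (3 / 4) b Y (-ξ) 0 + cI (3 / 4) b Y ξ 0‖ ^ 2 * ξ ^ 2 ≤ 16 := by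
    by_cases hξ : ξ = 0
    · rw [hξ]
      norm_num
    · have hx : 0 < |ξ| := abs_pos.mpr hξ
      have a1 := cI_osc (p := 3 / 4) (by norm_num) hb le_rfl hY (neg_ne_zero.mpr hξ)
      have a2 := cI_osc (p := 3 / 4) (by norm_num) hb le_rfl hY hξ
      rw [abs_neg] at a1
      have e : Real.exp (-(3 / 4 * Real.cosh (b⁻¹ * 0))) ≤ 1 := by
        rw [Real.exp_le_one_iff]
        have := Real.cosh_pos (b⁻¹ * 0)
        linarith
      have a3 : 2 * Real.exp (-(3 / 4 * Real.cosh (b⁻¹ * 0))) / |ξ| ≤ 2 / |ξ| := by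
        gcongr
        linarith
      have a4 : ‖cI (3 / 4) b Y (-ξ) 0 + cI (3 / 4) b Y ξ 0‖ ≤ 4 / |ξ| := by
        refine (norm_add_le _ _).trans ?_
        have : 4 / |ξ| = 2 / |ξ| + 2 / |ξ| := by ring
        linarith
      rw [le_div_iff₀ hx] at a4
      rw [← sq_abs ξ, ← mul_pow]
      calc (‖cI (3 / 4) b Y (-ξ) 0 + cI (3 / 4) b Y ξ 0‖ * |ξ|) ^ 2 ≤ 4 ^ 2 :=
            pow_le_pow_left₀ (by positivity) a4 2
        _ = 16 := by norm_num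
  rw [← div_eq_mul_inv, le_div_iff₀ (by positivity)]
  linarith

/-- the density of the frequencies of the polynomial -/
noncomputable def wN (N : ℕ) (η : ℝ) : ℝ :=
  ∑ n ∈ Finset.Icc 1 N, (1 / (n : ℝ)) * (1 + (η - Real.log n) ^ 2)⁻¹

lemma wN_cont (N : ℕ) : Continuous (wN N) := by
  unfold wN
  apply continuous_finsetSum
  intro n _
  apply Continuous.mul continuous_const
  apply Continuous.inv₀ (by fun_prop)
  intro η
  positivity

lemma wN_int (N : ℕ) (B₀ : ℝ) : ∫ η in (-B₀)..B₀, wN N η ≤ 4 * (1 + Real.log N) := by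
  unfold wN
  have hc : ∀ n : ℕ, Continuous fun η : ℝ => (1 + (η - Real.log n) ^ 2)⁻¹ := by
    intro n
    apply Continuous.inv₀ (by fun_prop)
    intro η
    positivity
  rw [intervalIntegral.integral_finsetSum]
  · have h1 : ∀ n ∈ Finset.Icc 1 N, ∫ η in (-B₀)..B₀, (1 / (n : ℝ)) * (1 + (η - Real.log n) ^ 2)⁻¹ ≤
        4 * (1 / (n : ℝ)) := by
      intro n _
      rw [intervalIntegral.integral_const_mul, mul_comm]
      apply mul_le_mul_of_nonneg_right _ (by positivity)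
      rw [intervalIntegral.integral_comp_sub_right (fun η : ℝ => (1 + η ^ 2)⁻¹), integral_inv_one_add_sq]
      have h2 := Real.arctan_lt_pi_div_two (B₀ - Real.log n)
      have h3 := Real.neg_pi_div_two_lt_arctan (-B₀ - Real.log n)
      have h4 := Real.pi_lt_d2
      linarith
    refine (Finset.sum_le_sum h1).trans ?_
    rw [← Finset.mul_sum]
    have := sum_inv_le N
    gcongr
  · intro n _
    exact ((hc n).const_mul _).intervalIntegrable _ _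

theorem Z4_mean {N : ℕ} {a : ℕ → ℂ} (ha : ∀ n, ‖a n‖ ≤ 1) {b Y T B₀ : ℝ} (hb : 0 < b) (hY : 0 ≤ Y)
    (hT : 10 ≤ T) (hB : 0 ≤ B₀) :
    (Continuous fun t => ∫ η in (-B₀)..B₀, ‖Rq N a b Y t η‖ ^ 2) ∧
    ∫ t in T..(T + T), ∫ η in (-B₀)..B₀, ‖Rq N a b Y t η‖ ^ 2 ≤
      100 * (T + N) * (144 * b ^ 2 + 16) * (4 * (1 + Real.log N)) := by
  obtain ⟨h1, h2⟩ := en_mean (G := Rq N a b Y) (Rq_cont N a b Y) (ρ := fun _ => 1) (w := wN N)
    continuous_const (wN_cont N) (show -B₀ ≤ B₀ by linarith)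
    (T := T) (B := T) (M := 100 * (T + N) * (144 * b ^ 2 + 16)) (by
      intro η _
      rw [one_mul]
      refine (DS_mean _ (fun m hm => (Finset.mem_Icc.mp hm).1) a _ η T hT).trans ?_
      have hterm : ∀ n ∈ Finset.Icc 1 N, (‖a n‖ * Real.exp (-(Real.log n / 2)) *
          ‖cI (3 / 4) b Y (Real.log n - η) 0 + cI (3 / 4) b Y (η - Real.log n) 0‖) ^ 2 * (T + n) ≤
          (T + N) * (144 * b ^ 2 + 16) * ((1 / (n : ℝ)) * (1 + (η - Real.log n) ^ 2)⁻¹) := by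
        intro n hn
        obtain ⟨hn1, hn2⟩ := Finset.mem_Icc.mp hn
        have hn2' : (n : ℝ) ≤ N := by exact_mod_cast hn2
        rw [mul_pow, mul_pow, exp_half_sq hn1]
        have h3 : ‖a n‖ ^ 2 ≤ 1 := pow_le_one₀ (norm_nonneg _) (ha n)
        have h4 := c4_bound (ξ := η - Real.log n) hb hY
        rw [neg_sub] at h4
        calc ‖a n‖ ^ 2 * (1 / n) * ‖cI (3 / 4) b Y (Real.log n - η) 0 +
            cI (3 / 4) b Y (η - Real.log n) 0‖ ^ 2 * (T + n) ≤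
            1 * (1 / n) * ((144 * b ^ 2 + 16) * (1 + (η - Real.log n) ^ 2)⁻¹) * (T + N) := by
              gcongr
          _ = _ := by ring
      refine (mul_le_mul_of_nonneg_left (Finset.sum_le_sum hterm) (by norm_num)).trans
        (le_of_eq ?_)
      unfold wN
      rw [← Finset.mul_sum]
      ring)
  simp only [mul_one] at h1 h2
  refine ⟨h1, h2.trans ?_⟩
  have h3 := wN_int N B₀
  gcongr

/-- the transform of the windowed polynomial -/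
lemma RR_eq (N : ℕ) (a : ℕ → ℂ) (b t η : ℝ) {Y : ℝ} (hY : 0 ≤ Y) :
    RR Y (fun x => PP (Finset.Icc 1 N) a (-(⟨0, t + x⟩ : ℂ)) *
      ((Real.exp (-(3 / 4 * Real.cosh (b⁻¹ * x))) : ℝ) : ℂ)) η = Rq N a b Y t η := by
  unfold RR
  have hc : Continuous fun x : ℝ => cexp (I * ((η * x : ℝ) : ℂ)) *
      (PP (Finset.Icc 1 N) a (-(⟨0, t + x⟩ : ℂ)) *
      ((Real.exp (-(3 / 4 * Real.cosh (b⁻¹ * x))) : ℝ) : ℂ)) := by
    have h1 := (PM_cont (Finset.Icc 1 N) a).comp (continuous_const.add continuous_id :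
      Continuous fun x : ℝ => t + x)
    have := Real.continuous_cosh
    apply Continuous.mul (by fun_prop)
    exact h1.mul (by fun_prop)
  rw [← intervalIntegral.integral_add_adjacent_intervals (b := 0) (hc.intervalIntegrable _ _)
    (hc.intervalIntegrable _ _), part_neg, part_eq]
  unfold Rq DS
  rw [← Finset.sum_add_distrib]
  apply Finset.sum_congr rfl
  intro n _
  simp only [neg_zero]
  ring

lemma Fp_eq (N : ℕ) (a : ℕ → ℂ) (b Y t v : ℝ) :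
    ∫ x in v..Y, PP (Finset.Icc 1 N) a (-(⟨0, t + x⟩ : ℂ)) *
      ((Real.exp (-(1 * Real.cosh (b⁻¹ * x))) : ℝ) : ℂ) = Fp N a b Y t v := by
  have h := part_eq (Finset.Icc 1 N) a 1 b Y 0 t v
  unfold Fp
  rw [← h]
  congr 1
  funext x
  have e : cexp (I * ((0 * x : ℝ) : ℂ)) = 1 := by
    rw [zero_mul, Complex.ofReal_zero, mul_zero, Complex.exp_zero]
  rw [e, one_mul (_ * _)]

lemma Fm_eq (N : ℕ) (a : ℕ → ℂ) (b Y t v : ℝ) :
    ∫ x in (-Y)..v, PP (Finset.Icc 1 N) a (-(⟨0, t + x⟩ : ℂ)) *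
      ((Real.exp (-(1 * Real.cosh (b⁻¹ * x))) : ℝ) : ℂ) = Fm N a b Y t v := by
  have h := part_neg (Finset.Icc 1 N) a 1 b Y 0 t v
  unfold Fm
  rw [← h]
  congr 1
  funext x
  have e : cexp (I * ((0 * x : ℝ) : ℂ)) = 1 := by
    rw [zero_mul, Complex.ofReal_zero, mul_zero, Complex.exp_zero]
  rw [e, one_mul (_ * _)]

end Pool.Agent.T9h53.AJ
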