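import Pool.Agent.T9h53.AJ.Qe

/-! # From the spacings to the positions -/

set_option autoImplicit false

open Complex Filter Topology Set

namespace Pool.Agent.T9h53.AJ

open Pool.Agent.T9h53.SZ Pool.Agent.T9h53.EQ Pool.Agent.T9h53.AH

lemma NearP_mono {β W W' ρ ρ' κ κ' t : ℝ} (hW : W ≤ W') (hρ : ρ' ≤ ρ) (hκ : κ' ≤ κ)
    (h : NearP β W' ρ' κ' t) : NearP β W ρ κ t := by
  obtain ⟨φ, m, h1, h2, h3⟩ := h
  refine ⟨φ, m, fun x y => ?_, fun j j1 j2 j3 => ?_, fun j j1 j2 j3 => ?_⟩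
  · exact (h1 x y).trans (mul_le_mul_of_nonneg_right hκ (abs_nonneg _))
  · exact (h2 j j1 (by linarith) (by linarith)).trans hρ
  · exact h3 j j1 (by linarith) (by linarith)

/-- partial sums of rounded spacings -/
theorem nearP_of_nearH {β W δ t ℓ : ℝ} (hℓ : 0 < ℓ) (hδ0 : 0 ≤ δ) (hδ : δ ≤ 1 / 4)
    (hWt : 0 < t - W)
    (hs : ∀ p q, t - W - 1 ≤ p → p ≤ q → q ≤ t + W + 1 →
      ℓ / 13 * (q - p) ≤ xb β q - xb β p ∧ xb β q - xb β p ≤ ℓ * (q - p))
    (h : NearH β W δ t) : NearP β W 0 (8 * δ * ℓ) t := by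
  classical
  obtain ⟨j₀, n₀, hj₀, hwin, hmem⟩ := idx (W := W) (t := t) hWt
  set o : ℕ → ℝ := _root_.SG.ord with ho
  have hmono : ∀ j, j₀ ≤ j → j < n₀ → o j ≤ o (j + 1) := fun j h1 _ =>
    _root_.SG.ord_mono (by omega) (Nat.le_succ j)
  have hk : ∀ j, j₀ ≤ j → j < n₀ → ∃ k : ℕ, 1 ≤ k ∧ |xb β (o (j + 1)) - xb β (o j) - k / 2| < δ :=
    fun j h1 h2 => h j (by omega) (hwin j h1 h2.le).1 (hwin (j + 1) (by omega) (by omega)).2
  have hgap := lat_gap hℓ hδ hs hmono hwin hk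
  have hk' : ∀ j : ℕ, ∃ k : ℕ, 1 ≤ k ∧ (j₀ ≤ j → j < n₀ →
      |xb β (o (j + 1)) - xb β (o j) - k / 2| < δ) := by
    intro j
    by_cases hj : j₀ ≤ j ∧ j < n₀
    · obtain ⟨k, k1, k2⟩ := hk j hj.1 hj.2
      exact ⟨k, k1, fun _ _ => k2⟩
    · exact ⟨1, le_rfl, fun h1 h2 => absurd ⟨h1, h2⟩ hj⟩
  choose k hk1 hk2 using hk'
  set m : ℕ → ℤ := fun j => ∑ i ∈ Finset.Ico j₀ j, (k i : ℤ) with hm
  have hmsucc : ∀ j, j₀ ≤ j → m (j + 1) = m j + k j := by
    intro j hj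
    rw [hm]
    simp only
    rw [Finset.sum_Ico_succ_top hj]
  set f₀ : ℕ → ℝ := fun j => 2 * xb β (o j) - m j with hf₀
  have hstep : ∀ i j, j₀ ≤ i → i ≤ j → j ≤ n₀ → |f₀ j - f₀ i| ≤ 2 * δ * ((j : ℝ) - i) := by
    intro i j hi hij
    induction j, hij using Nat.le_induction with
    | base => intro _; simp
    | succ j hij ih =>
      intro hj
      have h1 := ih (by omega)
      have h2 := hk2 j (by omega) (by omega)
      have e1 : f₀ (j + 1) - f₀ i = 2 * (xb β (o (j + 1)) - xb β (o j) - k j / 2) +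
          (f₀ j - f₀ i) := by
        rw [hf₀]
        simp only
        rw [hmsucc j (by omega)]
        push_cast
        ring
      rw [e1]
      refine (abs_add_le _ _).trans ?_
      rw [abs_mul, abs_two]
      push_cast
      linarith
  have hlip : ∀ i j, i ∈ Set.Icc j₀ n₀ → j ∈ Set.Icc j₀ n₀ →
      |f₀ i - f₀ j| ≤ 8 * δ * ℓ * |o i - o j| := by
    have key : ∀ i j, i ∈ Set.Icc j₀ n₀ → j ∈ Set.Icc j₀ n₀ → i ≤ j →
        |f₀ j - f₀ i| ≤ 8 * δ * ℓ * |o j - o i| := by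
      intro i j hi hj hij
      have h1 := hstep i j hi.1 hij hj.2
      have h2 := hgap i j hi.1 hij hj.2
      rw [div_le_iff₀ (by positivity)] at h2
      have h3 := le_abs_self (o j - o i)
      refine h1.trans ?_
      calc 2 * δ * ((j : ℝ) - i) ≤ 2 * δ * ((o j - o i) * (4 * ℓ)) := by gcongr
        _ ≤ 2 * δ * (|o j - o i| * (4 * ℓ)) := by gcongr
        _ = _ := by ring
    intro i j hi hj
    rcases le_total i j with hij | hij
    · have := key i j hi hj hij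
      rwa [abs_sub_comm, abs_sub_comm (o i)]
    · exact key j i hj hi hij
  have hoinj : Set.InjOn o (Set.Icc j₀ n₀) := by
    intro i hi j hj hij
    have key : ∀ i j : ℕ, i ∈ Set.Icc j₀ n₀ → j ∈ Set.Icc j₀ n₀ → o i = o j → i ≤ j → i = j := by
      intro i j hi hj hij hle
      have h1 := hgap i j hi.1 hle hj.2
      rw [hij, sub_self, div_le_iff₀ (by positivity), zero_mul] at h1
      have h2 : (j : ℝ) ≤ i := by linarith
      have h3 : j ≤ i := by exact_mod_cast h2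
      omega
    rcases le_total i j with h | h
    · exact key i j hi hj hij h
    · exact (key j i hj hi hij.symm h).symm
  set g : ℝ → ℕ := Function.invFunOn o (Set.Icc j₀ n₀) with hg
  have hgo : ∀ j, j ∈ Set.Icc j₀ n₀ → g (o j) = j := fun j hj => hoinj.leftInvOn_invFunOn hj
  have hK : 0 ≤ 8 * δ * ℓ := by positivity
  have hL : LipschitzOnWith ⟨8 * δ * ℓ, hK⟩ (fun y => f₀ (g y)) (o '' Set.Icc j₀ n₀) := by
    apply LipschitzOnWith.of_dist_le_mul
    rintro x ⟨i, hi, rfl⟩ y ⟨j, hj, rfl⟩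
    have h1 := hlip i j hi hj
    have h2 : dist (f₀ (g (o i))) (f₀ (g (o j))) ≤ 8 * δ * ℓ * dist (o i) (o j) := by
      rw [hgo i hi, hgo j hj, Real.dist_eq, Real.dist_eq]
      exact h1
    exact h2
  obtain ⟨φ, hφ1, hφ2⟩ := hL.extend_real
  refine ⟨φ, m, ?_, ?_, ?_⟩
  · intro x y
    have := hφ1.dist_le_mul x y
    rwa [Real.dist_eq, Real.dist_eq] at this
  · intro j j1 j2 j3
    obtain ⟨k1, k2⟩ := hmem j j1 j2 j3
    have h1 : φ (o j) = f₀ (g (o j)) := (hφ2 ⟨j, ⟨k1, k2⟩, rfl⟩).symm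
    rw [hgo j ⟨k1, k2⟩, hf₀] at h1
    simp only at h1
    have h2 : 2 * xb β (_root_.SG.ord j) - (2 * xb β (_root_.SG.ord j) - m j) - m j = 0 := by
      ring
    rw [h1]
    have h3 : |2 * xb β (_root_.SG.ord j) - (2 * xb β (_root_.SG.ord j) - m j) - m j| ≤ 0 := by
      rw [h2, abs_zero]
    exact h3
  · intro j j1 j2 j3
    have hmo := _root_.SG.ord_mono j1 (Nat.le_succ j)
    obtain ⟨k1, k2⟩ := hmem j j1 j2 (by linarith)
    rw [hmsucc j k1]
    have := hk1 j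
    omega

end Pool.Agent.T9h53.AJ
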