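import Pool.Agent.T9h53.AJ.Pa
import Pool.Agent.T9h53.AJ.Gram

/-! # Sums over separated points -/

set_option autoImplicit false

open Complex Filter Topology Set MeasureTheory

namespace Pool.Agent.T9h53.AJ

open Pool.Agent.T9h53.AH

section
variable {j₀ n₀ : ℕ} {o : ℕ → ℝ} {h : ℝ}

lemma sep_dist (hsep : ∀ i j, j₀ ≤ i → i ≤ j → j ≤ n₀ → ((j : ℝ) - i) * h ≤ o j - o i)
    {i j : ℕ} (hi : i ∈ Finset.Icc j₀ n₀) (hj : j ∈ Finset.Icc j₀ n₀) :
    ((Nat.dist i j : ℕ) : ℝ) * h ≤ |o j - o i| := by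
  rw [Finset.mem_Icc] at hi hj
  rcases le_total i j with hij | hij
  · rw [Nat.dist_eq_sub_of_le hij, Nat.cast_sub hij]
    exact (hsep i j hi.1 hij hj.2).trans (le_abs_self _)
  · rw [Nat.dist_eq_sub_of_le_right hij, Nat.cast_sub hij, abs_sub_comm]
    exact (hsep j i hj.1 hij hi.2).trans (le_abs_self _)

lemma dist_sum (f : ℕ → ℝ) (hf : ∀ k, 0 ≤ f k) {i : ℕ} (hi : i ∈ Finset.Icc j₀ n₀) :
    ∑ j ∈ Finset.Icc j₀ n₀, f (Nat.dist i j) ≤ 2 * ∑ k ∈ Finset.range (n₀ - j₀ + 1), f k := by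
  rw [Finset.mem_Icc] at hi
  rw [← Finset.sum_filter_add_sum_filter_not _ (fun j => i ≤ j), two_mul]
  apply add_le_add
  · apply inj_sum _ (fun j => Nat.dist i j) _ _ _ f hf
    · intro a ha b hb hab
      simp only [Finset.coe_filter, Finset.mem_Icc, Set.mem_ofPred_eq] at ha hb
      simp only [Nat.dist_eq_sub_of_le ha.2, Nat.dist_eq_sub_of_le hb.2] at hab
      omega
    · intro a ha
      simp only [Finset.mem_filter, Finset.mem_Icc] at ha
      rw [Nat.dist_eq_sub_of_le ha.2]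
      omega
  · apply inj_sum _ (fun j => Nat.dist i j) _ _ _ f hf
    · intro a ha b hb hab
      simp only [Finset.coe_filter, Finset.mem_Icc, Set.mem_ofPred_eq, not_le] at ha hb
      simp only [Nat.dist_eq_sub_of_le_right ha.2.le, Nat.dist_eq_sub_of_le_right hb.2.le] at hab
      omega
    · intro a ha
      simp only [Finset.mem_filter, Finset.mem_Icc, not_le] at ha
      rw [Nat.dist_eq_sub_of_le_right ha.2.le]
      omega

lemma dist_sum_erase (f : ℕ → ℝ) (hf : ∀ k, 0 ≤ f k) {i : ℕ} (hi : i ∈ Finset.Icc j₀ n₀) :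
    ∑ j ∈ (Finset.Icc j₀ n₀).erase i, f (Nat.dist i j) ≤
      2 * ∑ k ∈ Finset.range (n₀ - j₀ + 1), f (k + 1) := by
  have h1 := dist_sum (j₀ := j₀) (n₀ := n₀) (fun k => if k = 0 then 0 else f k) (by
    intro k
    split_ifs
    · exact le_rfl
    · exact hf k) hi
  have h2 : ∑ j ∈ (Finset.Icc j₀ n₀).erase i, f (Nat.dist i j) =
      ∑ j ∈ Finset.Icc j₀ n₀, (fun k => if k = 0 then 0 else f k) (Nat.dist i j) := by
    rw [← Finset.add_sum_erase _ _ hi]
    simp only [Nat.dist_self, if_true, zero_add]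
    apply Finset.sum_congr rfl
    intro j hj
    have hne : Nat.dist i j ≠ 0 := by
      intro h0
      exact (Finset.ne_of_mem_erase hj) (Nat.eq_of_dist_eq_zero h0).symm
    rw [if_neg hne]
  rw [h2]
  refine h1.trans ?_
  apply mul_le_mul_of_nonneg_left _ (by norm_num)
  rw [Finset.sum_range_succ']
  simp only [if_true, add_zero]
  rw [Finset.sum_range_succ]
  have h3 : ∑ k ∈ Finset.range (n₀ - j₀), (if k + 1 = 0 then 0 else f (k + 1)) =
      ∑ k ∈ Finset.range (n₀ - j₀), f (k + 1) :=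
    Finset.sum_congr rfl fun k _ => if_neg (Nat.succ_ne_zero k)
  rw [h3]
  have := hf (n₀ - j₀ + 1)
  linarith

/-- the rows of the Gram matrix -/
theorem row_sum (hh : 0 < h)
    (hsep : ∀ i j, j₀ ≤ i → i ≤ j → j ≤ n₀ → ((j : ℝ) - i) * h ≤ o j - o i)
    {Λ K ε : ℝ} (hΛ : 0 < Λ) (hK : 0 ≤ K) (hε : 0 ≤ ε)
    (hs : ∀ i ∈ Finset.Icc j₀ n₀, ∀ j ∈ Finset.Icc j₀ n₀,
      |Real.sin (Λ * (o i - o j))| ≤ K * |o i - o j| + ε) {i : ℕ} (hi : i ∈ Finset.Icc j₀ n₀) :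
    ∑ j ∈ (Finset.Icc j₀ n₀).erase i, ‖SS Λ (I * ((o i - o j : ℝ) : ℂ))‖ ≤
      8 * K * (1 + 4 / h) + 8 * ε / h * (1 + Real.log ((n₀ - j₀ + 1 : ℕ) : ℝ)) := by
  set f : ℕ → ℝ := fun k => 4 * K * (1 / (1 + (h / 2) ^ 2 * (k : ℝ) ^ 2)) + 4 * ε / h * (1 / (k : ℝ))
    with hf
  have hf0 : ∀ k, 0 ≤ f k := fun k => by rw [hf]; positivity
  have h1 : ∀ j ∈ (Finset.Icc j₀ n₀).erase i, ‖SS Λ (I * ((o i - o j : ℝ) : ℂ))‖ ≤
      f (Nat.dist i j) := by
    intro j hj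
    have hj1 := Finset.mem_of_mem_erase hj
    have hne := Finset.ne_of_mem_erase hj
    have hd := sep_dist hsep hj1 hi
    rw [Nat.dist_comm] at hd
    have hk1 : (1 : ℝ) ≤ ((Nat.dist i j : ℕ) : ℝ) := by
      have : 1 ≤ Nat.dist i j := by
        rcases Nat.eq_zero_or_pos (Nat.dist i j) with h0 | h0
        · exact absurd (Nat.eq_of_dist_eq_zero h0).symm hne
        · exact h0
      exact_mod_cast this
    set k : ℝ := ((Nat.dist i j : ℕ) : ℝ) with hk
    set x := o i - o j with hx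
    have hx0 : 0 < |x| := lt_of_lt_of_le (by positivity) hd
    have h2 := SS_axis hΛ x
    have h3 := hs i hi j hj1
    rw [← hx] at h3
    have hden : 0 < 4 + x ^ 2 := by positivity
    have h4 : ‖SS Λ (I * (x : ℂ))‖ ≤ 16 * (K * |x| + ε) / (4 + x ^ 2) / |x| := by
      rw [le_div_iff₀ hx0, mul_comm]
      refine h2.trans ?_
      gcongr
    have h5 : 16 * (K * |x| + ε) / (4 + x ^ 2) / |x| =
        16 * K / (4 + x ^ 2) + 16 * ε / ((4 + x ^ 2) * |x|) := by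
      field_simp
    have hxk : (k * h) ^ 2 ≤ x ^ 2 := by
      rw [← sq_abs x]
      exact pow_le_pow_left₀ (by positivity) hd 2
    have h6 : 16 * K / (4 + x ^ 2) ≤ 4 * K * (1 / (1 + (h / 2) ^ 2 * k ^ 2)) := by
      have e1 : 4 * K * (1 / (1 + (h / 2) ^ 2 * k ^ 2)) = 16 * K / (4 + (k * h) ^ 2) := by
        field_simp
        ring
      rw [e1]
      gcongr
    have h7 : 16 * ε / ((4 + x ^ 2) * |x|) ≤ 4 * ε / h * (1 / k) := by
      have e1 : 4 * ε / h * (1 / k) = 16 * ε / (4 * (k * h)) := by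
        field_simp
        ring
      rw [e1]
      gcongr
      nlinarith [sq_nonneg x]
    rw [h5] at h4
    calc _ ≤ _ := h4
      _ ≤ _ := add_le_add h6 h7
  refine (Finset.sum_le_sum h1).trans ?_
  refine (dist_sum_erase f hf0 hi).trans ?_
  set N := n₀ - j₀ + 1 with hN
  have h2 : ∑ k ∈ Finset.range N, f (k + 1) = 4 * K * ∑ k ∈ Finset.range N,
      1 / (1 + (h / 2) ^ 2 * ((k + 1 : ℕ) : ℝ) ^ 2) +
      4 * ε / h * ∑ k ∈ Finset.range N, 1 / ((k : ℝ) + 1) := by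
    rw [hf, Finset.mul_sum, Finset.mul_sum, ← Finset.sum_add_distrib]
    apply Finset.sum_congr rfl
    intro k _
    push_cast
    ring
  have h3 : ∑ k ∈ Finset.range N, 1 / (1 + (h / 2) ^ 2 * ((k + 1 : ℕ) : ℝ) ^ 2) ≤ 1 + 4 / h := by
    have h4 := cauchy_sum (c := h / 2) (by positivity) (N + 1)
    rw [Finset.sum_range_succ'] at h4
    have e : 2 / (h / 2) = 4 / h := by
      field_simp
      norm_num
    rw [e] at h4
    have h5 : (0 : ℝ) ≤ 1 / (1 + (h / 2) ^ 2 * ((0 : ℕ) : ℝ) ^ 2) := by positivity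
    linarith
  have h4 : ∑ k ∈ Finset.range N, (1 : ℝ) / ((k : ℝ) + 1) ≤ 1 + Real.log N := by
    have h := harmonic_le_one_add_log N
    refine le_trans (le_of_eq ?_) h
    unfold harmonic
    push_cast
    apply Finset.sum_congr rfl
    intro k _
    rw [one_div]
  rw [h2]
  have h5 : 0 ≤ 4 * ε / h := by positivity
  calc 2 * (4 * K * ∑ k ∈ Finset.range N, 1 / (1 + (h / 2) ^ 2 * ((k + 1 : ℕ) : ℝ) ^ 2) +
      4 * ε / h * ∑ k ∈ Finset.range N, 1 / ((k : ℝ) + 1)) ≤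
      2 * (4 * K * (1 + 4 / h) + 4 * ε / h * (1 + Real.log N)) := by gcongr
    _ = _ := by ring

/-- sums around a point -/
theorem near_sum (hh : 0 < h)
    (hsep : ∀ i j, j₀ ≤ i → i ≤ j → j ≤ n₀ → ((j : ℝ) - i) * h ≤ o j - o i) {c : ℝ} (hc : 0 < c)
    (t : ℝ) :
    ∑ j ∈ Finset.Icc j₀ n₀, 1 / (1 + c ^ 2 * (o j - t) ^ 2) ≤ 2 * (1 + 4 / (c * h)) := by
  rcases (Finset.Icc j₀ n₀).eq_empty_or_nonempty with he | hne
  · rw [he, Finset.sum_empty]
    positivity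
  obtain ⟨s, hs, hmin⟩ := (Finset.Icc j₀ n₀).exists_min_image (fun j => |t - o j|) hne
  have h1 : ∀ j ∈ Finset.Icc j₀ n₀, 1 / (1 + c ^ 2 * (o j - t) ^ 2) ≤
      (fun k : ℕ => 1 / (1 + (c * h / 2) ^ 2 * (k : ℝ) ^ 2)) (Nat.dist s j) := by
    intro j hj
    have hd := sep_dist hsep hs hj
    have h2 : |o j - o s| ≤ |t - o j| + |t - o s| := by
      have : o j - o s = (t - o s) - (t - o j) := by ring
      rw [this]
      exact (abs_sub _ _).trans (le_of_eq (add_comm _ _))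
    have h3 := hmin j hj
    have h4 : ((Nat.dist s j : ℕ) : ℝ) * h / 2 ≤ |o j - t| := by
      rw [abs_sub_comm (o j) t]
      linarith
    have h5 : (((Nat.dist s j : ℕ) : ℝ) * h / 2) ^ 2 ≤ (o j - t) ^ 2 := by
      rw [← sq_abs (o j - t)]
      exact pow_le_pow_left₀ (by positivity) h4 2
    simp only
    apply one_div_le_one_div_of_le (by positivity)
    have e : (c * h / 2) ^ 2 * ((Nat.dist s j : ℕ) : ℝ) ^ 2 =
        c ^ 2 * (((Nat.dist s j : ℕ) : ℝ) * h / 2) ^ 2 := by ring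
    rw [e]
    gcongr
  refine (Finset.sum_le_sum h1).trans ?_
  refine (dist_sum (fun k : ℕ => 1 / (1 + (c * h / 2) ^ 2 * (k : ℝ) ^ 2)) (fun k => by positivity)
    hs).trans ?_
  have h2 := cauchy_sum (c := c * h / 2) (by positivity) (n₀ - j₀ + 1)
  have e : 2 / (c * h / 2) = 4 / (c * h) := by
    field_simp
    norm_num
  rw [e] at h2
  linarith

end

end Pool.Agent.T9h53.AJ
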