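import Pool.Agent.T9h53.AJ.Cu
import Pool.Agent.T9h53.AJ.Sp
import Pool.Agent.T9h53.AJ.Kb

/-! # Positions close to a slowly varying lattice -/

set_option autoImplicit false

open Complex Filter Topology Set

namespace Pool.Agent.T9h53.AJ

open Pool.Agent.T9h53.SZ Pool.Agent.T9h53.EQ Pool.Agent.T9h53.AH

/-- the ordinates in the window are within `ρ` of a slowly varying shift of distinct integers -/
def NearP (β W ρ κ t : ℝ) : Prop := ∃ (φ : ℝ → ℝ) (m : ℕ → ℤ),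
  (∀ x y, |φ x - φ y| ≤ κ * |x - y|) ∧
  (∀ j : ℕ, 1 ≤ j → t - W ≤ _root_.SG.ord j → _root_.SG.ord j ≤ t + W →
    |2 * xb β (_root_.SG.ord j) - φ (_root_.SG.ord j) - m j| ≤ ρ) ∧
  (∀ j : ℕ, 1 ≤ j → t - W ≤ _root_.SG.ord j → _root_.SG.ord (j + 1) ≤ t + W → m j < m (j + 1))

/-- the defining property with explicit data -/
structure NPd (β W ρ κ t : ℝ) (φ : ℝ → ℝ) (m : ℕ → ℤ) : Prop where
  lip : ∀ x y, |φ x - φ y| ≤ κ * |x - y|
  pos : ∀ j : ℕ, 1 ≤ j → t - W ≤ _root_.SG.ord j → _root_.SG.ord j ≤ t + W →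
    |2 * xb β (_root_.SG.ord j) - φ (_root_.SG.ord j) - m j| ≤ ρ
  mono : ∀ j : ℕ, 1 ≤ j → t - W ≤ _root_.SG.ord j → _root_.SG.ord (j + 1) ≤ t + W → m j < m (j + 1)

section
variable {β W ρ κ t : ℝ} {φ : ℝ → ℝ} {m : ℕ → ℤ}

lemma no_jumpP (hρ : ρ ≤ 1 / 8) (h : NPd β W ρ κ t φ m) {y : ℝ} (hy0 : 0 < y)
    (hy : |y - t| ≤ W) (hj : ∀ t', t' < y → _root_.SG.NZ t' + 2 ≤ _root_.SG.NZ y) : False := by
  obtain ⟨n, hn, h1, h2⟩ := _root_.SG.consecutive_of_jump hy0 hj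
  have h3 := _root_.SG.ord_mono hn (Nat.le_succ n)
  obtain ⟨a1, a2⟩ := abs_le.mp hy
  have e1 : _root_.SG.ord (n + 1) = _root_.SG.ord n := le_antisymm (by linarith) h3
  have h4 := h.mono n hn (by linarith) (by linarith)
  have h5 := abs_le.mp (h.pos n hn (by linarith) (by linarith))
  have h6 := abs_le.mp (h.pos (n + 1) (by omega) (by linarith) (by linarith))
  rw [e1] at h6
  have h7 : (m n : ℝ) + 1 ≤ m (n + 1) := by exact_mod_cast h4
  linarith [h5.1, h5.2, h6.1, h6.2]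

lemma zero_simpleP (hρ : ρ ≤ 1 / 8) (h : NPd β W ρ κ t φ m) {s : ℂ}
    (h0 : riemannZeta s = 0) (h1 : 0 < s.re) (h2 : s.re < 1) (h3 : 1 ≤ s.im) (hst : |s.im - t| ≤ W) :
    s.re = 1 / 2 ∧ _root_.SG.zmult s ≤ 1 := by
  have h30 : 0 < s.im := by linarith
  constructor
  · by_contra hc
    have h4 := _root_.SG.zero_reflect h0 h1 h2 h3
    set s' := 1 - (starRingEnd ℂ) s with hs'
    have e1 : s'.re = 1 - s.re := by simp [hs']
    have e2 : s'.im = s.im := by simp [hs']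
    have hne : s ≠ s' := by
      intro h5
      have := congrArg Complex.re h5
      rw [e1] at this
      apply hc
      linarith
    exact no_jumpP hρ h h30 hst fun t' ht' =>
      _root_.SG.jump_two h0 h1 h2 h30 h4 (by rw [e1]; linarith) (by rw [e1]; linarith) e2 hne t' ht'
  · by_contra hc
    push Not at hc
    refine no_jumpP hρ h h30 hst fun t' ht' => ?_
    have := _root_.SG.jump_one h0 h1 h2 h30 t' ht'
    omega

/-- separation -/
lemma sepP {ℓ : ℝ} {j₀ n₀ : ℕ} (hℓ : 0 < ℓ) (hρ : ρ ≤ 1 / 8) (hκ0 : 0 ≤ κ) (hκ : κ ≤ ℓ / 4)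
    (h : NPd β W ρ κ t φ m) (hj₀ : 1 ≤ j₀)
    (hs : ∀ p q, t - W - 1 ≤ p → p ≤ q → q ≤ t + W + 1 →
      ℓ / 13 * (q - p) ≤ xb β q - xb β p ∧ xb β q - xb β p ≤ ℓ * (q - p))
    (hwin : ∀ j, j₀ ≤ j → j ≤ n₀ → t - W ≤ _root_.SG.ord j ∧ _root_.SG.ord j ≤ t + W) :
    ∀ i j, j₀ ≤ i → i ≤ j → j ≤ n₀ →
      ((j : ℝ) - i) * (1 / (5 * ℓ)) ≤ _root_.SG.ord j - _root_.SG.ord i := by
  intro i j hi hij
  induction j, hij using Nat.le_induction with
  | base => intro _; simp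
  | succ j hij ih =>
    intro hj
    have h1 := ih (by omega)
    have w1 := hwin j (by omega) (by omega)
    have w2 := hwin (j + 1) (by omega) (by omega)
    have hmono := _root_.SG.ord_mono (show 1 ≤ j by omega) (Nat.le_succ j)
    have h2 := h.mono j (by omega) w1.1 w2.2
    have h3 := abs_le.mp (h.pos j (by omega) w1.1 w1.2)
    have h4 := abs_le.mp (h.pos (j + 1) (by omega) w2.1 w2.2)
    have h5 : (m j : ℝ) + 1 ≤ m (j + 1) := by exact_mod_cast h2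
    have h6 := abs_le.mp (h.lip (_root_.SG.ord (j + 1)) (_root_.SG.ord j))
    rw [abs_of_nonneg (show 0 ≤ _root_.SG.ord (j + 1) - _root_.SG.ord j by linarith)] at h6
    have h7 := (hs (_root_.SG.ord j) (_root_.SG.ord (j + 1)) (by linarith) hmono (by linarith)).2
    set Δ := _root_.SG.ord (j + 1) - _root_.SG.ord j with hΔ
    have hΔ0 : 0 ≤ Δ := by linarith
    have h8 : κ * Δ ≤ ℓ / 4 * Δ := mul_le_mul_of_nonneg_right hκ hΔ0
    have h9 : 3 / 4 ≤ 2 * (ℓ * Δ) + ℓ / 4 * Δ := by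
      linarith [h3.1, h3.2, h4.1, h4.2, h6.1, h6.2]
    have h10 : 1 * (1 / (5 * ℓ)) ≤ Δ := by
      rw [one_mul, div_le_iff₀ (by positivity)]
      nlinarith
    push_cast
    have e : ((j : ℝ) + 1 - i) * (1 / (5 * ℓ)) = ((j : ℝ) - i) * (1 / (5 * ℓ)) +
        1 * (1 / (5 * ℓ)) := by ring
    rw [e]
    linarith

/-- the sine condition -/
lemma sinP {T : ℝ} {j₀ n₀ : ℕ} (hT0 : 0 < T) (hW0 : 0 ≤ W) (hWT : W ≤ T / 4) (ht1 : T ≤ t)
    (hWκ : 2 * W / T ≤ κ / 2) (hκ0 : 0 ≤ κ)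
    (h : NPd β W ρ κ t φ m) (hj₀ : 1 ≤ j₀)
    (hwin : ∀ j, j₀ ≤ j → j ≤ n₀ → t - W ≤ _root_.SG.ord j ∧ _root_.SG.ord j ≤ t + W) :
    ∀ i ∈ Finset.Icc j₀ n₀, ∀ j ∈ Finset.Icc j₀ n₀,
      |Real.sin ((Real.log t + 1 + 2 * Real.pi * β) * (_root_.SG.ord i - _root_.SG.ord j))| ≤
        4 * κ * |_root_.SG.ord i - _root_.SG.ord j| + 7 * ρ := by
  intro i hi j hj
  rw [Finset.mem_Icc] at hi hj
  have wi := hwin i hi.1 hi.2
  have wj := hwin j hj.1 hj.2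
  have hf := freq (β := β) hT0 hW0 hWT ht1 wi.1 wi.2 wj.1 wj.2
  have h3 := h.pos i (by omega) wi.1 wi.2
  have h4 := h.pos j (by omega) wj.1 wj.2
  have h6 := h.lip (_root_.SG.ord i) (_root_.SG.ord j)
  set p := _root_.SG.ord i with hp
  set q := _root_.SG.ord j with hq
  set Λ := Real.log t + 1 + 2 * Real.pi * β with hΛ
  set r := Λ * (p - q) - ((m i - m j : ℤ) : ℝ) * Real.pi with hr
  have hpi := Real.pi_pos
  have hpi2 := Real.pi_lt_d2
  have hρ0 : 0 ≤ ρ := (abs_nonneg _).trans h3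
  have e1 : r = (Λ * (p - q) - 2 * Real.pi * (xb β p - xb β q)) +
      Real.pi * ((φ p - φ q) + ((2 * xb β p - φ p - m i) - (2 * xb β q - φ q - m j))) := by
    rw [hr]
    push_cast
    ring
  have h7 : |r| ≤ 4 * κ * |p - q| + 7 * ρ := by
    rw [e1]
    refine (abs_add_le _ _).trans ?_
    rw [abs_mul, abs_of_pos hpi]
    have h8 : |(φ p - φ q) + ((2 * xb β p - φ p - m i) - (2 * xb β q - φ q - m j))| ≤
        κ * |p - q| + (ρ + ρ) := by
      refine (abs_add_le _ _).trans (add_le_add h6 ?_)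
      exact (abs_sub _ _).trans (add_le_add h3 h4)
    have hpq := abs_nonneg (p - q)
    have h9 : 2 * W / T * |p - q| ≤ κ / 2 * |p - q| := mul_le_mul_of_nonneg_right hWκ hpq
    have h10 : Real.pi * |(φ p - φ q) + ((2 * xb β p - φ p - m i) - (2 * xb β q - φ q - m j))| ≤
        3.15 * (κ * |p - q| + (ρ + ρ)) :=
      mul_le_mul hpi2.le h8 (abs_nonneg _) (by norm_num)
    have h11 : 0 ≤ κ * |p - q| := mul_nonneg hκ0 hpq
    linarith
  have e2 : Λ * (p - q) = r + ((m i - m j : ℤ) : ℝ) * Real.pi := by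
    rw [hr]
    ring
  rw [e2, Real.sin_add_int_mul_pi]
  refine le_trans (le_of_eq ?_) ((Real.abs_sin_le_abs).trans h7)
  rw [abs_mul, abs_zpow, abs_neg, abs_one, one_zpow, one_mul]

end

/-- close exponentials -/
lemma exp_close (x y : ℝ) : ‖cexp (((x : ℝ) : ℂ) * I) - cexp (((y : ℝ) : ℂ) * I)‖ ≤ |x - y| := by
  have e : cexp (((x : ℝ) : ℂ) * I) - cexp (((y : ℝ) : ℂ) * I) =
      cexp (((y : ℝ) : ℂ) * I) * (cexp (I * ((x - y : ℝ) : ℂ)) - 1) := by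
    rw [mul_sub, mul_one, ← Complex.exp_add]
    congr 2
    push_cast
    ring
  rw [e, norm_mul, Complex.norm_exp_ofReal_mul_I, one_mul]
  have := Real.norm_exp_I_mul_ofReal_sub_one_le (x := x - y)
  rwa [Real.norm_eq_abs] at this

end Pool.Agent.T9h53.AJ
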