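import Pool.Agent.T9h53.AJ.Pa
import Pool.Agent.T9h53.AJ.Gram

/-! # The band limited interpolation and its Fourier representation -/

set_option autoImplicit false

open Complex Filter Topology Set MeasureTheory

namespace Pool.Agent.T9h53.AJ

/-- the measure on the cube -/
noncomputable def mu1 : Measure ℝ := volume.restrict (Ioc (-1) 1)

/-- product measure -/
noncomputable def mu3 : Measure (ℝ × ℝ × ℝ) := mu1.prod (mu1.prod mu1)

instance : IsFiniteMeasure mu1 := by unfold mu1; infer_instance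

instance : IsFiniteMeasure mu3 := by unfold mu3; infer_instance

/-- the frequency -/
noncomputable def et (Λ : ℝ) (p : ℝ × ℝ × ℝ) : ℝ := Λ * p.1 + (p.2.1 + p.2.2) / 2

lemma et_cont (Λ : ℝ) : Continuous (et Λ) := by unfold et; fun_prop

lemma mu3_eq : mu3 = (volume : Measure (ℝ × ℝ × ℝ)).restrict
    (Ioc (-1) 1 ×ˢ (Ioc (-1) 1 ×ˢ Ioc (-1) 1)) := by
  unfold mu3 mu1
  rw [Measure.prod_restrict, Measure.prod_restrict]
  rfl

lemma mu3_int {E : Type*} [NormedAddCommGroup E] {f : ℝ × ℝ × ℝ → E} (hf : Continuous f) :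
    Integrable f mu3 := by
  rw [mu3_eq]
  have h1 : IntegrableOn f (Icc (-1) 1 ×ˢ (Icc (-1) 1 ×ˢ Icc (-1) 1)) volume :=
    hf.continuousOn.integrableOn_compact (isCompact_Icc.prod (isCompact_Icc.prod isCompact_Icc))
  exact h1.mono_set (prod_mono Ioc_subset_Icc_self (prod_mono Ioc_subset_Icc_self
    Ioc_subset_Icc_self))

lemma sh_mu1 (z : ℂ) : ∫ x, cexp ((x : ℂ) * z) ∂mu1 = sh z := by
  unfold mu1 sh
  rw [intervalIntegral.integral_of_le (by norm_num)]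

lemma om_exp (Λ : ℝ) (w : ℂ) :
    ∫ p, cexp ((et Λ p : ℂ) * w) ∂mu3 = sh (Λ * w) * (sh (w / 2) * sh (w / 2)) := by
  unfold mu3
  have e : (fun p : ℝ × ℝ × ℝ => cexp ((et Λ p : ℂ) * w)) =
      fun p : ℝ × ℝ × ℝ => (fun x : ℝ => cexp ((x : ℂ) * (Λ * w))) p.1 *
        (fun q : ℝ × ℝ => (fun x : ℝ => cexp ((x : ℂ) * (w / 2))) q.1 *
          (fun x : ℝ => cexp ((x : ℂ) * (w / 2))) q.2) p.2 := by
    funext p
    simp only
    rw [← Complex.exp_add, ← Complex.exp_add]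
    congr 1
    unfold et
    push_cast
    ring
  rw [e, integral_prod_mul (fun x : ℝ => cexp ((x : ℂ) * (Λ * w)))
    (fun q : ℝ × ℝ => (fun x : ℝ => cexp ((x : ℂ) * (w / 2))) q.1 *
      (fun x : ℝ => cexp ((x : ℂ) * (w / 2))) q.2),
    integral_prod_mul (fun x : ℝ => cexp ((x : ℂ) * (w / 2)))
      (fun x : ℝ => cexp ((x : ℂ) * (w / 2))), sh_mu1, sh_mu1]

lemma SS_eq (Λ : ℝ) (w : ℂ) :
    SS Λ w = ((Λ / 4 : ℝ) : ℂ) * ∫ p, cexp ((et Λ p : ℂ) * w) ∂mu3 := by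
  rw [om_exp]
  rfl

variable {ι : Type*} [Fintype ι]

/-- the trigonometric sum of the coefficients -/
noncomputable def EE (Λ : ℝ) (d : ι → ℂ) (x : ι → ℝ) (p : ℝ × ℝ × ℝ) : ℂ :=
  ∑ j, d j * cexp (-((et Λ p : ℂ) * (I * x j)))

lemma EE_cont (Λ : ℝ) (d : ι → ℂ) (x : ι → ℝ) : Continuous (EE Λ d x) := by
  unfold EE
  have := et_cont Λ
  fun_prop

/-- the interpolating function -/
noncomputable def Hb (Λ : ℝ) (d : ι → ℂ) (x : ι → ℝ) (z : ℂ) : ℂ := ∑ j, d j * SS Λ (z - I * x j)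

lemma Hb_diff (Λ : ℝ) (d : ι → ℂ) (x : ι → ℝ) (z : ℂ) : DifferentiableAt ℂ (Hb Λ d x) z := by
  unfold Hb
  apply DifferentiableAt.fun_sum
  intro j _
  apply DifferentiableAt.const_mul
  exact DifferentiableAt.comp z (g := SS Λ) (f := fun w => w - I * x j) (SS_diff Λ _) (by fun_prop)

lemma Hb_eq (Λ : ℝ) (d : ι → ℂ) (x : ι → ℝ) (z : ℂ) :
    Hb Λ d x z = ((Λ / 4 : ℝ) : ℂ) * ∫ p, EE Λ d x p * cexp ((et Λ p : ℂ) * z) ∂mu3 := by
  unfold Hb EE
  have e : (fun p : ℝ × ℝ × ℝ => (∑ j, d j * cexp (-((et Λ p : ℂ) * (I * x j)))) *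
      cexp ((et Λ p : ℂ) * z)) =
      fun p => ∑ j, d j * cexp ((et Λ p : ℂ) * (z - I * x j)) := by
    funext p
    rw [Finset.sum_mul]
    apply Finset.sum_congr rfl
    intro j _
    rw [mul_assoc, ← Complex.exp_add]
    congr 2
    ring
  rw [e, integral_finsetSum]
  · rw [Finset.mul_sum]
    apply Finset.sum_congr rfl
    intro j _
    rw [integral_const_mul, SS_eq]
    ring
  · intro j _
    apply mu3_int
    have := et_cont Λ
    fun_prop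

/-- the energy of the coefficients -/
noncomputable def Aq (Λ : ℝ) (d : ι → ℂ) (x : ι → ℝ) : ℝ :=
  Λ / 4 * ∫ p, ‖EE Λ d x p‖ ^ 2 ∂mu3

lemma Aq_eq (Λ : ℝ) (d : ι → ℂ) (x : ι → ℝ) :
    ((Aq Λ d x : ℝ) : ℂ) = ∑ i, (starRingEnd ℂ) (d i) * ∑ j, SS Λ (I * ((x i - x j : ℝ) : ℂ)) * d j := by
  unfold Aq
  rw [Complex.ofReal_mul, ← integral_complex_ofReal]
  have e : (fun p : ℝ × ℝ × ℝ => ((‖EE Λ d x p‖ ^ 2 : ℝ) : ℂ)) = fun p => ∑ i, ∑ j,
      ((starRingEnd ℂ) (d i) * d j) * cexp ((et Λ p : ℂ) * (I * ((x i - x j : ℝ) : ℂ))) := by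
    funext p
    have h1 := Complex.conj_mul' (EE Λ d x p)
    push_cast
    rw [← h1]
    unfold EE
    rw [map_sum, Finset.sum_mul_sum]
    apply Finset.sum_congr rfl
    intro i _
    apply Finset.sum_congr rfl
    intro j _
    rw [map_mul, ← Complex.exp_conj]
    have e2 : (starRingEnd ℂ) (-((et Λ p : ℂ) * (I * x i))) = (et Λ p : ℂ) * (I * x i) := by
      rw [map_neg, map_mul, map_mul, conj_I, conj_ofReal, conj_ofReal]
      ring
    rw [e2]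
    have e3 : cexp ((et Λ p : ℂ) * (I * x i)) * cexp (-((et Λ p : ℂ) * (I * x j))) =
        cexp ((et Λ p : ℂ) * (I * (((x i : ℝ) : ℂ) - ((x j : ℝ) : ℂ)))) := by
      rw [← Complex.exp_add]
      congr 1
      ring
    rw [← e3]
    ring
  rw [e]
  have hint : ∀ i j : ι, Integrable (fun p : ℝ × ℝ × ℝ => ((starRingEnd ℂ) (d i) * d j) *
      cexp ((et Λ p : ℂ) * (I * ((x i - x j : ℝ) : ℂ)))) mu3 := by
    intro i j
    apply mu3_int
    have := et_cont Λ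
    fun_prop
  rw [integral_finsetSum _ fun i _ => integrable_finsetSum _ fun j _ => hint i j,
    Finset.mul_sum]
  apply Finset.sum_congr rfl
  intro i _
  rw [integral_finsetSum _ fun j _ => hint i j, Finset.mul_sum, Finset.mul_sum]
  apply Finset.sum_congr rfl
  intro j _
  rw [integral_const_mul, SS_eq]
  push_cast
  ring

lemma Aq_nonneg {Λ : ℝ} (hΛ : 0 < Λ) (d : ι → ℂ) (x : ι → ℝ) : 0 ≤ Aq Λ d x := by
  unfold Aq
  have : 0 ≤ ∫ p, ‖EE Λ d x p‖ ^ 2 ∂mu3 := integral_nonneg fun p => by positivity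
  positivity

/-- products of two functions on the cube -/
lemma cs_mu3 {Λ : ℝ} (hΛ : 0 < Λ) {f g : ℝ × ℝ × ℝ → ℂ} (hf : Continuous f) (hg : Continuous g)
    {s : ℝ} (hs : 0 < s) :
    ‖((Λ / 4 : ℝ) : ℂ) * ∫ p, f p * g p ∂mu3‖ ≤ s / 2 * (Λ / 4 * ∫ p, ‖f p‖ ^ 2 ∂mu3) +
      1 / (2 * s) * (Λ / 4 * ∫ p, ‖g p‖ ^ 2 ∂mu3) := by
  rw [norm_mul, Complex.norm_real, Real.norm_eq_abs, abs_of_pos (by positivity)]
  have h1 : ‖∫ p, f p * g p ∂mu3‖ ≤ ∫ p, (s / 2 * ‖f p‖ ^ 2 + 1 / (2 * s) * ‖g p‖ ^ 2) ∂mu3 := by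
    refine (norm_integral_le_integral_norm _).trans ?_
    apply integral_mono (mu3_int (hf.mul hg)).norm
    · apply mu3_int
      fun_prop
    · intro p
      show ‖f p * g p‖ ≤ _
      rw [norm_mul]
      have h2 : s / 2 * ‖f p‖ ^ 2 + 1 / (2 * s) * ‖g p‖ ^ 2 - ‖f p‖ * ‖g p‖ =
          (s * ‖f p‖ - ‖g p‖) ^ 2 / (2 * s) := by
        field_simp
        ring
      have h3 : 0 ≤ (s * ‖f p‖ - ‖g p‖) ^ 2 / (2 * s) := by positivity
      linarith
  rw [integral_add (mu3_int (by fun_prop)) (mu3_int (by fun_prop)), integral_const_mul,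
    integral_const_mul] at h1
  calc Λ / 4 * ‖∫ p, f p * g p ∂mu3‖ ≤ Λ / 4 * (s / 2 * ∫ p, ‖f p‖ ^ 2 ∂mu3 +
      1 / (2 * s) * ∫ p, ‖g p‖ ^ 2 ∂mu3) := by gcongr
    _ = _ := by ring

/-- the size of the interpolating function -/
theorem Hb_le {Λ : ℝ} (hΛ : 0 < Λ) (d : ι → ℂ) (x : ι → ℝ) (z : ℂ) {s : ℝ} (hs : 0 < s) :
    ‖Hb Λ d x z‖ ≤ s / 2 * Aq Λ d x + 1 / (2 * s) * ‖SS Λ ((2 * z.re : ℝ) : ℂ)‖ := by
  rw [Hb_eq]
  have hg : Continuous fun p : ℝ × ℝ × ℝ => cexp ((et Λ p : ℂ) * z) := by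
    have := et_cont Λ
    fun_prop
  refine (cs_mu3 hΛ (EE_cont Λ d x) hg hs).trans ?_
  apply add_le_add le_rfl
  apply mul_le_mul_of_nonneg_left _ (by positivity)
  have h1 : ((Λ / 4 * ∫ p, ‖cexp ((et Λ p : ℂ) * z)‖ ^ 2 ∂mu3 : ℝ) : ℂ) =
      SS Λ ((2 * z.re : ℝ) : ℂ) := by
    rw [SS_eq]
    push_cast
    congr 1
    rw [← integral_complex_ofReal]
    congr 1
    funext p
    push_cast
    rw [← Complex.ofReal_pow, Complex.norm_exp, ← Real.exp_nat_mul]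
    push_cast
    congr 1
    simp
    ring
  have h2 := congrArg norm h1
  rw [Complex.norm_real] at h2
  rw [← h2]
  exact le_abs_self _

end Pool.Agent.T9h53.AJ
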