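import Pool.Agent.T9h53.AH.Fin2

/-! # Integrals of entire functions depending on a parameter -/

set_option autoImplicit false

open Complex Filter Topology Set MeasureTheory

namespace Pool.Agent.T9h53.AJ

lemma param_diff {A B : ℝ} {F F' : ℂ → ℝ → ℂ} (hF : ∀ z, Continuous (F z))
    (hF' : Continuous (Function.uncurry F'))
    (hd : ∀ z u, HasDerivAt (fun w => F w u) (F' z u) z) (z : ℂ) :
    DifferentiableAt ℂ (fun w => ∫ u in A..B, F w u) z := by
  have hK : IsCompact (Metric.closedBall z 1 ×ˢ uIcc A B) :=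
    (isCompact_closedBall z 1).prod isCompact_uIcc
  obtain ⟨M, hM⟩ := hK.exists_bound_of_continuousOn (f := Function.uncurry F') hF'.continuousOn
  have h := intervalIntegral.hasDerivAt_integral_of_dominated_loc_of_deriv_le (μ := volume)
    (a := A) (b := B) (F := F) (F' := F') (x₀ := z) (s := Metric.closedBall z 1)
    (bound := fun _ => M) (Metric.closedBall_mem_nhds z one_pos)
    (Eventually.of_forall fun w => (hF w).aestronglyMeasurable)
    ((hF z).intervalIntegrable _ _)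
    ((hF'.comp (by fun_prop : Continuous fun u : ℝ => (z, u))).aestronglyMeasurable)
    (Eventually.of_forall fun u hu w hw => hM (w, u) ⟨hw, uIoc_subset_uIcc hu⟩)
    intervalIntegrable_const
    (Eventually.of_forall fun u _ w _ => hd w u)
  exact h.2.differentiableAt

/-- `∫_{-1}^1 e^{xz} dx` -/
noncomputable def sh (z : ℂ) : ℂ := ∫ x in (-1 : ℝ)..1, cexp ((x : ℂ) * z)

lemma sh_diff (z : ℂ) : DifferentiableAt ℂ sh z := by
  apply param_diff (F := fun w x => cexp ((x : ℂ) * w))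
    (F' := fun w x => cexp ((x : ℂ) * w) * (x : ℂ))
  · intro w; fun_prop
  · simp only [Function.uncurry_def]
    fun_prop
  · intro w x
    have h := ((hasDerivAt_id w).const_mul (x : ℂ)).cexp
    simpa using h

lemma sh_le (z : ℂ) : ‖sh z‖ ≤ 2 * Real.exp |z.re| := by
  unfold sh
  have h := intervalIntegral.norm_integral_le_of_norm_le_const (a := (-1 : ℝ)) (b := 1)
    (C := Real.exp |z.re|) (f := fun x : ℝ => cexp ((x : ℂ) * z)) (by
      intro x hx
      rw [uIoc_of_le (by norm_num)] at hx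
      rw [Complex.norm_exp]
      apply Real.exp_le_exp.mpr
      rw [re_ofReal_mul]
      have h1 : |x| ≤ 1 := abs_le.mpr ⟨hx.1.le, hx.2⟩
      calc x * z.re ≤ |x * z.re| := le_abs_self _
        _ = |x| * |z.re| := abs_mul _ _
        _ ≤ 1 * |z.re| := by gcongr
        _ = |z.re| := one_mul _)
  refine h.trans (le_of_eq ?_)
  norm_num
  ring

lemma sh_mul (z : ℂ) : z * sh z = cexp z - cexp (-z) := by
  unfold sh
  by_cases hz : z = 0
  · rw [hz]; simp
  · have h := integral_exp_mul_complex (a := -1) (b := 1) hz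
    have e : (fun x : ℝ => cexp ((x : ℂ) * z)) = fun x : ℝ => cexp (z * x) := by
      funext x; rw [mul_comm]
    rw [e, h]
    push_cast
    field_simp

/-- decay on the imaginary axis -/
lemma sh_axis (x : ℝ) : |x| * ‖sh (I * x)‖ ≤ 2 * |Real.sin x| := by
  have h := sh_mul (I * x)
  have e : cexp (I * x) - cexp (-(I * x)) = 2 * I * ((Real.sin x : ℝ) : ℂ) := by
    rw [Complex.ofReal_sin, Complex.sin]
    have : I * (x : ℂ) = x * I := mul_comm _ _
    rw [this]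
    ring_nf
    rw [I_sq]
    ring
  rw [e] at h
  have h2 := congrArg norm h
  rw [norm_mul, norm_mul, norm_mul, norm_mul, norm_I, one_mul, Complex.norm_real,
    Complex.norm_real, Real.norm_eq_abs, Real.norm_eq_abs] at h2
  rw [h2]
  simp

lemma sh_axis2 (x : ℝ) : ‖sh (I * x)‖ ≤ 2 := by
  have := sh_le (I * x)
  simpa using this

lemma sh_zero : sh 0 = 2 := by
  unfold sh
  simp
  norm_num

lemma sh_neg (z : ℂ) : sh (-z) = sh z := by
  by_cases hz : z = 0
  · rw [hz, neg_zero]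
  · have h1 := sh_mul z
    have h2 := sh_mul (-z)
    rw [neg_neg] at h2
    have h3 : z * sh (-z) = z * sh z := by
      rw [h1]
      linear_combination -h2
    exact mul_left_cancel₀ hz h3

/-- the band limited kernel -/
noncomputable def SS (Λ : ℝ) (z : ℂ) : ℂ := ((Λ / 4 : ℝ) : ℂ) * (sh (Λ * z) * (sh (z / 2) * sh (z / 2)))

lemma SS_diff (Λ : ℝ) (z : ℂ) : DifferentiableAt ℂ (SS Λ) z := by
  unfold SS
  have h1 : DifferentiableAt ℂ (fun w : ℂ => sh ((Λ : ℂ) * w)) z :=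
    DifferentiableAt.comp z (sh_diff _) (by fun_prop)
  have h2 : DifferentiableAt ℂ (fun w : ℂ => sh (w / 2)) z :=
    DifferentiableAt.comp z (sh_diff _) (by fun_prop)
  exact (h1.mul (h2.mul h2)).const_mul _

lemma SS_zero (Λ : ℝ) : SS Λ 0 = ((2 * Λ : ℝ) : ℂ) := by
  unfold SS
  rw [mul_zero, zero_div, sh_zero]
  push_cast
  ring

lemma SS_neg (Λ : ℝ) (z : ℂ) : SS Λ (-z) = SS Λ z := by
  unfold SS
  rw [mul_neg, neg_div, sh_neg, sh_neg]

lemma SS_real {Λ : ℝ} (hΛ : 0 < Λ) (x : ℝ) : ‖SS Λ x‖ ≤ 2 * Λ * Real.exp ((Λ + 1) * |x|) := by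
  unfold SS
  rw [norm_mul, norm_mul, norm_mul, Complex.norm_real, Real.norm_eq_abs, abs_of_pos (by positivity)]
  have h1 := sh_le ((Λ : ℂ) * x)
  have h2 := sh_le ((x : ℂ) / 2)
  have e1 : ((Λ : ℂ) * x).re = Λ * x := by simp
  have e2 : ((x : ℂ) / 2).re = x / 2 := by simp
  rw [e1, abs_mul, abs_of_pos hΛ] at h1
  rw [e2, abs_div, abs_two] at h2
  calc Λ / 4 * (‖sh (Λ * x)‖ * (‖sh ((x : ℂ) / 2)‖ * ‖sh ((x : ℂ) / 2)‖)) ≤
      Λ / 4 * ((2 * Real.exp (Λ * |x|)) * ((2 * Real.exp (|x| / 2)) * (2 * Real.exp (|x| / 2)))) := by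
        gcongr
    _ = 2 * Λ * (Real.exp (Λ * |x|) * (Real.exp (|x| / 2) * Real.exp (|x| / 2))) := by ring
    _ = _ := by
      rw [← Real.exp_add, ← Real.exp_add]
      congr 2
      ring

/-- the better bound away from zero -/
lemma SS_real2 {Λ : ℝ} (hΛ : 0 < Λ) {x : ℝ} (hx : x = 2 ∨ x = -2) :
    ‖SS Λ x‖ ≤ Real.exp (2 * (Λ + 1)) := by
  unfold SS
  rw [norm_mul, norm_mul, norm_mul, Complex.norm_real, Real.norm_eq_abs, abs_of_pos (by positivity)]
  have h1 := sh_mul ((Λ : ℂ) * x)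
  have h2 := sh_le ((x : ℂ) / 2)
  have hx2 : |x| = 2 := by rcases hx with h | h <;> rw [h] <;> norm_num
  have e2 : ((x : ℂ) / 2).re = x / 2 := by simp
  rw [e2, abs_div, abs_two, hx2, div_self (two_ne_zero)] at h2
  have h3 : (2 * Λ) * ‖sh ((Λ : ℂ) * x)‖ ≤ 2 * Real.exp (2 * Λ) := by
    have h4 := congrArg norm h1
    rw [norm_mul, norm_mul, Complex.norm_real, Complex.norm_real, Real.norm_eq_abs,
      Real.norm_eq_abs, hx2, abs_of_pos hΛ] at h4
    have h5 := norm_sub_le (cexp ((Λ : ℂ) * x)) (cexp (-((Λ : ℂ) * x)))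
    rw [Complex.norm_exp, Complex.norm_exp] at h5
    have e3 : ((Λ : ℂ) * x).re = Λ * x := by simp
    rw [neg_re, e3] at h5
    have h6 : Λ * x ≤ 2 * Λ := by
      have := le_abs_self x
      nlinarith
    have h7 : -(Λ * x) ≤ 2 * Λ := by
      have := neg_abs_le x
      nlinarith
    have h8 := Real.exp_le_exp.mpr h6
    have h9 := Real.exp_le_exp.mpr h7
    linarith
  have hs0 := norm_nonneg (sh ((x : ℂ) / 2))
  calc Λ / 4 * (‖sh (Λ * x)‖ * (‖sh ((x : ℂ) / 2)‖ * ‖sh ((x : ℂ) / 2)‖)) =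
      (1 / 8) * (((2 * Λ) * ‖sh ((Λ : ℂ) * x)‖) * (‖sh ((x : ℂ) / 2)‖ * ‖sh ((x : ℂ) / 2)‖)) := by ring
    _ ≤ (1 / 8) * ((2 * Real.exp (2 * Λ)) * ((2 * Real.exp 1) * (2 * Real.exp 1))) := by
        gcongr
    _ = Real.exp (2 * Λ) * (Real.exp 1 * Real.exp 1) := by ring
    _ = _ := by
      rw [← Real.exp_add, ← Real.exp_add]
      congr 1
      ring

lemma SS_axis {Λ : ℝ} (hΛ : 0 < Λ) (x : ℝ) :
    |x| * ‖SS Λ (I * x)‖ ≤ 16 * |Real.sin (Λ * x)| / (4 + x ^ 2) := by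
  unfold SS
  rw [norm_mul, norm_mul, norm_mul, Complex.norm_real, Real.norm_eq_abs, abs_of_pos (show 0 < Λ / 4 by positivity)]
  have e1 : (Λ : ℂ) * (I * x) = I * ((Λ * x : ℝ) : ℂ) := by push_cast; ring
  have e2 : (I * (x : ℂ)) / 2 = I * ((x / 2 : ℝ) : ℂ) := by push_cast; ring
  rw [e1, e2]
  have h1 := sh_axis (Λ * x)
  have h2 := sh_axis (x / 2)
  have h3 := sh_axis2 (x / 2)
  rw [abs_mul, abs_of_pos hΛ] at h1
  rw [abs_div, abs_two] at h2
  set A := ‖sh (I * ((Λ * x : ℝ) : ℂ))‖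
  set B := ‖sh (I * ((x / 2 : ℝ) : ℂ))‖
  have hA : 0 ≤ A := norm_nonneg _
  have hB : 0 ≤ B := norm_nonneg _
  have h4 : |Real.sin (x / 2)| ≤ 1 := Real.abs_sin_le_one _
  have h5 : B * B * (4 + x ^ 2) ≤ 32 := by
    have h6 : (|x| * B) ^ 2 ≤ 4 ^ 2 := by
      apply pow_le_pow_left₀ (by positivity)
      linarith
    have h7 : B ^ 2 ≤ 4 := by nlinarith
    have h8 : (|x| * B) ^ 2 = x ^ 2 * B ^ 2 := by rw [mul_pow, sq_abs]
    nlinarith
  have hden : 0 < 4 + x ^ 2 := by positivity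
  rw [le_div_iff₀ hden]
  have h9 : |x| * (Λ / 4 * (A * (B * B))) * (4 + x ^ 2) = (1 / 4) * (Λ * |x| * A) * (B * B * (4 + x ^ 2)) := by
    ring
  rw [h9]
  calc (1 / 4) * (Λ * |x| * A) * (B * B * (4 + x ^ 2)) ≤ (1 / 4) * (2 * |Real.sin (Λ * x)|) * 32 := by
        gcongr
    _ = _ := by ring

end Pool.Agent.T9h53.AJ
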