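import Pool.Agent.T9h53.AJ.Np
import Pool.Agent.T9h53.SZ.Quot

/-! # The quotient -/

set_option autoImplicit false

open Complex Filter Topology Set

namespace Pool.Agent.T9h53.AJ

open Pool.Agent.T9h53.SZ Pool.Agent.T9h53.EQ Pool.Agent.T9h53.AH

section
variable {j₀ n₀ : ℕ} {o : ℕ → ℝ} {h t : ℝ}

theorem interp (hh : 0 < h)
    (hsep : ∀ i j, j₀ ≤ i → i ≤ j → j ≤ n₀ → ((j : ℝ) - i) * h ≤ o j - o i)
    {Λ K ε : ℝ} (hΛ : 0 < Λ) (hK : 0 ≤ K) (hε : 0 ≤ ε)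
    (hs : ∀ i ∈ Finset.Icc j₀ n₀, ∀ j ∈ Finset.Icc j₀ n₀,
      |Real.sin (Λ * (o i - o j))| ≤ K * |o i - o j| + ε)
    (hrow : 8 * K * (1 + 4 / h) + 8 * ε / h * (1 + Real.log ((n₀ - j₀ + 1 : ℕ) : ℝ)) ≤ Λ)
    (w : ↥(Finset.Icc j₀ n₀) → ℂ) : ∃ d : ↥(Finset.Icc j₀ n₀) → ℂ,
    (∀ i : ↥(Finset.Icc j₀ n₀), Hb Λ d (fun j : ↥(Finset.Icc j₀ n₀) => o j - t)
      (I * ((o i - t : ℝ) : ℂ)) = w i) ∧
    Aq Λ d (fun j : ↥(Finset.Icc j₀ n₀) => o j - t) ≤ (∑ i, ‖w i‖ ^ 2) / Λ := by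
  classical
  set G : ↥(Finset.Icc j₀ n₀) → ↥(Finset.Icc j₀ n₀) → ℂ := fun i j =>
    SS Λ (I * ((o i - o j : ℝ) : ℂ)) with hG
  have hdiag : ∀ i, G i i = ((2 * Λ : ℝ) : ℂ) := by
    intro i
    rw [hG]
    simp only
    rw [sub_self, Complex.ofReal_zero, mul_zero, SS_zero]
  have hrow2 : ∀ i, ∑ j ∈ Finset.univ.erase i, ‖G i j‖ ≤ Λ := by
    intro i
    have h1 := row_sum hh hsep hΛ hK hε hs i.2
    have e1 : ∑ j ∈ Finset.univ.erase i, ‖G i j‖ =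
        ∑ j ∈ (Finset.Icc j₀ n₀).erase ↑i, ‖SS Λ (I * ((o i - o j : ℝ) : ℂ))‖ := by
      rw [Finset.sum_erase_eq_sub (Finset.mem_univ i), Finset.sum_erase_eq_sub i.2]
      congr 1
      exact Finset.sum_coe_sort (Finset.Icc j₀ n₀)
        (fun j => ‖SS Λ (I * ((o i - o j : ℝ) : ℂ))‖)
    rw [e1]
    exact h1.trans hrow
  have hsym : ∀ i j, ‖G i j‖ = ‖G j i‖ := by
    intro i j
    rw [hG]
    simp only
    rw [← SS_neg]
    congr 2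
    push_cast
    ring
  obtain ⟨d, hd1, hd2⟩ := gram G hΛ hdiag hrow2 hsym w
  refine ⟨d, ?_, ?_⟩
  · intro i
    rw [← hd1 i]
    unfold Hb
    apply Finset.sum_congr rfl
    intro j _
    rw [mul_comm, hG]
    simp only
    congr 2
    push_cast
    ring
  · have h1 := Aq_eq Λ d (fun j : ↥(Finset.Icc j₀ n₀) => o j - t)
    have h2 := Aq_nonneg hΛ d (fun j : ↥(Finset.Icc j₀ n₀) => o j - t)
    have e2 : ∑ i, (starRingEnd ℂ) (d i) * ∑ j : ↥(Finset.Icc j₀ n₀),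
        SS Λ (I * (((o i - t) - (o j - t) : ℝ) : ℂ)) * d j =
        ∑ i, (starRingEnd ℂ) (d i) * ∑ j, G i j * d j := by
      apply Finset.sum_congr rfl
      intro i _
      congr 1
      apply Finset.sum_congr rfl
      intro j _
      rw [hG]
      simp only
      congr 3
      ring
    rw [e2] at h1
    have h3 := congrArg norm h1
    rw [Complex.norm_real, Real.norm_of_nonneg h2] at h3
    rw [h3]
    exact hd2

lemma exp_cosh_le (s : ℝ) : Real.exp (-(Real.cosh s / 2)) ≤ 5 * (1 / (1 + s ^ 2)) := by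
  have h1 := sq_le_cosh s
  have h2 := Real.one_le_cosh s
  have h3 := Real.add_one_le_exp (Real.cosh s / 2 - 1)
  have h4 : Real.cosh s ≤ Real.exp (Real.cosh s / 2) := by
    have h5 : Real.exp (Real.cosh s / 2) = Real.exp 1 * Real.exp (Real.cosh s / 2 - 1) := by
      rw [← Real.exp_add]
      congr 1
      ring
    rw [h5]
    have h6 := Real.exp_one_gt_d9
    nlinarith
  have h5 : 0 < Real.cosh s := Real.cosh_pos s
  rw [Real.exp_neg, mul_one_div, inv_le_comm₀ (Real.exp_pos _) (by positivity), inv_div]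
  refine le_trans ?_ h4
  rw [div_le_iff₀ (by norm_num)]
  linarith

lemma wsum {ℓ b E : ℝ} (hℓ : 1 ≤ ℓ) (hb : 1 ≤ b)
    (hsep : ∀ i j, j₀ ≤ i → i ≤ j → j ≤ n₀ → ((j : ℝ) - i) * (1 / (5 * ℓ)) ≤ o j - o i)
    {w : ↥(Finset.Icc j₀ n₀) → ℂ}
    (hw : ∀ i : ↥(Finset.Icc j₀ n₀), ‖w i‖ ≤ E * Real.exp (-(Real.cosh (b⁻¹ * (o i - t)) / 4))) :
    ∑ i, ‖w i‖ ^ 2 ≤ 210 * (b * ℓ) * E ^ 2 := by
  have hb0 : 0 < b := by linarith
  have hℓ0 : 0 < ℓ := by linarith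
  have h1 : ∀ i : ↥(Finset.Icc j₀ n₀), ‖w i‖ ^ 2 ≤
      5 * E ^ 2 * (1 / (1 + (b⁻¹) ^ 2 * (o i - t) ^ 2)) := by
    intro i
    have h2 : ‖w i‖ ^ 2 ≤ (E * Real.exp (-(Real.cosh (b⁻¹ * (o i - t)) / 4))) ^ 2 :=
      pow_le_pow_left₀ (norm_nonneg _) (hw i) 2
    refine h2.trans ?_
    rw [mul_pow, ← Real.exp_nat_mul]
    have e1 : ((2 : ℕ) : ℝ) * -(Real.cosh (b⁻¹ * (o i - t)) / 4) =
        -(Real.cosh (b⁻¹ * (o i - t)) / 2) := by
      push_cast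
      ring
    rw [e1, ← mul_pow]
    have h3 := exp_cosh_le (b⁻¹ * (o i - t))
    calc E ^ 2 * Real.exp (-(Real.cosh (b⁻¹ * (o i - t)) / 2)) ≤
        E ^ 2 * (5 * (1 / (1 + (b⁻¹ * (o i - t)) ^ 2))) := by gcongr
      _ = _ := by ring
  refine (Finset.sum_le_sum fun i _ => h1 i).trans ?_
  rw [← Finset.mul_sum, Finset.sum_coe_sort (Finset.Icc j₀ n₀)
    (fun j => 1 / (1 + (b⁻¹) ^ 2 * (o j - t) ^ 2))]
  have h2 := near_sum (h := 1 / (5 * ℓ)) (by positivity) hsep (inv_pos.mpr hb0) t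
  have e2 : 4 / (b⁻¹ * (1 / (5 * ℓ))) = 20 * (b * ℓ) := by
    field_simp
    norm_num
  rw [e2] at h2
  have h3 : 1 ≤ b * ℓ := one_le_mul_of_one_le_of_one_le hb hℓ
  calc 5 * E ^ 2 * ∑ j ∈ Finset.Icc j₀ n₀, 1 / (1 + (b⁻¹) ^ 2 * (o j - t) ^ 2) ≤
      5 * E ^ 2 * (2 * (1 + 20 * (b * ℓ))) := mul_le_mul_of_nonneg_left h2 (by positivity)
    _ ≤ 5 * E ^ 2 * (2 * (b * ℓ + 20 * (b * ℓ))) := by gcongr
    _ = _ := by ring

end

/-- the slowly varying factor -/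
noncomputable def gF (φ : ℝ → ℝ) (t y : ℝ) : ℂ := cexp (((-(2 * Real.pi * (φ y - φ t)) : ℝ) : ℂ) * I)

lemma gF_norm (φ : ℝ → ℝ) (t y : ℝ) : ‖gF φ t y‖ ≤ 1 := (Complex.norm_exp_ofReal_mul_I _).le

lemma gF_self (φ : ℝ → ℝ) (t : ℝ) : gF φ t t = 1 := by
  unfold gF
  rw [sub_self, mul_zero, neg_zero, Complex.ofReal_zero, zero_mul, Complex.exp_zero]

lemma gF_lip {φ : ℝ → ℝ} {κ : ℝ} (hφ : ∀ x y, |φ x - φ y| ≤ κ * |x - y|) (t x y : ℝ) :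
    ‖gF φ t x - gF φ t y‖ ≤ 7 * κ * |x - y| := by
  unfold gF
  refine (exp_close _ _).trans ?_
  have hpi := Real.pi_pos
  have hpi2 := Real.pi_lt_d2
  have e : -(2 * Real.pi * (φ x - φ t)) - -(2 * Real.pi * (φ y - φ t)) =
      -(2 * Real.pi * (φ x - φ y)) := by ring
  rw [e, abs_neg, abs_mul, abs_of_pos (by positivity)]
  have h1 := hφ x y
  calc 2 * Real.pi * |φ x - φ y| ≤ 7 * |φ x - φ y| := by
        apply mul_le_mul_of_nonneg_right _ (abs_nonneg _)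
        linarith
    _ ≤ 7 * (κ * |x - y|) := by gcongr
    _ = _ := by ring

/-- the values of the phase at the ordinates -/
lemma Xi_val {β ρ t y : ℝ} {φ : ℝ → ℝ} {m : ℤ} (hy : 0 < y) (h : |2 * xb β y - φ y - m| ≤ ρ) :
    ‖cexp (((2 * Real.pi * φ t : ℝ) : ℂ) * I) * Xi β ⟨0, y⟩ - gF φ t y‖ ≤ 7 * ρ := by
  rw [Xi_axis β hy]
  unfold gF
  have hpi := Real.pi_pos
  have hpi2 := Real.pi_lt_d2
  have e1 : cexp (((2 * Real.pi * φ t : ℝ) : ℂ) * I) * cexp (((-(4 * Real.pi * xb β y) : ℝ) : ℂ) * I) =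
      cexp (((2 * Real.pi * φ t - 4 * Real.pi * xb β y + 2 * Real.pi * m : ℝ) : ℂ) * I) := by
    rw [← Complex.exp_add]
    have e2 : (((2 * Real.pi * φ t - 4 * Real.pi * xb β y + 2 * Real.pi * m : ℝ) : ℂ) * I) =
        (((2 * Real.pi * φ t : ℝ) : ℂ) * I + ((-(4 * Real.pi * xb β y) : ℝ) : ℂ) * I) +
        (m : ℂ) * (2 * Real.pi * I) := by
      push_cast
      ring
    rw [e2, Complex.exp_add _ ((m : ℂ) * (2 * Real.pi * I)), Complex.exp_int_mul_two_pi_mul_I,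
      mul_one]
  rw [e1]
  refine (exp_close _ _).trans ?_
  have e3 : 2 * Real.pi * φ t - 4 * Real.pi * xb β y + 2 * Real.pi * m -
      -(2 * Real.pi * (φ y - φ t)) = -(2 * Real.pi * (2 * xb β y - φ y - m)) := by
    ring
  rw [e3, abs_neg, abs_mul, abs_of_pos (by positivity)]
  have h0 := abs_nonneg (2 * xb β y - φ y - m)
  calc 2 * Real.pi * |2 * xb β y - φ y - m| ≤ 7 * |2 * xb β y - φ y - m| := by
        apply mul_le_mul_of_nonneg_right _ h0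
        linarith
    _ ≤ 7 * ρ := by gcongr

end Pool.Agent.T9h53.AJ
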