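import Pool.Agent.T9h53.AJ.Qd
import Pool.Agent.T9h53.AJ.MeasP

/-! # The quotient from the positions -/

set_option autoImplicit false

open Complex Filter Topology Set

namespace Pool.Agent.T9h53.AJ

open Pool.Agent.T9h53.SZ Pool.Agent.T9h53.EQ Pool.Agent.T9h53.AH

/-- the quotient -/
theorem exists_D {β W ρ κ t : ℝ} {φ : ℝ → ℝ} {m : ℕ → ℤ} (hρ : ρ ≤ 1 / 8)
    (h : NPd β W ρ κ t φ m) (hWt : 1 ≤ t - W) {u : ℂ} {H : ℂ → ℂ}
    (hH : ∀ z, DifferentiableAt ℂ H z)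
    (hv : ∀ j : ℕ, 1 ≤ j → t - W ≤ _root_.SG.ord j → _root_.SG.ord j ≤ t + W →
      (1 - u * Xi β ⟨0, _root_.SG.ord j⟩) + H ⟨0, _root_.SG.ord j⟩ = 0) :
    ∃ D : ℂ → ℂ, (∀ z : ℂ, |z.im - t| < W → AnalyticAt ℂ D z) ∧
      ∀ z : ℂ, |z.im - t| < W → (1 - u * Xi β z) + H z = D z * riemannZeta (1 / 2 + z) := by
  set U : Set ℂ := {z : ℂ | |z.im - t| < W} with hU
  have hUo : IsOpen U := isOpen_lt (by fun_prop) continuous_const
  have hpos1 : ∀ z ∈ U, 1 ≤ z.im := by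
    intro z hz
    have hz' : |z.im - t| < W := hz
    have := (abs_lt.mp hz').1
    linarith
  have hpos : ∀ z ∈ U, 0 < z.im := fun z hz => by linarith [hpos1 z hz]
  have hHan : ∀ z : ℂ, AnalyticAt ℂ H z := by
    intro z
    have h1 : DifferentiableOn ℂ H univ := fun w _ => (hH w).differentiableWithinAt
    exact h1.analyticAt univ_mem
  have hfan : ∀ z ∈ U, AnalyticAt ℂ (fun z => (1 - u * Xi β z) + H z) z := fun z hz =>
    (analyticAt_const.sub (analyticAt_const.mul (Xi_analytic β (hpos z hz)))).add (hHan z)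
  obtain ⟨D, hD, hDe⟩ := exists_quot (f := fun z : ℂ => (1 - u * Xi β z) + H z)
    (h := fun w => riemannZeta (1 / 2 + w)) hUo hfan
    (fun z hz => zeta_an (hpos z hz)) (fun z hz => zHU.order_ne_top (hpos z hz)) (by
      intro z hz
      by_cases h0 : riemannZeta (1 / 2 + z) = 0
      · have him : (1 / 2 + z).im = z.im := by simp
        have hre : (1 / 2 + z).re = 1 / 2 + z.re := by simp
        have hz' : |z.im - t| < W := hz
        have hzW := abs_lt.mp hz'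
        have hpos1' : 1 ≤ (1 / 2 + z).im := by
          rw [him]
          exact hpos1 z hz
        have hpos0 : 0 < (1 / 2 + z).im := by linarith
        obtain ⟨h1, h2⟩ := zHU.strip h0 hpos0.ne'
        obtain ⟨h3, h4⟩ := zero_ord h0 h1 h2 hpos0
        obtain ⟨h5, h6⟩ := zero_simpleP hρ h h0 h1 h2 hpos1' (by rw [him]; exact hz'.le)
        rw [him] at h3 h4
        have hre0 : z.re = 0 := by
          rw [hre] at h5
          linarith
        have hzz : z = ⟨0, z.im⟩ := Complex.ext hre0 rfl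
        have h7 : analyticOrderAt (fun w => riemannZeta (1 / 2 + w)) z ≤ 1 := by
          apply order_le_one (hpos z hz)
          intro hd
          have := _root_.SG.zmult_two hpos0 h0 hd
          omega
        refine h7.trans (one_le_order (hfan z hz) ?_)
        have h8 := hv _ h3 (by rw [h4]; linarith) (by rw [h4]; linarith)
        rw [h4, ← hzz] at h8
        exact h8
      · have h1 : analyticOrderAt (fun w => riemannZeta (1 / 2 + w)) z = 0 := by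
          rw [(zeta_an (hpos z hz)).analyticOrderAt_eq_zero]
          exact h0
        rw [h1]
        exact zero_le)
  exact ⟨D, fun z hz => hD z hz, fun z hz => hDe z hz⟩

/-- the row condition -/
lemma row_ok {κ ℓ ρ W : ℝ} {n : ℕ} (hκ0 : 0 ≤ κ) (hκ : κ ≤ 1 / 2000) (hℓ : 1 ≤ ℓ)
    (hρ : ρ = κ / √ℓ) (hn : (n : ℝ) ≤ 10 * W * ℓ + 2) (hn1 : 1 ≤ n)
    (hlog : 1 + Real.log (10 * W * ℓ + 2) ≤ √ℓ) :
    8 * (4 * κ) * (1 + 4 / (1 / (5 * ℓ))) + 8 * (7 * ρ) / (1 / (5 * ℓ)) *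
      (1 + Real.log (n : ℝ)) ≤ ℓ / 2 := by
  have hℓ0 : 0 < ℓ := by linarith
  have hs : 0 < √ℓ := Real.sqrt_pos.mpr hℓ0
  have hn0 : (0 : ℝ) < n := by
    have : (1 : ℝ) ≤ n := by exact_mod_cast hn1
    linarith
  have h1 : 1 + Real.log (n : ℝ) ≤ √ℓ := by
    have := Real.log_le_log hn0 hn
    linarith
  have hρ0 : 0 ≤ ρ := by
    rw [hρ]
    positivity
  have e1 : 8 * (4 * κ) * (1 + 4 / (1 / (5 * ℓ))) = 32 * κ + 640 * κ * ℓ := by
    field_simp
    ring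
  have e2 : 8 * (7 * ρ) / (1 / (5 * ℓ)) = 280 * ρ * ℓ := by
    field_simp
    ring
  have h2 : 280 * ρ * ℓ * (1 + Real.log (n : ℝ)) ≤ 280 * ρ * ℓ * √ℓ :=
    mul_le_mul_of_nonneg_left h1 (by positivity)
  have e3 : 280 * ρ * ℓ * √ℓ = 280 * κ * ℓ := by
    rw [hρ]
    field_simp
  rw [e1, e2]
  have h3 : κ * ℓ ≤ 1 / 2000 * ℓ := mul_le_mul_of_nonneg_right hκ hℓ0.le
  have h4 : κ ≤ κ * ℓ := le_mul_of_one_le_right hκ0 hℓ
  linarith

/-- the size of the quadratic form -/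
lemma q_ok {κ ℓ Λ b c S : ℝ} (hκ0 : 0 ≤ κ) (hb : 10 ≤ b) (hc : 0 < c) (hκ : κ ≤ c / (1000 * b))
    (hℓ : 1 ≤ ℓ) (hΛ : ℓ / 2 ≤ Λ) (hS : S ≤ 210 * (b * ℓ) * (42 * κ / √ℓ) ^ 2) :
    S / Λ ≤ c ^ 2 / ℓ := by
  have hℓ0 : 0 < ℓ := by linarith
  have hb0 : 0 < b := by linarith
  have hΛ0 : 0 < Λ := by linarith
  have e1 : (42 * κ / √ℓ) ^ 2 = 1764 * κ ^ 2 / ℓ := by
    rw [div_pow, Real.sq_sqrt hℓ0.le]
    ring
  rw [e1] at hS
  have e2 : 210 * (b * ℓ) * (1764 * κ ^ 2 / ℓ) = 370440 * b * κ ^ 2 := by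
    field_simp
    ring
  rw [e2] at hS
  have h1 : κ ^ 2 ≤ (c / (1000 * b)) ^ 2 := pow_le_pow_left₀ hκ0 hκ 2
  have h2 : 370440 * b * κ ^ 2 ≤ 370440 * b * (c / (1000 * b)) ^ 2 := by gcongr
  have e3 : 370440 * b * (c / (1000 * b)) ^ 2 = 0.37044 * c ^ 2 / b := by
    field_simp
    norm_num
  have h3 : 0.37044 * c ^ 2 / b ≤ c ^ 2 / 2 := by
    rw [div_le_div_iff₀ hb0 (by norm_num)]
    have : 0 < c ^ 2 := by positivity
    nlinarith
  have h4 : S ≤ c ^ 2 / 2 := by linarith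
  calc S / Λ ≤ (c ^ 2 / 2) / Λ := by gcongr
    _ ≤ (c ^ 2 / 2) / (ℓ / 2) := by gcongr
    _ = c ^ 2 / ℓ := by field_simp

/-- the size of the frequency -/
lemma fr_ok {β T t : ℝ} (hT0 : 0 < T) (hℓβ : 2 + 16 * |β| ≤ Real.log T) (ht1 : T ≤ t)
    (ht2 : t ≤ 2 * T) : Real.log T / 2 ≤ Real.log t + 1 + 2 * Real.pi * β ∧
    Real.log t + 1 + 2 * Real.pi * β ≤ Real.log T + cbe β := by
  have hpi1 := Real.pi_gt_three
  have hpi2 := Real.pi_lt_d2
  have hβ0 := abs_nonneg β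
  have hβ1 := neg_abs_le β
  have hβ2 := le_abs_self β
  have ht0 : 0 < t := by linarith
  have h1 := Real.log_le_log hT0 ht1
  have h2 := Real.log_le_log ht0 ht2
  rw [Real.log_mul (by norm_num) hT0.ne'] at h2
  have h3 := Real.log_two_lt_d9
  have h4 : -(2 * Real.pi * |β|) ≤ 2 * Real.pi * β := by nlinarith
  have h5 : 2 * Real.pi * β ≤ 2 * Real.pi * |β| := by nlinarith
  have h6 : 2 * Real.pi * |β| ≤ 8 * |β| := by nlinarith
  unfold cbe
  constructor <;> linarith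

/-- close positions give the quotient -/
theorem exists_QD (β b c : ℝ) (hb : 10 ≤ b) (hc : 0 < c) : ∃ κ T₀ : ℝ, 0 < κ ∧ κ ≤ 1 ∧ 10 ≤ T₀ ∧
    ∀ T : ℝ, T₀ ≤ T → ∀ t : ℝ, T ≤ t → t ≤ 2 * T →
    NearP β (5 * b * Real.log (Real.log T) + 5) (κ / √(Real.log T)) κ t →
    ∃ (ι : Type) (_ : Fintype ι) (Λ : ℝ) (u : ℂ) (a : ℝ → ℂ)
      (d : ι → ℂ) (x : ι → ℝ) (D : ℂ → ℂ),
      QD β b (5 * b * Real.log (Real.log T)) (Real.log T) Λ c (c ^ 2 / Real.log T) t u a d x D ∧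
      0 < Λ ∧ Λ ≤ Real.log T + cbe β := by
  classical
  have hb0 : 0 < b := by linarith
  set κ : ℝ := min (1 / 2000) (c / (1000 * b)) with hκdef
  have hκ0 : 0 < κ := lt_min (by norm_num) (by positivity)
  have hκ1 : κ ≤ 1 / 2000 := min_le_left _ _
  have hκ2 : κ ≤ c / (1000 * b) := min_le_right _ _
  have hκ3 : 35 / 2 * κ ≤ c := by
    have h1 : c / (1000 * b) ≤ c / 10000 := by
      apply div_le_div_of_nonneg_left hc.le (by norm_num)
      linarith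
    linarith
  have hev : ∀ᶠ T : ℝ in atTop, (5 * b * Real.log (Real.log T) + 5 ≤ κ / 4 * T) ∧
      (1 + Real.log (10 * (5 * b * Real.log (Real.log T) + 5) * Real.log T + 2) ≤
        √(Real.log T)) ∧ (Real.exp (2 + 16 * |β|) + 10 ≤ T) :=
    (ev_W hb0 (by positivity)).and ((Real.tendsto_log_atTop.eventually
      (ev_log (show 1 ≤ b by linarith))).and (eventually_ge_atTop _))
  obtain ⟨T₁, hT₁⟩ := eventually_atTop.mp hev
  refine ⟨κ, max T₁ 10, hκ0, by linarith, le_max_right _ _, ?_⟩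
  intro T hTT t ht1 ht2 hN
  obtain ⟨hW2, hlog, hT⟩ := hT₁ T ((le_max_left _ _).trans hTT)
  have hexp10 : (0 : ℝ) < Real.exp (2 + 16 * |β|) := Real.exp_pos _
  have hT10 : 10 ≤ T := by linarith
  have hT0 : 0 < T := by linarith
  obtain ⟨φ, m, hN1, hN2, hN3⟩ := hN
  set ℓ := Real.log T with hℓ
  have hℓβ : 2 + 16 * |β| ≤ ℓ := by
    rw [hℓ, Real.le_log_iff_exp_le hT0]
    linarith
  have hβ0 := abs_nonneg β
  have hℓ2 : 2 ≤ ℓ := by linarith
  have hℓ0 : 0 < ℓ := by linarith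
  set Y := 5 * b * Real.log ℓ with hY
  have hY0 : 0 ≤ Y := by
    have : 0 ≤ Real.log ℓ := Real.log_nonneg (by linarith)
    positivity
  set W := Y + 5 with hW
  have hW0 : 0 < W := by linarith
  have hWT : W ≤ T / 4 := by nlinarith
  have hWκ : 2 * W / T ≤ κ / 2 := by
    rw [div_le_iff₀ hT0]
    linarith
  set ρ := κ / √ℓ with hρdef
  have hs0 : 0 < √ℓ := Real.sqrt_pos.mpr hℓ0
  have hs1 : 1 ≤ √ℓ := by
    rw [Real.le_sqrt (by norm_num) hℓ0.le]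
    linarith
  have hρκ : ρ ≤ κ := div_le_self hκ0.le hs1
  have hρ0 : 0 ≤ ρ := by positivity
  have hρ8 : ρ ≤ 1 / 8 := by linarith
  have hNP : NPd β W ρ κ t φ m := ⟨hN1, hN2, hN3⟩
  have hWt : 1 ≤ t - W := by linarith
  obtain ⟨j₀, n₀, hj₀, hwin, hmem⟩ := idx (W := W) (t := t) (by linarith)
  have hsl := slope_T hT hWT ht1 ht2
  have hsep := sepP hℓ0 hρ8 hκ0.le (by linarith : κ ≤ ℓ / 4) hNP hj₀ hsl hwin
  obtain ⟨hΛ1, hΛ2⟩ := fr_ok hT0 hℓβ ht1 ht2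
  have hsin := sinP hT0 hW0.le hWT ht1 hWκ hκ0.le hNP hj₀ hwin
  set Λ := Real.log t + 1 + 2 * Real.pi * β with hΛ
  have hΛ0 : 0 < Λ := by linarith
  have hn : (((n₀ - j₀ + 1 : ℕ) : ℕ) : ℝ) ≤ 10 * W * ℓ + 2 := by
    rcases le_or_gt j₀ n₀ with hjn | hjn
    · have h1 := hsep j₀ n₀ le_rfl hjn le_rfl
      have w1 := hwin j₀ le_rfl hjn
      have w2 := hwin n₀ hjn le_rfl
      rw [mul_one_div, div_le_iff₀ (by positivity)] at h1
      have h2 : (_root_.SG.ord n₀ - _root_.SG.ord j₀) * (5 * ℓ) ≤ (2 * W) * (5 * ℓ) := by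
        apply mul_le_mul_of_nonneg_right _ (by positivity)
        linarith
      push_cast [Nat.cast_sub hjn]
      linarith
    · have h1 : n₀ - j₀ = 0 := by omega
      rw [h1]
      have : 0 ≤ 10 * W * ℓ := by positivity
      norm_num
      linarith
  have hrow := (row_ok hκ0.le hκ1 (by linarith : 1 ≤ ℓ) hρdef hn (by omega) hlog).trans hΛ1
  -- the slowly varying part
  set u : ℂ := cexp (((2 * Real.pi * φ t : ℝ) : ℂ) * I) with hu
  set a : ℝ → ℂ := aF (gF φ t) t W with ha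
  have hal : ∀ x y, ‖a x - a y‖ ≤ 35 / 2 * κ * |x - y| := by
    intro x y
    have := aF_lip (g := gF φ t) (t := t) (K := 7 * κ) hW0 (by positivity) (gF_lip hN1 t)
      (gF_self φ t) x y
    refine this.trans (le_of_eq ?_)
    ring
  have hac : Continuous a := by
    have h1 : LipschitzWith ⟨35 / 2 * κ, by positivity⟩ a := by
      apply LipschitzWith.of_dist_le_mul
      intro x y
      rw [dist_eq_norm, Real.dist_eq]
      exact hal x y
    exact h1.continuous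
  have hab : ∀ y, ‖a y‖ ≤ 2 := fun y => aF_bd (gF_norm φ t) y
  have hav : ∀ y, 3 * W ≤ |y| → a y = 0 := fun y hy => aF_zero hW0 hy
  have ha0 : a 0 = 0 := by
    rw [ha, aF_one hW0 (by rw [abs_zero]; exact hW0.le), add_zero, gF_self, sub_self]
  have hnear : ∀ v, ‖Ha ℓ (3 * W) t a ⟨0, t + v⟩ - a v‖ ≤ 35 / 2 * κ * (2 / √ℓ) := fun v =>
    Ha_near hℓ0 hac hal hav (by positivity) (by positivity) hab v
  -- the values
  set w : ↥(Finset.Icc j₀ n₀) → ℂ := fun i =>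
    ((Real.exp (-(Real.cosh (b⁻¹ * (_root_.SG.ord i - t)) / 4)) : ℝ) : ℂ) *
      (u * Xi β ⟨0, _root_.SG.ord i⟩ - 1 - Ha ℓ (3 * W) t a ⟨0, _root_.SG.ord i⟩) with hw
  have hwb : ∀ i : ↥(Finset.Icc j₀ n₀), ‖w i‖ ≤ (42 * κ / √ℓ) *
      Real.exp (-(Real.cosh (b⁻¹ * (_root_.SG.ord i - t)) / 4)) := by
    intro i
    have hi := Finset.mem_Icc.mp i.2
    have w1 := hwin i hi.1 hi.2
    have h1 := Xi_val (t := t) (φ := φ) (by linarith : 0 < _root_.SG.ord i)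
      (hN2 i (by omega) w1.1 w1.2)
    have h2 := hnear (_root_.SG.ord i - t)
    rw [add_sub_cancel] at h2
    have h3 : a (_root_.SG.ord i - t) = gF φ t (_root_.SG.ord i) - 1 := by
      rw [ha, aF_one hW0 (abs_le.mpr ⟨by linarith, by linarith⟩), add_sub_cancel]
    rw [h3] at h2
    rw [hw]
    simp only
    rw [norm_mul, Complex.norm_real, Real.norm_of_nonneg (Real.exp_pos _).le, mul_comm]
    apply mul_le_mul_of_nonneg_right _ (Real.exp_pos _).le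
    have e : u * Xi β ⟨0, _root_.SG.ord i⟩ - 1 - Ha ℓ (3 * W) t a ⟨0, _root_.SG.ord i⟩ =
        (u * Xi β ⟨0, _root_.SG.ord i⟩ - gF φ t (_root_.SG.ord i)) -
        (Ha ℓ (3 * W) t a ⟨0, _root_.SG.ord i⟩ - (gF φ t (_root_.SG.ord i) - 1)) := by ring
    rw [e]
    refine (norm_sub_le _ _).trans ((add_le_add h1 h2).trans (le_of_eq ?_))
    rw [hρdef]
    ring
  obtain ⟨d, hd1, hd2⟩ := interp (h := 1 / (5 * ℓ)) (t := t) (o := _root_.SG.ord)
    (by positivity) hsep hΛ0 (K := 4 * κ) (ε := 7 * ρ) (by positivity) (by positivity) hsin hrow w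
  have hsum := wsum (t := t) (b := b) (o := _root_.SG.ord) (by linarith : 1 ≤ ℓ)
    (by linarith) hsep hwb
  have hq := q_ok hκ0.le hb hc hκ2 (by linarith) hΛ1 hsum
  set H : ℂ → ℂ := Hh b t ℓ (3 * W) Λ a d
    (fun j : ↥(Finset.Icc j₀ n₀) => _root_.SG.ord j - t) with hH
  obtain ⟨D, hD1, hD2⟩ := exists_D (u := u) (H := H) hρ8 hNP hWt
    (fun z => Hh_diff b t ℓ (3 * W) Λ hac d _ z) (by
      intro j hj1 hj2 hj3
      obtain ⟨k1, k2⟩ := hmem j hj1 hj2 hj3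
      have hji : j ∈ Finset.Icc j₀ n₀ := Finset.mem_Icc.mpr ⟨k1, k2⟩
      have h1 := hd1 ⟨j, hji⟩
      have e1 : (⟨0, _root_.SG.ord j⟩ : ℂ) = ⟨0, t + (_root_.SG.ord j - t)⟩ := by
        rw [add_sub_cancel]
      have h2 : Hb Λ d (fun j : ↥(Finset.Icc j₀ n₀) => _root_.SG.ord j - t)
          ((⟨0, _root_.SG.ord j⟩ : ℂ) - I * t) = w ⟨j, hji⟩ := by
        rw [e1, Hb_I]
        exact h1
      have h3 : kbt b t ⟨0, _root_.SG.ord j⟩ =
          ((Real.exp (1 / 4 * Real.cosh (b⁻¹ * (_root_.SG.ord j - t))) : ℝ) : ℂ) := by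
        rw [e1, kbt_axis]
      rw [hH]
      unfold Hh
      rw [h2, h3, hw]
      simp only
      have e4 : ((Real.exp (-(Real.cosh (b⁻¹ * (_root_.SG.ord j - t)) / 4)) : ℝ) : ℂ) *
          (u * Xi β ⟨0, _root_.SG.ord j⟩ - 1 - Ha ℓ (3 * W) t a ⟨0, _root_.SG.ord j⟩) *
          ((Real.exp (1 / 4 * Real.cosh (b⁻¹ * (_root_.SG.ord j - t))) : ℝ) : ℂ) =
          u * Xi β ⟨0, _root_.SG.ord j⟩ - 1 - Ha ℓ (3 * W) t a ⟨0, _root_.SG.ord j⟩ := by
        rw [mul_right_comm, ← Complex.ofReal_mul, ← Real.exp_add]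
        have e5 : -(Real.cosh (b⁻¹ * (_root_.SG.ord j - t)) / 4) +
            1 / 4 * Real.cosh (b⁻¹ * (_root_.SG.ord j - t)) = 0 := by ring
        rw [e5, Real.exp_zero, Complex.ofReal_one, one_mul]
      rw [e4]
      ring)
  refine ⟨↥(Finset.Icc j₀ n₀), inferInstance, Λ, u, a, d,
    (fun j : ↥(Finset.Icc j₀ n₀) => _root_.SG.ord j - t), D, ?_, hΛ0, hΛ2⟩
  refine ⟨Complex.norm_exp_ofReal_mul_I _, hac, ?_, ha0, hav, hab, hd2.trans hq, hD1, hD2⟩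
  intro x y
  exact (hal x y).trans (mul_le_mul_of_nonneg_right hκ3 (abs_nonneg _))

end Pool.Agent.T9h53.AJ
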