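import Pool.Agent.T9h53.AJ.Kb

/-! # The axis -/

set_option autoImplicit false

open Complex Filter Topology Set MeasureTheory

namespace Pool.Agent.T9h53.AJ

open Pool.Agent.T9h53.SZ Pool.Agent.T9h53.AH Pool.Agent.T9h53.EQ

variable {ι : Type*} [Fintype ι]

lemma cs_kk {x k : ℝ} (hk : 0 < k) : x ≤ x ^ 2 * k⁻¹ / 2 + k / 2 := by
  have h1 : x ^ 2 * k⁻¹ / 2 + k / 2 - x = (x - k) ^ 2 / (2 * k) := by
    field_simp
    ring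
  have h2 : 0 ≤ (x - k) ^ 2 / (2 * k) := by positivity
  linarith

lemma DS_cont_v (S : Finset ℕ) (a : ℕ → ℂ) {c : ℕ → ℝ → ℂ} (hc : ∀ n, Continuous (c n)) (t : ℝ) :
    Continuous fun v => DS S a c t v := by
  unfold DS
  apply continuous_finsetSum
  intro n _
  have := hc n
  fun_prop

lemma Fp_cont_v (N : ℕ) (a : ℕ → ℂ) (b Y t : ℝ) : Continuous fun v => Fp N a b Y t v := by
  unfold Fp
  exact DS_cont_v _ _ (fun n => cI_cont _ _ _ _) t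

lemma Fm_cont_v (N : ℕ) (a : ℕ → ℂ) (b Y t : ℝ) : Continuous fun v => Fm N a b Y t v := by
  unfold Fm
  exact DS_cont_v _ _ (fun n => (cI_cont _ _ _ _).comp continuous_neg) t

lemma Hb_I (Λ : ℝ) (d : ι → ℂ) (x : ι → ℝ) (t v : ℝ) :
    Hb Λ d x ((⟨0, t + v⟩ : ℂ) - I * t) = Hb Λ d x (I * v) := by
  rw [sub_It]
  congr 1
  apply Complex.ext <;> simp

lemma en_le {G : ℝ → ℂ} (hG : Continuous G) {b A A' : ℝ} (hA : A ≤ A')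
    (hk : ∫ v in A..A', kk b v ≤ 6 * b) :
    ∫ v in A..A', ‖G v‖ ≤ (∫ v in A..A', ‖G v‖ ^ 2 * (kk b v)⁻¹) + 3 * b := by
  have hkc := kk_cont b
  have hkic := inv_kk_cont b
  have c1 : Continuous fun v => ‖G v‖ ^ 2 * (kk b v)⁻¹ / 2 := by fun_prop
  have h1 : ∫ v in A..A', ‖G v‖ ≤ ∫ v in A..A', (‖G v‖ ^ 2 * (kk b v)⁻¹ / 2 + kk b v / 2) := by
    apply intervalIntegral.integral_mono_on hA
    · exact hG.norm.intervalIntegrable _ _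
    · exact (c1.add (hkc.div_const 2)).intervalIntegrable _ _
    · intro v _
      exact cs_kk (kk_pos b v)
  rw [intervalIntegral.integral_add (c1.intervalIntegrable _ _)
    ((hkc.div_const 2).intervalIntegrable _ _), intervalIntegral.integral_div,
    intervalIntegral.integral_div] at h1
  have h3 : 0 ≤ ∫ v in A..A', ‖G v‖ ^ 2 * (kk b v)⁻¹ := by
    apply intervalIntegral.integral_nonneg hA
    intro v _
    have := kk_pos b v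
    positivity
  linarith

lemma kk_left {b Y : ℝ} (hb : 0 < b) (hY : 0 ≤ Y) : ∫ v in (-Y)..0, kk b v ≤ 6 * b := by
  have h4 := intervalIntegral.integral_comp_neg (a := 0) (b := Y) (fun v => kk b v)
  rw [neg_zero] at h4
  rw [← h4]
  simp only [kk_even]
  exact kk_sub hb le_rfl hY

/-- the smooth part -/
lemma axis_one {b Y K h0 : ℝ} {h h' f : ℝ → ℂ} {F G : ℝ → ℂ} (hb : 0 < b) (hY : 0 ≤ Y) (hK : 0 ≤ K)
    (hd : ∀ v, HasDerivAt h (h' v) v) (hc : Continuous h') (hK' : ∀ v, ‖h' v‖ ≤ K)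
    (hf : Continuous f) (hF : Continuous F) (hG : Continuous G)
    (e1 : ∀ v, ∫ x in v..Y, f x = F v) (e2 : ∀ v, ∫ x in (-Y)..v, f x = G v) (hh0 : ‖h 0‖ ≤ h0) :
    ‖∫ v in (-Y)..Y, h v * f v‖ ≤ h0 * (1 + (‖F 0‖ ^ 2 + ‖G 0‖ ^ 2)) +
      K * ((∫ v in (0)..Y, ‖F v‖ ^ 2 * (kk b v)⁻¹) +
        (∫ v in (-Y)..0, ‖G v‖ ^ 2 * (kk b v)⁻¹) + 6 * b) := by
  have i1 := ibp hY hd hc hK' hf
  have a1 : ∫ v in (0)..Y, ‖∫ x in v..Y, f x‖ = ∫ v in (0)..Y, ‖F v‖ := by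
    congr 1
    funext v
    rw [e1]
  have a2 : ∫ v in (-Y)..0, ‖∫ x in (-Y)..v, f x‖ = ∫ v in (-Y)..0, ‖G v‖ := by
    congr 1
    funext v
    rw [e2]
  rw [a1, a2] at i1
  have hfull : ‖∫ v in (-Y)..Y, f v‖ ≤ 1 + (‖F 0‖ ^ 2 + ‖G 0‖ ^ 2) := by
    rw [← intervalIntegral.integral_add_adjacent_intervals (b := 0) (hf.intervalIntegrable _ _)
      (hf.intervalIntegrable _ _), e1, e2]
    refine (norm_add_le _ _).trans ?_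
    nlinarith [sq_nonneg (‖F 0‖ - 1 / 2), sq_nonneg (‖G 0‖ - 1 / 2)]
  have j1 := en_le (b := b) hF hY (kk_sub hb le_rfl hY)
  have j2 := en_le (b := b) hG (show -Y ≤ 0 by linarith) (kk_left hb hY)
  have k1 : ‖h 0‖ * ‖∫ v in (-Y)..Y, f v‖ ≤ h0 * (1 + (‖F 0‖ ^ 2 + ‖G 0‖ ^ 2)) :=
    mul_le_mul hh0 hfull (norm_nonneg _) ((norm_nonneg _).trans hh0)
  have k2 : K * ((∫ v in (0)..Y, ‖F v‖) + ∫ v in (-Y)..0, ‖G v‖) ≤
      K * ((∫ v in (0)..Y, ‖F v‖ ^ 2 * (kk b v)⁻¹) +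
        (∫ v in (-Y)..0, ‖G v‖ ^ 2 * (kk b v)⁻¹) + 6 * b) := by
    apply mul_le_mul_of_nonneg_left _ hK
    linarith
  linarith

lemma axis_split {b Y ℓ Λ V t : ℝ} {a : ℝ → ℂ} {d : ι → ℂ} {x : ι → ℝ} (N : ℕ) (a₁ : ℕ → ℂ)
    (hHac : Continuous fun v : ℝ => Ha ℓ V t a ⟨0, t + v⟩) :
    VW (fun z => Hh b t ℓ V Λ a d x z * AH.PP (Finset.Icc 1 N) a₁ (-z)) b⁻¹ Y t 0 =
      (∫ v in (-Y)..Y, Ha ℓ V t a ⟨0, t + v⟩ * (AH.PP (Finset.Icc 1 N) a₁ (-(⟨0, t + v⟩ : ℂ)) *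
        ((Real.exp (-(1 * Real.cosh (b⁻¹ * v))) : ℝ) : ℂ))) +
      ∫ v in (-Y)..Y, Hb Λ d x (I * v) * (AH.PP (Finset.Icc 1 N) a₁ (-(⟨0, t + v⟩ : ℂ)) *
        ((Real.exp (-(3 / 4 * Real.cosh (b⁻¹ * v))) : ℝ) : ℂ)) := by
  have hPc : Continuous fun v : ℝ => AH.PP (Finset.Icc 1 N) a₁ (-(⟨0, t + v⟩ : ℂ)) :=
    (PM_cont (Finset.Icc 1 N) a₁).comp (continuous_const.add continuous_id)
  have hcosh := Real.continuous_cosh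
  have hHbc : Continuous fun v : ℝ => Hb Λ d x (I * v) := by
    have h1 : Differentiable ℂ (Hb Λ d x) := Hb_diff Λ d x
    exact h1.continuous.comp (by fun_prop)
  have c1 : Continuous fun v : ℝ => Ha ℓ V t a ⟨0, t + v⟩ *
      (AH.PP (Finset.Icc 1 N) a₁ (-(⟨0, t + v⟩ : ℂ)) *
        ((Real.exp (-(1 * Real.cosh (b⁻¹ * v))) : ℝ) : ℂ)) := hHac.mul (hPc.mul (by fun_prop))
  have c2 : Continuous fun v : ℝ => Hb Λ d x (I * v) *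
      (AH.PP (Finset.Icc 1 N) a₁ (-(⟨0, t + v⟩ : ℂ)) *
        ((Real.exp (-(3 / 4 * Real.cosh (b⁻¹ * v))) : ℝ) : ℂ)) := hHbc.mul (hPc.mul (by fun_prop))
  have hadd := intervalIntegral.integral_add (μ := volume) (c1.intervalIntegrable (-Y) Y)
    (c2.intervalIntegrable (-Y) Y)
  rw [← hadd]
  unfold VW
  apply intervalIntegral.integral_congr
  intro v _
  simp only
  unfold Hh
  rw [Hb_I]
  have e1 : kw b⁻¹ 0 v = ((Real.exp (-(1 * Real.cosh (b⁻¹ * v))) : ℝ) : ℂ) := by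
    rw [kw_zero, one_mul]
  have e2 := kbt_kw_axis b t v
  rw [← e2, ← e1]
  ring

/-- the added part against the polynomial on the axis -/
theorem axis_bound {b Y ℓ Λ K q t B₀ s V : ℝ} {a : ℝ → ℂ} {d : ι → ℂ} {x : ι → ℝ}
    (ac : Continuous a) (al : ∀ x y, ‖a x - a y‖ ≤ K * |x - y|) (a0 : a 0 = 0)
    (av : ∀ y, V ≤ |y| → a y = 0) (ab : ∀ y, ‖a y‖ ≤ 2) (hV : 0 ≤ V)
    (hq : Aq Λ d x ≤ q) (hb : 0 < b) (hY : 0 ≤ Y) (hℓ : 0 < ℓ)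
    (hΛ : 0 < Λ) (hK : 0 ≤ K) (hB : Λ + 1 ≤ B₀) (hs : 0 < s) (N : ℕ) (a₁ : ℕ → ℂ) :
    ‖VW (fun z => Hh b t ℓ V Λ a d x z * AH.PP (Finset.Icc 1 N) a₁ (-z)) b⁻¹ Y t 0‖ ≤
      2 * K / √ℓ * (1 + (‖Fp N a₁ b Y t 0‖ ^ 2 + ‖Fm N a₁ b Y t 0‖ ^ 2)) +
      K * ((∫ v in (0)..Y, ‖Fp N a₁ b Y t v‖ ^ 2 * (kk b v)⁻¹) +
        (∫ v in (-Y)..0, ‖Fm N a₁ b Y t v‖ ^ 2 * (kk b v)⁻¹) + 6 * b) +
      (s / 2 * q + 1 / (2 * s) * ∫ η in (-B₀)..B₀, ‖Rq N a₁ b Y t η‖ ^ 2) := by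
  have hPc : Continuous fun v : ℝ => AH.PP (Finset.Icc 1 N) a₁ (-(⟨0, t + v⟩ : ℂ)) :=
    (PM_cont (Finset.Icc 1 N) a₁).comp (continuous_const.add continuous_id)
  have hcosh := Real.continuous_cosh
  have hfc : Continuous fun v : ℝ => AH.PP (Finset.Icc 1 N) a₁ (-(⟨0, t + v⟩ : ℂ)) *
    ((Real.exp (-(1 * Real.cosh (b⁻¹ * v))) : ℝ) : ℂ) := hPc.mul (by fun_prop)
  have hgc : Continuous fun v : ℝ => AH.PP (Finset.Icc 1 N) a₁ (-(⟨0, t + v⟩ : ℂ)) *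
    ((Real.exp (-(3 / 4 * Real.cosh (b⁻¹ * v))) : ℝ) : ℂ) := hPc.mul (by fun_prop)
  obtain ⟨hd1, hd2, hd3⟩ := Ha_deriv (t := t) hℓ ac al av hV hK ab
  have hHac : Continuous fun v : ℝ => Ha ℓ V t a ⟨0, t + v⟩ :=
    continuous_iff_continuousAt.mpr fun v => (hd1 v).continuousAt
  rw [axis_split N a₁ hHac]
  have hH0 : ‖Ha ℓ V t a ⟨0, t + 0⟩‖ ≤ 2 * K / √ℓ := by
    have h1 := Ha_near (t := t) hℓ ac al av hV hK ab 0
    rw [a0, sub_zero] at h1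
    have e : K * (2 / √ℓ) = 2 * K / √ℓ := by ring
    rw [e] at h1
    exact h1
  have hFpc := Fp_cont_v N a₁ b Y t
  have hFmc := Fm_cont_v N a₁ b Y t
  have i1 := axis_one (b := b) (h := fun v : ℝ => Ha ℓ V t a ⟨0, t + v⟩) hb hY hK
    (fun v => (hd1 v).hasDerivAt) hd3 hd2 hfc hFpc hFmc (fun v => Fp_eq N a₁ b Y t v)
    (fun v => Fm_eq N a₁ b Y t v) hH0
  have i2 := Hb_pair (B₀ := B₀) hΛ hB hY hs d x hgc
  have e3 : ∀ η, RR Y (fun v : ℝ => AH.PP (Finset.Icc 1 N) a₁ (-(⟨0, t + v⟩ : ℂ)) *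
    ((Real.exp (-(3 / 4 * Real.cosh (b⁻¹ * v))) : ℝ) : ℂ)) η = Rq N a₁ b Y t η :=
    fun η => RR_eq N a₁ b t η hY
  simp only [e3] at i2
  have i3 : s / 2 * Aq Λ d x ≤ s / 2 * q := mul_le_mul_of_nonneg_left hq (by positivity)
  have i4 : ∀ A B X Z Z' R : ℝ, A ≤ X → B ≤ Z' + R → Z' ≤ Z → A + B ≤ X + (Z + R) := by
    intro A B X Z Z' R h1 h2 h3
    linarith
  exact (norm_add_le _ _).trans (i4 _ _ _ _ _ _ i1 i2 i3)

end Pool.Agent.T9h53.AJ
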