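import Pool.Agent.T9h53.AJ.Ew

/-! # Arithmetic of the window inequality -/

set_option autoImplicit false

open Complex Filter Topology Set

namespace Pool.Agent.T9h53.AJ

open Pool.Agent.T9h53.SZ Pool.Agent.T9h53.EQ Pool.Agent.T9h53.AH

lemma ar_E {T x y r : ℝ} (hT : √T * √T = T) (h16 : 16 ≤ √T) (hT0 : 0 < T) (hr : r ≤ 1 / 2)
    (hx : x = √T) (hy : y ≤ r * T) : 2 * x + y ≤ T := by
  have h1 : r * T ≤ 1 / 2 * T := mul_le_mul_of_nonneg_right hr hT0.le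
  have h2 : 16 * √T ≤ √T * √T := mul_le_mul_of_nonneg_right h16 (Real.sqrt_nonneg _)
  rw [hx]
  linarith

lemma ar1 {b CX S Ct T : ℝ} (hb0 : 0 < b) (hT : 1 ≤ T) (hCX : 0 ≤ CX) (hS : 0 ≤ S)
    (ev1 : 6 * (CX * S) / T ≤ 1 / 100) (ev2 : 6 * Ct / T ≤ 1 / 100) :
    (CX / T ^ 2 * S + T * (Ct / T ^ 2)) * (6 * b) ≤ b / 50 := by
  have hT0 : 0 < T := by linarith
  have h1 : 6 * (CX / T ^ 2 * S) ≤ 1 / 100 := by
    refine le_trans ?_ ev1
    have e1 : 6 * (CX / T ^ 2 * S) = 6 * (CX * S) / T * (1 / T) := by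
      field_simp
    rw [e1]
    apply mul_le_of_le_one_right (by positivity)
    rw [div_le_one hT0]
    exact hT
  have h2 : 6 * (T * (Ct / T ^ 2)) ≤ 1 / 100 := by
    refine le_trans (le_of_eq ?_) ev2
    field_simp
  calc _ = b * (6 * (CX / T ^ 2 * S) + 6 * (T * (Ct / T ^ 2))) := by ring
    _ ≤ b * (1 / 100 + 1 / 100) := mul_le_mul_of_nonneg_left (add_le_add h1 h2) hb0.le
    _ = _ := by ring

lemma ar2 {b CG CX S Ct T x y r : ℝ} (hb0 : 0 < b) (hT0 : 0 < T) (hT : √T * √T = T)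
    (h16 : 16 ≤ √T) (hCG : 0 ≤ CG) (hCX : 0 ≤ CX) (hS : 0 ≤ S)
    (h1 : 18 * CG * Ct / T ≤ 1 / 100) (ev4 : 72 * CG * CX * S / √T ≤ 1 / 400)
    (hx : x = √T) (hy : y ≤ r * T) (hr : 18 * CG * CX * S * r ≤ 1 / 400) :
    (3 * CG * T) * (Ct / T ^ 2 + (1 + (2 * x + y)) * (CX / T ^ 2 * S)) * (6 * b) ≤ b / 50 := by
  have hsT : 0 < √T := by linarith
  have h2 : 18 * CG * CX * S * (1 + 2 * √T) / T ≤ 1 / 400 := by
    refine le_trans ?_ ev4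
    rw [div_le_div_iff₀ hT0 hsT]
    have h3 : (1 + 2 * √T) * √T ≤ 4 * T := by
      have h2 : 16 * √T ≤ √T * √T := mul_le_mul_of_nonneg_right h16 (Real.sqrt_nonneg _)
      have e : (1 + 2 * √T) * √T = √T + 2 * (√T * √T) := by ring
      rw [e, hT]
      linarith
    calc 18 * CG * CX * S * (1 + 2 * √T) * √T = 18 * CG * CX * S * ((1 + 2 * √T) * √T) := by
          ring
      _ ≤ 18 * CG * CX * S * (4 * T) := mul_le_mul_of_nonneg_left h3 (by positivity)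
      _ = _ := by ring
  have h4 : 18 * CG * CX * S * y / T ≤ 1 / 400 := by
    rw [div_le_iff₀ hT0]
    calc 18 * CG * CX * S * y ≤ 18 * CG * CX * S * (r * T) :=
          mul_le_mul_of_nonneg_left hy (by positivity)
      _ = 18 * CG * CX * S * r * T := by ring
      _ ≤ 1 / 400 * T := mul_le_mul_of_nonneg_right hr hT0.le
  rw [hx]
  calc _ = b * (18 * CG * Ct / T + (18 * CG * CX * S * (1 + 2 * √T) / T +
        18 * CG * CX * S * y / T)) := by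
        field_simp
        ring
    _ ≤ b * (1 / 100 + (1 / 400 + 1 / 400)) := by
        apply mul_le_mul_of_nonneg_left _ hb0.le
        linarith
    _ ≤ b / 50 := by linarith

lemma ar3 {b R CH T : ℝ} (hb0 : 0 < b) (hT0 : 0 < T) (hR : 1 ≤ R)
    (ev3 : 60 * CH * √(6 * R) / √T ≤ 1 / 100) :
    (CH * (5 / T)) * (2 * √(6 * R * T)) * (6 * b) ≤ b / 100 := by
  have hsT : 0 < √T := Real.sqrt_pos.mpr hT0
  have hsq : √T * √T = T := Real.mul_self_sqrt hT0.le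
  have e1 : √(6 * R * T) = √(6 * R) * √T := Real.sqrt_mul (by positivity) T
  calc (CH * (5 / T)) * (2 * √(6 * R * T)) * (6 * b) = b * (60 * CH * √(6 * R) * √T / T) := by
        rw [e1]
        ring
    _ = b * (60 * CH * √(6 * R) / √T) := by
        congr 1
        rw [div_eq_div_iff hT0.ne' hsT.ne', mul_assoc, hsq]
    _ ≤ b * (1 / 100) := mul_le_mul_of_nonneg_left ev3 hb0.le
    _ = b / 100 := by ring

lemma arQ {R T : ℝ} (hT : 1 ≤ T) (hR : 1 ≤ R) : 2 * √(6 * R * T) ≤ 12 * R * T := by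
  have h1 : 1 ≤ 6 * R * T := by nlinarith
  have h2 : √(6 * R * T) ≤ 6 * R * T := by
    calc √(6 * R * T) ≤ √((6 * R * T) ^ 2) := by
          apply Real.sqrt_le_sqrt
          nlinarith
      _ = 6 * R * T := Real.sqrt_sq (by positivity)
  linarith

lemma ar4 {b Y S R CG CB PB P0 T Q EL E3 c0 : ℝ} (hb0 : 0 < b) (hT : 1 ≤ T) (hR : 1 ≤ R)
    (hS : 0 ≤ S) (hCG : 0 ≤ CG) (hCB : 0 ≤ CB) (hP0 : 0 ≤ P0) (hPB0 : 0 ≤ PB)
    (hPB1 : PB ≤ P0 * T ^ 18) (hQ0 : 0 ≤ Q) (hQT : Q ≤ 12 * R * T) (hEL1 : 1 ≤ EL)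
    (hx : E3 * ed b Y = e8 b Y)
    (hc0 : c0 = 100 * (2 + 4 * b * S + 24 * P0 * R + 4 * (1 + CB * 4 ^ 12 + P0) + 72 * CG * R))
    (ev8 : c0 * (T ^ 20 * EL) * e8 b Y ≤ 1) :
    (2 + 4 * b * S) * ed b Y + 2 * ((PB * E3) * Q) * ed b Y +
      4 * ((1 + CB * (4 * T) ^ 12 + PB) * E3 * EL) * ed b Y +
      6 * CG * T * Q * ed b Y ≤ 1 / 100 := by
  have hed8 := ed_le_e8 b Y
  have hed := ed_pos b Y
  have he8 := e8_pos b Y
  have hT0 : 0 < T := by linarith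
  have hEL0 : 0 < EL := by linarith
  have hT201 : 1 ≤ T ^ 20 := one_le_pow₀ hT
  have hT20 : 1 ≤ T ^ 20 * EL := one_le_mul_of_one_le_of_one_le hT201 hEL1
  have q1 : (2 + 4 * b * S) * ed b Y ≤ (2 + 4 * b * S) * (T ^ 20 * EL) * e8 b Y := by
    calc (2 + 4 * b * S) * ed b Y ≤ (2 + 4 * b * S) * e8 b Y := by gcongr
      _ = (2 + 4 * b * S) * 1 * e8 b Y := by ring
      _ ≤ _ := by gcongr
  have q2 : 2 * ((PB * E3) * Q) * ed b Y ≤ 24 * P0 * R * (T ^ 20 * EL) * e8 b Y := by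
    calc 2 * ((PB * E3) * Q) * ed b Y = 2 * (PB * Q) * (E3 * ed b Y) := by ring
      _ = 2 * (PB * Q) * e8 b Y := by rw [hx]
      _ ≤ 2 * ((P0 * T ^ 18) * (12 * R * T)) * e8 b Y := by gcongr
      _ = 24 * P0 * R * (T ^ 19) * e8 b Y := by ring
      _ ≤ 24 * P0 * R * (T ^ 20 * EL) * e8 b Y := by
        gcongr
        calc T ^ 19 ≤ T ^ 20 := pow_le_pow_right₀ hT (by norm_num)
          _ ≤ T ^ 20 * EL := le_mul_of_one_le_right (by positivity) hEL1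
  have q3 : 4 * ((1 + CB * (4 * T) ^ 12 + PB) * E3 * EL) * ed b Y ≤
      4 * (1 + CB * 4 ^ 12 + P0) * (T ^ 20 * EL) * e8 b Y := by
    have h1 : 1 + CB * (4 * T) ^ 12 + PB ≤ (1 + CB * 4 ^ 12 + P0) * T ^ 20 := by
      have h2 : T ^ 12 ≤ T ^ 20 := pow_le_pow_right₀ hT (by norm_num)
      have h3 : T ^ 18 ≤ T ^ 20 := pow_le_pow_right₀ hT (by norm_num)
      have h4 : PB ≤ P0 * T ^ 20 := hPB1.trans (mul_le_mul_of_nonneg_left h3 hP0)
      calc 1 + CB * (4 * T) ^ 12 + PB ≤ T ^ 20 + CB * (4 ^ 12 * T ^ 20) + P0 * T ^ 20 := by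
            rw [mul_pow]
            gcongr
        _ = _ := by ring
    calc 4 * ((1 + CB * (4 * T) ^ 12 + PB) * E3 * EL) * ed b Y =
        4 * (1 + CB * (4 * T) ^ 12 + PB) * EL * (E3 * ed b Y) := by ring
      _ = 4 * (1 + CB * (4 * T) ^ 12 + PB) * EL * e8 b Y := by rw [hx]
      _ ≤ 4 * ((1 + CB * 4 ^ 12 + P0) * T ^ 20) * EL * e8 b Y := by gcongr
      _ = _ := by ring
  have q4 : 6 * CG * T * Q * ed b Y ≤ 72 * CG * R * (T ^ 20 * EL) * e8 b Y := by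
    calc 6 * CG * T * Q * ed b Y ≤ 6 * CG * T * (12 * R * T) * e8 b Y := by gcongr
      _ = 72 * CG * R * T ^ 2 * e8 b Y := by ring
      _ ≤ 72 * CG * R * (T ^ 20 * EL) * e8 b Y := by
        gcongr
        calc T ^ 2 ≤ T ^ 20 := pow_le_pow_right₀ hT (by norm_num)
          _ ≤ T ^ 20 * EL := le_mul_of_one_le_right (by positivity) hEL1
  have q5 : (2 + 4 * b * S) * (T ^ 20 * EL) * e8 b Y +
      24 * P0 * R * (T ^ 20 * EL) * e8 b Y +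
      4 * (1 + CB * 4 ^ 12 + P0) * (T ^ 20 * EL) * e8 b Y +
      72 * CG * R * (T ^ 20 * EL) * e8 b Y = 1 / 100 * (c0 * (T ^ 20 * EL) * e8 b Y) := by
    rw [hc0]
    ring
  linarith

lemma ar_fin {b X2 ed' S tv V1 V2 V3 J0 J1 J2 T m1 m2 m3 m4 m5 m6 AXv CG g : ℝ} (hb : 10 ≤ b)
    (hX2 : 0.135 ≤ X2) (hCG : 0 ≤ CG) (hg : 0 ≤ g) (hT : 0 ≤ T) (hJ1 : 0 ≤ J1) (hJ2 : 0 ≤ J2)
    (r1 : (2 * b * X2 - 2 * ed') - S * tv ≤ V1 + J0 + m1 + T * J2 + m2)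
    (r2 : V1 ≤ V2 + m3) (r3 : V2 ≤ V3 + m4)
    (r4 : V3 ≤ (3 * CG * T) * J2 + g * J1 + m5 + m6)
    (r5 : J0 ≤ AXv) (hta : S * tv ≤ b / 20 + 4 * b * S * ed')
    (e1 : m2 ≤ b / 50) (e2 : m4 ≤ b / 50) (e3 : m5 ≤ b / 100)
    (e4 : (2 + 4 * b * S) * ed' + m1 + m3 + m6 ≤ 1 / 100) :
    b / 10 ≤ (3 * CG + g + 1) * T * J2 + (3 * CG + g + 1) * J1 + AXv := by
  have h1 : 0 ≤ g * (T * J2) := by positivity
  have h2 : 0 ≤ 3 * CG * J1 + J1 := by positivity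
  have h3 : 0.27 * b ≤ 2 * b * X2 := by nlinarith
  have e : (3 * CG + g + 1) * T * J2 + (3 * CG + g + 1) * J1 =
    (3 * CG * T) * J2 + g * (T * J2) + T * J2 + (3 * CG * J1 + J1) + g * J1 := by ring
  rw [e]
  linarith

end Pool.Agent.T9h53.AJ
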