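import Pool.Agent.T9h53.AJ.Wl
import Pool.Agent.T9h53.AJ.Wa
import Pool.Agent.T9h53.AJ.Wg

/-! # The window inequality -/

set_option autoImplicit false

open Complex Filter Topology Set MeasureTheory

namespace Pool.Agent.T9h53.AJ

open Pool.Agent.T9h53.SZ Pool.Agent.T9h53.AH Pool.Agent.T9h53.EQ
open Pool.Agent.TH823.MRS (mob)

/-- the constant in the frequency -/
noncomputable def cbe (β : ℝ) : ℝ := 2 + 2 * Real.pi * |β|

lemma cbe_pos (β : ℝ) : 2 ≤ cbe β := by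
  unfold cbe
  have := Real.pi_pos
  have := abs_nonneg β
  have : 0 ≤ 2 * Real.pi * |β| := by positivity
  linarith

/-- the terms from the axis -/
noncomputable def AX (N : ℕ) (a₁ : ℕ → ℂ) (b Y ℓ K q s t : ℝ) : ℝ :=
  2 * K / √ℓ * (1 + (‖Fp N a₁ b Y t 0‖ ^ 2 + ‖Fm N a₁ b Y t 0‖ ^ 2)) +
      K * ((∫ v in (0)..Y, ‖Fp N a₁ b Y t v‖ ^ 2 * (kk b v)⁻¹) +
        (∫ v in (-Y)..0, ‖Fm N a₁ b Y t v‖ ^ 2 * (kk b v)⁻¹) + 6 * b) +
      (s / 2 * q + 1 / (2 * s) * ∫ η in (-(2 * ℓ))..(2 * ℓ), ‖Rq N a₁ b Y t η‖ ^ 2)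

lemma conj_real_mul (r : ℝ) (m : ℤ) : (starRingEnd ℂ) ((r : ℂ) * (m : ℂ)) = (r : ℂ) * (m : ℂ) := by
  rw [map_mul, conj_ofReal, map_intCast]

/-- the eventual facts -/
lemma ev_all {β b R CG CX Ct CH CB c0 T1 : ℝ} (hb : 10 ≤ b) (hR : 1 ≤ R) (hCG : 0 < CG)
    (hCX : 0 < CX) (hCt : 0 < Ct) (hCH : 0 < CH) (hCB : 0 < CB) (hc0 : 0 < c0) (y₀ : ℝ) :
    ∃ T₀ : ℝ, 10 ≤ T₀ ∧ ∀ T : ℝ, T₀ ≤ T → 4 ≤ Real.log T ∧ b ≤ 5 * b * Real.log (Real.log T) ∧
      5 * b * Real.log (Real.log T) + 5 ≤ T / 4 ∧ y₀ ≤ T / 2 ∧ T1 ≤ T / 2 ∧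
      CH * (3 * T * (T ^ 3)⁻¹) ≤ 1 ∧
      6 * (CX * AH.S0) / T ≤ 1 / 100 ∧
      36 * (CG + 1) * Ct / T ≤ 1 / 100 ∧ 60 * CH * √(6 * R) / √T ≤ 1 / 100 ∧
      72 * CG * CX * AH.S0 / √T ≤ 1 / 400 ∧
      cbe β + 1 ≤ Real.log T ∧ 16 ≤ √T ∧ 40 ≤ T ∧
      c0 * (T ^ 20 * Real.exp (Real.log (3 * T) ^ 2)) *
        e8 b (5 * b * Real.log (Real.log T)) ≤ 1 := by
  have hb0 : 0 < b := by linarith
  obtain ⟨Ta, hTa, h1⟩ := ev_params (S := AH.S0) (y₀ := y₀) (show (1 : ℝ) ≤ b by linarith) hR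
    (show 0 < CG + 1 by linarith) hCX hCt hCH S0_nonneg
  have tinvs : Tendsto (fun T : ℝ => (√T)⁻¹) atTop (𝓝 0) :=
    tendsto_inv_atTop_zero.comp Real.tendsto_sqrt_atTop
  have tinv : Tendsto (fun T : ℝ => T⁻¹) atTop (𝓝 0) := tendsto_inv_atTop_zero
  have ev6 : ∀ᶠ T : ℝ in atTop, 72 * CG * CX * AH.S0 / √T ≤ 1 / 400 := by
    have h1 : Tendsto (fun T : ℝ => 72 * CG * CX * AH.S0 * (√T)⁻¹) atTop
        (𝓝 (72 * CG * CX * AH.S0 * 0)) := tinvs.const_mul _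
    rw [mul_zero] at h1
    filter_upwards [h1.eventually_le_const (show (0 : ℝ) < 1 / 400 by norm_num)] with T hT
    rwa [div_eq_mul_inv]
  have ev7 : ∀ᶠ T : ℝ in atTop, 6 * (CX * AH.S0) / T ≤ 1 / 100 := by
    have h1 : Tendsto (fun T : ℝ => 6 * (CX * AH.S0) * T⁻¹) atTop
        (𝓝 (6 * (CX * AH.S0) * 0)) := tinv.const_mul _
    rw [mul_zero] at h1
    filter_upwards [h1.eventually_le_const (show (0 : ℝ) < 1 / 100 by norm_num)] with T hT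
    rwa [div_eq_mul_inv]
  have ev8 : ∀ᶠ T : ℝ in atTop, 5 * b * Real.log (Real.log T) + 5 ≤ T / 4 := by
    have h1 : ∀ᶠ t : ℝ in atTop, Real.log t ≤ t / (5 * b) / 8 := by
      have := (Real.isLittleO_log_id_atTop).bound
        (show (0 : ℝ) < 1 / (5 * b) / 8 by positivity)
      filter_upwards [this, eventually_ge_atTop 1] with t h1 h2
      rw [Real.norm_eq_abs, Real.norm_eq_abs, id_eq, abs_of_nonneg (Real.log_nonneg h2),
        abs_of_pos (by linarith : (0 : ℝ) < t)] at h1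
      calc Real.log t ≤ 1 / (5 * b) / 8 * t := h1
        _ = _ := by ring
    filter_upwards [h1, eventually_ge_atTop 40, Real.tendsto_log_atTop.eventually_ge_atTop 1]
      with t h2 h3 h5
    have h6 : Real.log (Real.log t) ≤ Real.log t := by
      have := Real.log_le_sub_one_of_pos (show 0 < Real.log t by linarith)
      linarith
    have h7 : (5 * b) * Real.log t ≤ t / 8 := by
      calc (5 * b) * Real.log t ≤ (5 * b) * (t / (5 * b) / 8) := by gcongr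
        _ = t / 8 := by field_simp
    nlinarith
  obtain ⟨Tb, hTb⟩ := eventually_atTop.mp
    ((Real.tendsto_log_atTop.eventually_ge_atTop (cbe β + 1)).and
      ((Real.tendsto_sqrt_atTop.eventually_ge_atTop 16).and
      ((eventually_ge_atTop (max (2 * T1) 40)).and (ev6.and (ev7.and (ev8.and
        (ev_e8 hb0 c0 hc0)))))))
  refine ⟨max Ta Tb, hTa.trans (le_max_left _ _), fun T hT => ?_⟩
  obtain ⟨a1, a2, a3, a4, a5, a6, a7, a8, -⟩ := h1 T ((le_max_left _ _).trans hT)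
  obtain ⟨b1, b2, b3, b4, b5, b6, b7⟩ := hTb T ((le_max_right _ _).trans hT)
  have b3a : 2 * T1 ≤ T := (le_max_left _ _).trans b3
  have b3b : 40 ≤ T := (le_max_right _ _).trans b3
  have hT0 : 0 < T := by linarith
  refine ⟨a1, a2, b6, a4, by linarith, a5, b5, ?_, a8, b4, b1, b2, b3b, b7⟩
  refine le_trans ?_ a7
  apply div_le_div_of_nonneg_right _ hT0.le
  have : 0 ≤ 36 * (CG + 1) * (CX * AH.S0) := by
    have := S0_nonneg
    positivity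
  linarith

/-- **the window inequality** -/
theorem win_P (β : ℝ) : ∃ K₀ q₀ : ℝ, 1 ≤ K₀ ∧ 0 < q₀ ∧ ∀ b : ℝ, 10 ≤ b →
    AH.S0 * (6 * Real.exp (-((b - 1) * Real.log 2))) ≤ 1 / 20 → ∀ R : ℝ, 1 ≤ R →
    ∃ T₀ : ℝ, 10 ≤ T₀ ∧ ∀ T : ℝ, T₀ ≤ T → ∀ X : ℕ, T ≤ X → (X : ℝ) ≤ 2 * R * T → ∀ ψ : ℕ → ℝ,
    (∀ n, 0 ≤ ψ n ∧ ψ n ≤ 1) → (∀ n, 3 * X < n → ψ n = 0) →
    ∀ t : ℝ, T ≤ t → t ≤ 2 * T → ∀ (ι : Type) [Fintype ι] (Λ K q s : ℝ) (u : ℂ) (a : ℝ → ℂ)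
    (d : ι → ℂ) (x : ι → ℝ) (D : ℂ → ℂ),
    QD β b (5 * b * Real.log (Real.log T)) (Real.log T) Λ K q t u a d x D → 0 < q → q ≤ q₀ →
    0 ≤ K → 0 < Λ → Λ ≤ Real.log T + cbe β → 0 < s →
    b / 10 ≤ K₀ * T * (∫ v in (-(5 * b * Real.log (Real.log T)))..(5 * b * Real.log (Real.log T)),
        ‖AH.PP (Finset.Icc 1 (X ^ 8)) (fun n => ((1 - ψ n : ℝ) : ℂ) * (mob n : ℂ)) ⟨-1, t + v⟩‖ *
          kk b v) +
      K₀ * ‖VW (fun z => HH β (T ^ 3)⁻¹ z.im *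
        AH.PP (Finset.Icc 1 (3 * X)) (fun n => ((ψ n : ℝ) : ℂ) * (mob n : ℂ)) z) b⁻¹
          (5 * b * Real.log (Real.log T)) t 0‖ +
      AX (3 * X) (fun n => ((ψ n : ℝ) : ℂ) * (mob n : ℂ)) b (5 * b * Real.log (Real.log T))
        (Real.log T) K q s t := by
  obtain ⟨CG, yG, hCG, hyG, hGA⟩ := GA_size β
  obtain ⟨CX', hCX', hX⟩ := Xi_one β
  obtain ⟨Ct, hCt, htail⟩ := mc_tail
  obtain ⟨CH, hCH, hGH⟩ := GA_HH β
  obtain ⟨T1, hT1, hBox⟩ := box_N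
  obtain ⟨CB, hCB, hXb⟩ := Xi_box β
  have hS0 := S0_nonneg
  have hgg := norm_nonneg (gg β)
  have hcb := cbe_pos β
  set CX : ℝ := 4 * CX' with hCX
  have hCX0 : 0 < CX := by positivity
  set L0 : ℝ := Real.exp (cbe β + 1) with hL0
  have hL00 : 0 < L0 := Real.exp_pos _
  have hL01 : 1 ≤ L0 := Real.one_le_exp (by linarith)
  set r0 : ℝ := 1 / (2 * L0 * (1 + 7200 * CG * CX * AH.S0)) with hr0
  have hden : 0 < 1 + 7200 * CG * CX * AH.S0 := by positivity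
  have hr00 : 0 < r0 := by positivity
  have hr0a : r0 * L0 ≤ 1 / 2 := by
    have e : r0 * L0 = 1 / (2 * (1 + 7200 * CG * CX * AH.S0)) := by
      rw [hr0]
      field_simp
    rw [e]
    apply one_div_le_one_div_of_le (by norm_num)
    have : 0 ≤ 7200 * CG * CX * AH.S0 := by positivity
    linarith
  have hr0b : 18 * CG * CX * AH.S0 * (r0 * L0) ≤ 1 / 400 := by
    have e : r0 * L0 = 1 / (2 * (1 + 7200 * CG * CX * AH.S0)) := by
      rw [hr0]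
      field_simp
    rw [e, mul_one_div, div_le_div_iff₀ (by positivity) (by norm_num)]
    have : 0 ≤ CG * CX * AH.S0 := by positivity
    linarith
  refine ⟨3 * CG + ‖gg β‖ + 1, min 1 (r0 ^ 2), by linarith, by positivity,
    fun b hb hb2 R hR => ?_⟩
  have hb0 : 0 < b := by linarith
  set P0 : ℝ := 3 + L0 ^ 13 with hP0
  set c0 : ℝ := 100 * (2 + 4 * b * AH.S0 + 24 * P0 * R + 4 * (1 + CB * 4 ^ 12 + P0) + 72 * CG * R)
    with hc0
  have hc00 : 0 < c0 := by positivity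
  obtain ⟨T2, hT2, hev⟩ := ev_all (β := β) (T1 := T1) hb hR hCG hCX0 hCt
    (show 0 < CH by linarith) hCB hc00 (yG + 50)
  refine ⟨T2, hT2, ?_⟩
  intro T hT X hX1 hX2 ψ hψ hψ0 t ht1 ht2 ι _ Λ K q s u a d x D hQD hq hq0 hK hΛ hΛ2 hs
  obtain ⟨hℓ4, hbY, hYT, hyT, hT1T, hδ, ev1, ev2, ev3, ev4, ev5, ev6, ev7, ev8⟩ := hev T hT
  set ℓ := Real.log T with hℓ
  set Y := 5 * b * Real.log ℓ with hY
  have hT0 : 0 < T := by linarith
  have hT10 : 10 ≤ T := by linarith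
  have hY0 : 0 ≤ Y := by linarith
  have hℓ0 : 0 < ℓ := by linarith
  have hWt : Y + 5 < t := by linarith
  have hed := ed_pos b Y
  have he8 := e8_pos b Y
  have hed8 := ed_le_e8 b Y
  have hsT : 0 < √T := by linarith
  have hsq : √T * √T = T := Real.mul_self_sqrt hT0.le
  have hqr : √q ≤ r0 := by
    rw [Real.sqrt_le_left hr00.le]
    exact hq0.trans (min_le_right _ _)
  have hq1 : q ≤ 1 := hq0.trans (min_le_left _ _)
  have hsq0 : 0 ≤ √q := Real.sqrt_nonneg _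
  have hexpΛ : Real.exp (Λ + 1) ≤ L0 * T := by
    have e : L0 * T = Real.exp (cbe β + 1 + ℓ) := by
      rw [Real.exp_add, hℓ, Real.exp_log hT0]
    rw [e]
    apply Real.exp_le_exp.mpr
    linarith
  have hexpℓ : Real.exp (ℓ / 2) = √T := by
    rw [Real.sqrt_eq_rpow, Real.rpow_def_of_pos hT0, ← hℓ]
    congr 1
    ring
  have hsqL : √q * Real.exp (Λ + 1) ≤ r0 * L0 * T := by
    calc √q * Real.exp (Λ + 1) ≤ r0 * (L0 * T) := by gcongr
      _ = _ := by ring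
  have hE : 2 * Real.exp (ℓ / 2) + √q * Real.exp (Λ + 1) ≤ T :=
    ar_E hsq ev6 hT0 hr0a hexpℓ hsqL
  -- heights
  have hyr : ∀ y : ℝ, |y - t| ≤ Y → T / 2 ≤ y ∧ y ≤ 3 * T := by
    intro y hy
    obtain ⟨h1, h2⟩ := abs_le.mp hy
    constructor <;> linarith
  have hGAb : ∀ c y : ℝ, -1 ≤ c → c ≤ 1 → |y - t| ≤ Y → ‖GA β ⟨c, y⟩‖ ≤ 3 * CG * T := by
    intro c y hc1 hc2 hy
    obtain ⟨h1, h2⟩ := hyr y hy
    have h3 := hGA y (by linarith) c (abs_le.mpr ⟨by linarith, by linarith⟩)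
    refine h3.trans ?_
    have h4 : y ^ (-c) ≤ y := by
      calc y ^ (-c) ≤ y ^ (1 : ℝ) := Real.rpow_le_rpow_of_exponent_le (by linarith) (by linarith)
        _ = y := Real.rpow_one y
    calc CG * y ^ (-c) ≤ CG * (3 * T) := by
          apply mul_le_mul_of_nonneg_left _ hCG.le
          linarith
      _ = _ := by ring
  have hGHb : ∀ y : ℝ, |y - t| ≤ Y → ‖GA β ⟨0, y⟩ - gg β * HH β (T ^ 3)⁻¹ y‖ ≤ CH * (5 / T) := by
    intro y hy
    obtain ⟨h1, h2⟩ := hyr y hy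
    have hT30 : 0 < (T ^ 3)⁻¹ := by positivity
    have h3 : y * (T ^ 3)⁻¹ ≤ 3 * T * (T ^ 3)⁻¹ := mul_le_mul_of_nonneg_right h2 hT30.le
    have h40 : CH * (y * (T ^ 3)⁻¹) ≤ 1 := (mul_le_mul_of_nonneg_left h3 (by linarith)).trans hδ
    have h4 := hGH (T ^ 3)⁻¹ y hT30 (by linarith) h40
    refine h4.trans ?_
    apply mul_le_mul_of_nonneg_left _ (by linarith)
    have h5 : 1 / y ≤ 2 / T := by
      rw [div_le_div_iff₀ (by linarith) hT0]
      linarith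
    have h6 : 3 * T * (T ^ 3)⁻¹ ≤ 3 / T := by
      have e1 : 3 * T * (T ^ 3)⁻¹ = 3 / T * (1 / T) := by
        field_simp
      rw [e1]
      apply mul_le_of_le_one_right (by positivity)
      rw [div_le_one hT0]
      linarith
    calc 1 / y + y * (T ^ 3)⁻¹ ≤ 2 / T + 3 / T := add_le_add h5 (h3.trans h6)
      _ = 5 / T := by ring
  have hX1b : ∀ v : ℝ, |v| ≤ Y → ‖Xi β ⟨1, t + v⟩‖ ≤ CX / T ^ 2 := by
    intro v hv
    obtain ⟨h1, h2⟩ := hyr (t + v) (by rwa [add_sub_cancel_left])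
    refine (hX (t + v) (by linarith)).trans ?_
    rw [hCX]
    have h3 : (T / 2) ^ 2 ≤ (t + v) ^ 2 := pow_le_pow_left₀ (by linarith) h1 2
    calc CX' / (t + v) ^ 2 ≤ CX' / (T / 2) ^ 2 := by gcongr
      _ = 4 * CX' / T ^ 2 := by
        field_simp
        norm_num
  -- the polynomial
  set a₁ : ℕ → ℂ := fun n => ((ψ n : ℝ) : ℂ) * (mob n : ℂ) with ha₁
  set a₂ : ℕ → ℂ := fun n => ((1 - ψ n : ℝ) : ℂ) * (mob n : ℂ) with ha₂
  have hc1 : ∀ n, (starRingEnd ℂ) (a₁ n) = a₁ n := fun n => conj_real_mul _ _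
  have hc2 : ∀ n, (starRingEnd ℂ) (a₂ n) = a₂ n := fun n => conj_real_mul _ _
  have ha1n : ∀ n, ‖a₁ n‖ ≤ 1 := by
    intro n
    rw [ha₁]
    simp only
    rw [norm_mul, Complex.norm_real, Real.norm_of_nonneg (hψ n).1]
    calc ψ n * ‖(mob n : ℂ)‖ ≤ 1 * 1 := mul_le_mul (hψ n).2 (mob_norm n) (norm_nonneg _) zero_le_one
      _ = 1 := one_mul 1
  have hX2' : 2 ≤ X := by
    have : (2 : ℝ) ≤ X := by linarith
    exact_mod_cast this
  have h3X8 : 3 * X ≤ X ^ 8 := by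
    have h1 : X * 2 ^ 7 ≤ X * X ^ 7 := Nat.mul_le_mul_left _ (Nat.pow_le_pow_left hX2' 7)
    calc 3 * X ≤ X * 2 ^ 7 := by omega
      _ ≤ X * X ^ 7 := h1
      _ = X ^ 8 := by ring
  have hsplit : ∀ z : ℂ, AH.PP (Finset.Icc 1 (X ^ 8)) (fun n => (mob n : ℂ)) z =
      AH.PP (Finset.Icc 1 (3 * X)) a₁ z + AH.PP (Finset.Icc 1 (X ^ 8)) a₂ z := by
    intro z
    have h1 : AH.PP (Finset.Icc 1 (3 * X)) a₁ z = AH.PP (Finset.Icc 1 (X ^ 8)) a₁ z := by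
      unfold AH.PP
      apply Finset.sum_subset
      · intro n hn
        rw [Finset.mem_Icc] at hn ⊢
        exact ⟨hn.1, hn.2.trans h3X8⟩
      · intro n hn hn2
        rw [Finset.mem_Icc] at hn hn2
        have : 3 * X < n := by
          by_contra hc
          exact hn2 ⟨hn.1, by omega⟩
        rw [ha₁]
        simp only
        rw [hψ0 n this, Complex.ofReal_zero, zero_mul, zero_mul]
    rw [h1]
    unfold AH.PP
    rw [← Finset.sum_add_distrib]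
    apply Finset.sum_congr rfl
    intro n _
    rw [ha₁, ha₂]
    push_cast
    ring
  set Q : ℝ := 2 * √(6 * R * T) with hQ
  have hQ0 : 0 ≤ Q := by positivity
  have hP1 : ∀ c y : ℝ, c ≤ 0 → ‖AH.PP (Finset.Icc 1 (3 * X)) a₁ ⟨c, y⟩‖ ≤ Q := by
    intro c y hc
    refine (PP_le ha1n hc y).trans ?_
    rw [hQ]
    apply mul_le_mul_of_nonneg_left _ (by norm_num)
    apply Real.sqrt_le_sqrt
    push_cast
    linarith
  have htl : ∀ z : ℂ, z.re = -1 → ‖(starRingEnd ℂ) (riemannZeta (1 / 2 - (starRingEnd ℂ) z))⁻¹ -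
      AH.PP (Finset.Icc 1 (X ^ 8)) (fun n => (mob n : ℂ)) z‖ ≤ Ct / T ^ 2 := by
    intro z hz
    refine (htail (X ^ 8) (Nat.one_le_pow _ _ (by omega)) z hz).trans ?_
    have hXr : (0 : ℝ) < X := by linarith
    have h1 : (((X ^ 8 : ℕ) : ℝ)) ^ (-(1 / 4) : ℝ) = ((X : ℝ) ^ 2)⁻¹ := by
      push_cast
      rw [← Real.rpow_natCast, ← Real.rpow_mul hXr.le, ← Real.rpow_natCast,
        ← Real.rpow_neg hXr.le]
      norm_num
    rw [h1, div_eq_mul_inv]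
    apply mul_le_mul_of_nonneg_left _ hCt.le
    apply inv_anti₀ (by positivity)
    exact pow_le_pow_left₀ hT0.le hX1 2
  -- size of the added part
  set PB : ℝ := 2 * Real.exp (18 * ℓ) + q + Λ * Real.exp (12 * (Λ + 1)) with hPB
  have hPB0 : 0 ≤ PB := by positivity
  have hPB1 : PB ≤ P0 * T ^ 18 := by
    have h1 : Real.exp (18 * ℓ) = T ^ 18 := by
      rw [show (18 : ℝ) * ℓ = ((18 : ℕ) : ℝ) * ℓ by norm_num, Real.exp_nat_mul, hℓ,
        Real.exp_log hT0]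
    have h2 : Λ * Real.exp (12 * (Λ + 1)) ≤ (L0 * T) ^ 13 := by
      have h3 : Λ ≤ Real.exp (Λ + 1) := by
        have := Real.add_one_le_exp (Λ + 1)
        linarith
      have h4 : Real.exp (12 * (Λ + 1)) = Real.exp (Λ + 1) ^ 12 := by
        rw [← Real.exp_nat_mul]
        norm_num
      calc Λ * Real.exp (12 * (Λ + 1)) ≤ Real.exp (Λ + 1) * Real.exp (Λ + 1) ^ 12 := by
            rw [h4]
            gcongr
        _ = Real.exp (Λ + 1) ^ 13 := by ring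
        _ ≤ (L0 * T) ^ 13 := by gcongr
    have h5 : (L0 * T) ^ 13 ≤ L0 ^ 13 * T ^ 18 := by
      rw [mul_pow]
      apply mul_le_mul_of_nonneg_left _ (by positivity)
      exact pow_le_pow_right₀ (by linarith) (by norm_num)
    have h6 : 1 ≤ T ^ 18 := one_le_pow₀ (by linarith)
    rw [hPB, h1, hP0]
    have e : (3 + L0 ^ 13) * T ^ 18 = 3 * T ^ 18 + L0 ^ 13 * T ^ 18 := by ring
    rw [e]
    linarith
  set E3 : ℝ := Real.exp (3 / 8 * Real.cosh (b⁻¹ * Y)) with hE3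
  have hE31 : 1 ≤ E3 := by
    apply Real.one_le_exp
    have := Real.cosh_pos (b⁻¹ * Y)
    positivity
  have hHbox : ∀ z : ℂ, |z.im - t| ≤ Y + 4 → |z.re| ≤ 6 →
      ‖Hh b t ℓ (3 * (Y + 5)) Λ a d x z‖ ≤ PB * E3 := fun z h1 h2 =>
    Hh_box hQD hb hY0 hℓ0 hΛ hq.le h1 h2
  have hDbox : ∀ c τ : ℝ, -1 ≤ c → c ≤ 1 → |τ - t| ≤ Y → ‖D ⟨c, τ⟩‖ ≤
      (1 + CB * (4 * T) ^ 12 + PB) * E3 * Real.exp (Real.log (3 * T) ^ 2) := by
    intro c τ hc1 hc2 hτ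
    obtain ⟨h1, h2⟩ := hyr τ hτ
    have him : ∀ z : ℂ, |z.im - τ| < 4 → |z.im - t| < Y + 4 := by
      intro z hz
      obtain ⟨z1, z2⟩ := abs_lt.mp hz
      obtain ⟨z3, z4⟩ := abs_le.mp hτ
      exact abs_lt.mpr ⟨by linarith, by linarith⟩
    have h3 := hBox τ (by linarith) D (fun z => (1 - u * Xi β z) +
      Hh b t ℓ (3 * (Y + 5)) Λ a d x z) ((1 + CB * (4 * T) ^ 12 + PB) * E3) (by positivity)
      (fun z hz => hQD.hD z (by linarith [him z hz])) (fun z hz => hQD.hDe z (by linarith [him z hz]))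
      (by
        intro z hz hre
        obtain ⟨z1, z2⟩ := abs_lt.mp hz
        have h4 := hXb z.re z.im (4 * T) hre (by linarith) (by linarith)
        have h5 := hHbox z (him z hz).le hre
        have h6 : ‖1 - u * Xi β z‖ ≤ 1 + CB * (4 * T) ^ 12 := by
          refine (norm_sub_le _ _).trans ?_
          rw [norm_one, norm_mul, hQD.hu, one_mul]
          linarith
        refine (norm_add_le _ _).trans ?_
        have h7 : (1 + CB * (4 * T) ^ 12) ≤ (1 + CB * (4 * T) ^ 12) * E3 :=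
          le_mul_of_one_le_right (by positivity) hE31
        calc _ ≤ (1 + CB * (4 * T) ^ 12) * E3 + PB * E3 := by linarith
          _ = _ := by ring) c hc1 hc2
    refine h3.trans ?_
    apply mul_le_mul_of_nonneg_left _ (by positivity)
    apply Real.exp_le_exp.mpr
    have h8 : 0 ≤ Real.log τ := Real.log_nonneg (by linarith)
    exact pow_le_pow_left₀ h8 (Real.log_le_log (by linarith) h2) 2
  -- the parts
  have r1 := right_P (N := X ^ 8) (M := 3 * X) (a₁ := a₁) (a₂ := a₂) (CX := CX / T ^ 2)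
    (tl := Ct / T ^ 2) (Q := Q) (Bh := PB * E3) hQD hb hbY hℓ0 hΛ hq hT0 hWt (by positivity)
    (by positivity) hE hX1b hc1 hc2 hsplit htl hQ0 hP1 (by positivity)
    (fun z h1 h2 => hHbox z (by linarith) h2)
  have r2 := shift_P hQD (by linarith) hY0 hDbox
  have r3 := left_P1 (N := X ^ 8) (tl := Ct / T ^ 2) (CX := CX / T ^ 2) (CG := CG) hQD hb hbY hℓ0
    hΛ hq hT0 hWt hCG (by positivity) (by positivity) hGAb hX1b htl
  have r4 := left_P2 (N := X ^ 8) (X := 3 * X) (a₁ := a₁) (a₂ := a₂) (u := u)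
    (Q := Q) (δ := (T ^ 3)⁻¹) hQD.hu (by linarith) hbY (by linarith) hCG (show 0 < CH by linarith)
    hT0 hQ0 hGAb hGHb hP1 hsplit
  have r5 := axis_bound (t := t) (b := b) (Y := Y) (B₀ := 2 * ℓ) (s := s) (V := 3 * (Y + 5)) hQD.ac hQD.al hQD.a0 hQD.av
    hQD.ab (by linarith) hQD.hq hb0 hY0 hℓ0 hΛ hK (by linarith) hs (3 * X) a₁
  set J2 := ∫ v in (-Y)..Y, ‖AH.PP (Finset.Icc 1 (X ^ 8)) a₂ ⟨-1, t + v⟩‖ * kk b v with hJ2
  set J1 := ‖VW (fun z => HH β (T ^ 3)⁻¹ z.im * AH.PP (Finset.Icc 1 (3 * X)) a₁ z) b⁻¹ Y t 0‖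
    with hJ1
  set J0 := ‖VW (fun z => Hh b t ℓ (3 * (Y + 5)) Λ a d x z *
    AH.PP (Finset.Icc 1 (3 * X)) a₁ (-z)) b⁻¹ Y t 0‖ with hJ0
  have r5' : J0 ≤ AX (3 * X) a₁ b Y ℓ K q s t := r5
  have hJ20 : 0 ≤ J2 := by
    rw [hJ2]
    apply intervalIntegral.integral_nonneg (by linarith)
    intro v _
    exact mul_nonneg (norm_nonneg _) (kk_nonneg _ _)
  have hJ10 : 0 ≤ J1 := norm_nonneg _
  have hta : AH.S0 * ta b Y (Real.log 2) ≤ b / 20 + 4 * b * AH.S0 * ed b Y := by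
    unfold ta
    have : AH.S0 * (6 * b * Real.exp (-((b - 1) * Real.log 2))) ≤ b / 20 := by
      calc AH.S0 * (6 * b * Real.exp (-((b - 1) * Real.log 2))) =
          b * (AH.S0 * (6 * Real.exp (-((b - 1) * Real.log 2)))) := by ring
        _ ≤ b * (1 / 20) := mul_le_mul_of_nonneg_left hb2 hb0.le
        _ = b / 20 := by ring
    rw [mul_add]
    linarith
  have hCt1 : 6 * Ct / T ≤ 1 / 100 := by
    refine le_trans ?_ ev2
    apply div_le_div_of_nonneg_right _ hT0.le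
    have : 0 ≤ CG * Ct := by positivity
    linarith
  have hCt2 : 18 * CG * Ct / T ≤ 1 / 100 := by
    refine le_trans ?_ ev2
    apply div_le_div_of_nonneg_right _ hT0.le
    have : 0 ≤ CG * Ct := by positivity
    linarith
  have er1 := ar1 hb0 (by linarith) hCX0.le hS0 ev1 hCt1
  have er2 := ar2 hb0 hT0 hsq ev6 hCG.le hCX0.le hS0 hCt2 ev4 hexpℓ hsqL hr0b
  have er3 := ar3 hb0 hT0 hR ev3
  rw [← hQ] at er3
  have er4 := ar4 (E3 := E3) (EL := Real.exp (Real.log (3 * T) ^ 2)) (Q := Q) (c0 := c0) hb0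
    (by linarith) hR hS0 hCG.le hCB.le (by positivity) hPB0 hPB1 hQ0 (arQ (by linarith) hR)
    (Real.one_le_exp (by positivity)) (ed_e8 b Y) hc0 ev8
  exact ar_fin hb exp_neg_two hCG.le hgg hT0.le hJ10 hJ20 r1 r2 r3 r4 r5' hta er1 er2 er3 er4

end Pool.Agent.T9h53.AJ
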