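import Pool.Agent.T9h53.AJ.Wr

/-! # The left side -/

set_option autoImplicit false

open Complex Filter Topology Set MeasureTheory

namespace Pool.Agent.T9h53.AJ

open Pool.Agent.T9h53.SZ Pool.Agent.T9h53.AH Pool.Agent.T9h53.EQ
open Pool.Agent.TH823.MRS (mob)

variable {ι : Type*} [Fintype ι]

theorem left_P1 {β b Y ℓ Λ K q t T CG CX tl : ℝ} {u : ℂ} {a : ℝ → ℂ} {d : ι → ℂ} {x : ι → ℝ}
    {D : ℂ → ℂ} (h : QD β b Y ℓ Λ K q t u a d x D) (hb : 10 ≤ b) (hbY : b ≤ Y) (hℓ : 0 < ℓ)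
    (hΛ : 0 < Λ) (hq : 0 < q) (hT : 0 < T) (hWt : Y + 5 < t) (hCG : 0 < CG) (hCX : 0 ≤ CX)
    (htl : 0 ≤ tl)
    (hGA : ∀ c y : ℝ, -1 ≤ c → c ≤ 1 → |y - t| ≤ Y → ‖GA β ⟨c, y⟩‖ ≤ 3 * CG * T)
    (hX1 : ∀ v : ℝ, |v| ≤ Y → ‖Xi β ⟨1, t + v⟩‖ ≤ CX) {N : ℕ}
    (htail : ∀ z : ℂ, z.re = -1 → ‖(starRingEnd ℂ) (riemannZeta (1 / 2 - (starRingEnd ℂ) z))⁻¹ -
      AH.PP (Finset.Icc 1 N) (fun n => (mob n : ℂ)) z‖ ≤ tl) :
    ‖VW D b⁻¹ Y t (-1)‖ ≤
      ‖VW (fun z => u * GA β z * AH.PP (Finset.Icc 1 N) (fun n => (mob n : ℂ)) z) b⁻¹ Y t (-1)‖ +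
      (3 * CG * T) * (tl + (1 + (2 * Real.exp (ℓ / 2) + √q * Real.exp (Λ + 1))) * (CX * AH.S0)) *
        (6 * b) := by
  have hb0 : 0 < b := by linarith
  have hY0 : 0 ≤ Y := by linarith
  have hS0 := S0_nonneg
  set H := Hh b t ℓ (3 * (Y + 5)) Λ a d x with hH
  have hin : ∀ c v : ℝ, -Y ≤ v → v ≤ Y → |(⟨c, t + v⟩ : ℂ).im - t| < Y + 5 := by
    intro c v h1 h2
    simp only [add_sub_cancel_left]
    exact abs_lt.mpr ⟨by linarith, by linarith⟩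
  have cD : ContinuousOn (fun v : ℝ => D ⟨-1, t + v⟩) (Icc (-Y) Y) :=
    line_cont fun v h1 h2 => (h.hD _ (hin (-1) v h1 h2)).differentiableAt
  have cG : ContinuousOn (fun v : ℝ => u * GA β ⟨-1, t + v⟩ *
      AH.PP (Finset.Icc 1 N) (fun n => (mob n : ℂ)) ⟨-1, t + v⟩) (Icc (-Y) Y) :=
    line_cont (F := fun z => u * GA β z * AH.PP (Finset.Icc 1 N) (fun n => (mob n : ℂ)) z)
      fun v h1 h2 => ((GA_cd β (by linarith)).const_mul u).mul (PP_diff _ _ _)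
  have s1 := VW_close2 (F := D)
    (G := fun z => u * GA β z * AH.PP (Finset.Icc 1 N) (fun n => (mob n : ℂ)) z)
    (f := fun _ => 0) continuous_const (b := b) (Y := Y) (t := t) (c := -1) (B := 0)
    (B' := (3 * CG * T) * (tl + (1 + (2 * Real.exp (ℓ / 2) + √q * Real.exp (Λ + 1))) *
      (CX * AH.S0))) hb0 hY0 (by positivity) cD cG (by
      intro v h1 h2
      have hv : |v| ≤ Y := abs_le.mpr ⟨h1, h2⟩
      set z : ℂ := ⟨-1, t + v⟩ with hz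
      have him : 0 < z.im := by
        rw [hz]
        simp only
        linarith
      have e4 : -(starRingEnd ℂ) z = ⟨1, t + v⟩ := by
        rw [hz]
        apply Complex.ext <;> simp
      have hfe := zeta_fe (z := z) him.ne'
      have hXZ : XZ z ≠ 0 := XZ_ne him.ne'
      have hXn : Xi β z ≠ 0 := Xi_ne β z
      have hXc := Xi_conj β him
      rw [e4] at hXc
      have hζ1 : riemannZeta (1 / 2 - (starRingEnd ℂ) z) ≠ 0 := by
        rw [sub_eq_add_neg, e4]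
        apply riemannZeta_ne_zero_of_one_lt_re
        norm_num
      have hiz : ‖(starRingEnd ℂ) (riemannZeta (1 / 2 - (starRingEnd ℂ) z))⁻¹‖ ≤ AH.S0 := by
        rw [Complex.norm_conj, sub_eq_add_neg, e4]
        exact inv_zeta_le (by simp)
      have htz := htail z rfl
      have hDz := h.hDe z (hin (-1) v h1 h2)
      rw [← hH, hfe] at hDz
      set Pz := AH.PP (Finset.Icc 1 N) (fun n => (mob n : ℂ)) z with hPz
      rw [map_inv₀] at htz hiz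
      have hζ2 : (starRingEnd ℂ) (riemannZeta (1 / 2 - (starRingEnd ℂ) z)) ≠ 0 := by
        rw [Ne, map_eq_zero]
        exact hζ1
      set W := (starRingEnd ℂ) (riemannZeta (1 / 2 - (starRingEnd ℂ) z)) with hW
      have hGz : ‖GA β z‖ ≤ 3 * CG * T :=
        hGA (-1) (t + v) le_rfl (by norm_num) (by rwa [add_sub_cancel_left])
      have hXi : ‖(Xi β z)⁻¹‖ ≤ CX := by
        rw [← hXc, Complex.norm_conj]
        exact hX1 v hv
      have hGe : GA β z = -(Xi β z) / XZ z := rfl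
      have e5 : D z - u * GA β z * Pz = u * GA β z * (W⁻¹ - Pz) -
          (1 + H z) * (GA β z * ((Xi β z)⁻¹ * W⁻¹)) := by
        have e6 : D z = ((1 - u * Xi β z) + H z) * (XZ z)⁻¹ * W⁻¹ := by
          rw [hDz]
          field_simp
        rw [e6, hGe]
        field_simp
        ring
      have hkw := kw_kk (c := -1) v hb (by norm_num)
      have hk0 := kk_nonneg b v
      have hside := Hh_side h hb hY0 hℓ hΛ hq (Or.inr rfl) v
      rw [← hH, ← hz] at hside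
      rw [e5, sub_mul]
      have p1 : ‖u * GA β z * (W⁻¹ - Pz) * kw b⁻¹ (-1) v‖ ≤ (3 * CG * T) * tl * kk b v := by
        rw [norm_mul, norm_mul, norm_mul, h.hu, one_mul]
        exact mul_le_mul (mul_le_mul hGz htz (norm_nonneg _) (by positivity)) hkw (norm_nonneg _)
          (by positivity)
      have p2 : ‖(1 + H z) * kw b⁻¹ (-1) v‖ ≤
          (1 + (2 * Real.exp (ℓ / 2) + √q * Real.exp (Λ + 1))) * kk b v := by
        rw [add_mul, one_mul, add_mul, one_mul]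
        exact (norm_add_le _ _).trans (add_le_add hkw hside)
      have p3 : ‖GA β z * ((Xi β z)⁻¹ * W⁻¹)‖ ≤ (3 * CG * T) * (CX * AH.S0) := by
        rw [norm_mul, norm_mul (Xi β z)⁻¹]
        exact mul_le_mul hGz (mul_le_mul hXi hiz (norm_nonneg _) hCX) (by positivity) (by positivity)
      have p4 : ‖(1 + H z) * (GA β z * ((Xi β z)⁻¹ * W⁻¹)) * kw b⁻¹ (-1) v‖ ≤
          ((1 + (2 * Real.exp (ℓ / 2) + √q * Real.exp (Λ + 1))) * kk b v) *
            ((3 * CG * T) * (CX * AH.S0)) := by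
        have e7 : (1 + H z) * (GA β z * ((Xi β z)⁻¹ * W⁻¹)) * kw b⁻¹ (-1) v =
            ((1 + H z) * kw b⁻¹ (-1) v) * (GA β z * ((Xi β z)⁻¹ * W⁻¹)) := by ring
        rw [e7, norm_mul]
        exact mul_le_mul p2 p3 (norm_nonneg _) (by positivity)
      refine (norm_sub_le _ _).trans ((add_le_add p1 p4).trans (le_of_eq ?_))
      ring)
  rw [zero_mul, add_zero] at s1
  exact s1

lemma left_P2 {β b Y t T CG CH δ Q : ℝ} {u : ℂ} {N X : ℕ} {a₁ a₂ : ℕ → ℂ} (hu : ‖u‖ = 1)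
    (hb : 1 ≤ b) (hY : b ≤ Y) (hWt : Y < t) (hCG : 0 < CG) (hCH : 0 < CH) (hT : 0 < T)
    (hQ : 0 ≤ Q)
    (hGA : ∀ c y : ℝ, -1 ≤ c → c ≤ 1 → |y - t| ≤ Y → ‖GA β ⟨c, y⟩‖ ≤ 3 * CG * T)
    (hGH : ∀ y : ℝ, |y - t| ≤ Y → ‖GA β ⟨0, y⟩ - gg β * HH β δ y‖ ≤ CH * (5 / T))
    (hP1 : ∀ c y : ℝ, c ≤ 0 → ‖AH.PP (Finset.Icc 1 X) a₁ ⟨c, y⟩‖ ≤ Q)
    (hsplit : ∀ z : ℂ, AH.PP (Finset.Icc 1 N) (fun n => (mob n : ℂ)) z =
      AH.PP (Finset.Icc 1 X) a₁ z + AH.PP (Finset.Icc 1 N) a₂ z) :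
    ‖VW (fun z => u * GA β z * AH.PP (Finset.Icc 1 N) (fun n => (mob n : ℂ)) z) b⁻¹ Y t (-1)‖ ≤
      (3 * CG * T) * (∫ v in (-Y)..Y, ‖AH.PP (Finset.Icc 1 N) a₂ ⟨-1, t + v⟩‖ * kk b v) +
      ‖gg β‖ * ‖VW (fun z => HH β δ z.im * AH.PP (Finset.Icc 1 X) a₁ z) b⁻¹ Y t 0‖ +
      (CH * (5 / T)) * Q * (6 * b) + 6 * CG * T * Q * ed b Y := by
  have hb0 : 0 < b := by linarith
  have hY0 : 0 ≤ Y := by linarith
  have hed := ed_pos b Y
  have hpos : ∀ z : ℂ, |z.im - t| ≤ Y → 0 < z.im := by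
    intro z hz
    have := (abs_le.mp hz).1
    linarith
  set P1 : ℂ → ℂ := AH.PP (Finset.Icc 1 X) a₁ with hP1d
  set P2 : ℂ → ℂ := AH.PP (Finset.Icc 1 N) a₂ with hP2d
  have dG : ∀ z : ℂ, |z.im - t| ≤ Y → DifferentiableAt ℂ (fun z => u * GA β z) z := fun z hz =>
    ((GA_analytic β (hpos z hz)).differentiableAt).const_mul u
  have dP1 : ∀ z : ℂ, DifferentiableAt ℂ P1 z := fun z => PP_diff _ _ _
  have dP2 : ∀ z : ℂ, DifferentiableAt ℂ P2 z := fun z => PP_diff _ _ _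
  have dA : ∀ z : ℂ, |z.im - t| ≤ Y → DifferentiableAt ℂ (fun z => u * GA β z * P2 z) z :=
    fun z h1 => (dG z h1).mul (dP2 z)
  have dC : ∀ z : ℂ, |z.im - t| ≤ Y → DifferentiableAt ℂ (fun z => u * GA β z * P1 z) z :=
    fun z h1 => (dG z h1).mul (dP1 z)
  have hin : ∀ c v : ℝ, -Y ≤ v → v ≤ Y → |(⟨c, t + v⟩ : ℂ).im - t| ≤ Y := by
    intro c v h1 h2
    simp only [add_sub_cancel_left]
    exact abs_le.mpr ⟨h1, h2⟩
  have cA : ContinuousOn (fun v : ℝ => u * GA β ⟨-1, t + v⟩ * P2 ⟨-1, t + v⟩) (Icc (-Y) Y) :=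
    line_cont (F := fun z => u * GA β z * P2 z) fun v h1 h2 => dA _ (hin _ v h1 h2)
  have cC : ContinuousOn (fun v : ℝ => u * GA β ⟨-1, t + v⟩ * P1 ⟨-1, t + v⟩) (Icc (-Y) Y) :=
    line_cont (F := fun z => u * GA β z * P1 z) fun v h1 h2 => dC _ (hin _ v h1 h2)
  have hdec : VW (fun z => u * GA β z * AH.PP (Finset.Icc 1 N) (fun n => (mob n : ℂ)) z) b⁻¹ Y t
      (-1) = VW (fun z => u * GA β z * P2 z) b⁻¹ Y t (-1) +
        VW (fun z => u * GA β z * P1 z) b⁻¹ Y t (-1) := by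
    rw [← VW_add (F := fun z => u * GA β z * P2 z) (G := fun z => u * GA β z * P1 z) hY0 cA cC]
    apply VW_congr hY0
    intro v _ _
    rw [hsplit]
    ring
  rw [hdec]
  have p1 : ‖VW (fun z => u * GA β z * P2 z) b⁻¹ Y t (-1)‖ ≤
      (3 * CG * T) * ∫ v in (-Y)..Y, ‖P2 ⟨-1, t + v⟩‖ * kk b v := by
    apply VW_le_kk (f := fun x => ‖P2 ⟨-1, x⟩‖) (PP_cont _ _ _) hb0 hY0
      (by rw [abs_neg, abs_one]; exact hb) (by positivity)
    intro v h1 h2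
    rw [norm_mul, norm_mul, hu, one_mul]
    have k1 := hGA (-1) (t + v) le_rfl (by norm_num) (by
      rw [add_sub_cancel_left]
      exact abs_le.mpr ⟨h1, h2⟩)
    exact mul_le_mul_of_nonneg_right k1 (norm_nonneg _)
  have p3a : ‖VW (fun z => u * GA β z * P1 z) b⁻¹ Y t (-1)‖ ≤
      ‖VW (fun z => u * GA β z * P1 z) b⁻¹ Y t 0‖ + 2 * (3 * CG * T * Q) * ed b Y := by
    apply VW_move hb hY0 le_rfl (by norm_num) (by norm_num) (by norm_num) (by positivity)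
    · intro z h1 h2 h3
      exact dC z h3
    · intro c y h1 h2 h3
      rw [norm_mul, norm_mul, hu, one_mul]
      exact mul_le_mul (hGA c y h1 (by linarith) h3) (hP1 c y h2) (norm_nonneg _) (by positivity)
  have cD : ContinuousOn (fun v : ℝ => u * GA β ⟨0, t + v⟩ * P1 ⟨0, t + v⟩) (Icc (-Y) Y) :=
    line_cont (F := fun z => u * GA β z * P1 z) fun v h1 h2 => dC _ (hin _ v h1 h2)
  have cP : ContinuousOn (fun v : ℝ => P1 ⟨0, t + v⟩) (Icc (-Y) Y) :=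
    line_cont (F := P1) fun v _ _ => dP1 _
  have cE : ContinuousOn (fun v : ℝ => (u * gg β) * (HH β δ (t + v) * P1 ⟨0, t + v⟩))
      (Icc (-Y) Y) := by
    have hc := (HH_cont β δ).comp (continuous_const.add continuous_id : Continuous fun v : ℝ => t + v)
    exact continuousOn_const.mul (hc.continuousOn.mul cP)
  have p3b : ‖VW (fun z => u * GA β z * P1 z) b⁻¹ Y t 0‖ ≤
      ‖VW (fun z => (u * gg β) * (HH β δ z.im * P1 z)) b⁻¹ Y t 0‖ +
        (CH * (5 / T)) * Q * (6 * b) := by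
    apply VW_close (G := fun z => (u * gg β) * (HH β δ z.im * P1 z)) hb0 hY0
      (by rw [abs_zero]; linarith) (by positivity) cD cE
    intro v h1 h2
    simp only
    have e1 : u * GA β ⟨0, t + v⟩ * P1 ⟨0, t + v⟩ - u * gg β * (HH β δ (t + v) * P1 ⟨0, t + v⟩) =
        u * ((GA β ⟨0, t + v⟩ - gg β * HH β δ (t + v)) * P1 ⟨0, t + v⟩) := by ring
    rw [e1, norm_mul, hu, one_mul, norm_mul]
    exact mul_le_mul (hGH (t + v) (by
      rw [add_sub_cancel_left]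
      exact abs_le.mpr ⟨h1, h2⟩)) (hP1 0 _ le_rfl) (norm_nonneg _) (by positivity)
  rw [VW_smul (F := fun z => HH β δ z.im * P1 z), norm_mul, norm_mul, hu, one_mul] at p3b
  have htri := norm_add_le (VW (fun z => u * GA β z * P2 z) b⁻¹ Y t (-1))
    (VW (fun z => u * GA β z * P1 z) b⁻¹ Y t (-1))
  linarith

/-- the shift of the quotient -/
lemma shift_P {β b Y ℓ Λ K q t B : ℝ} {u : ℂ} {a : ℝ → ℂ} {d : ι → ℂ} {x : ι → ℝ}
    {D : ℂ → ℂ} (h : QD β b Y ℓ Λ K q t u a d x D) (hb : 1 ≤ b) (hY : 0 ≤ Y)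
    (hbox : ∀ c τ : ℝ, -1 ≤ c → c ≤ 1 → |τ - t| ≤ Y → ‖D ⟨c, τ⟩‖ ≤ B) :
    ‖VW D b⁻¹ Y t 1‖ ≤ ‖VW D b⁻¹ Y t (-1)‖ + 4 * B * ed b Y := by
  have hb0 : 0 < b := by linarith
  have hshift : ‖VW D b⁻¹ Y t 1 - VW D b⁻¹ Y t (-1)‖ ≤ 2 * (B * ed b Y * (1 - -1)) := by
    apply VW_shift hY (by norm_num) (sc hb0 (by rw [abs_neg, abs_one]; exact hb))
      (sc hb0 (by rw [abs_one]; exact hb)) (inv_pos.mpr hb0).le
    · intro z hz1 hz2 hz3 hz4
      exact (h.hD z (abs_lt.mpr ⟨by linarith, by linarith⟩)).differentiableAt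
    · intro c hc1 hc2
      exact hbox c _ hc1 hc2 (by rw [add_sub_cancel_left, abs_neg, abs_of_nonneg hY])
    · intro c hc1 hc2
      exact hbox c _ hc1 hc2 (by rw [add_sub_cancel_left, abs_of_nonneg hY])
  have htri := norm_add_le (VW D b⁻¹ Y t (-1)) (VW D b⁻¹ Y t 1 - VW D b⁻¹ Y t (-1))
  rw [add_sub_cancel] at htri
  linarith

end Pool.Agent.T9h53.AJ
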