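import Pool.Agent.T9h53.AJ.Wa

/-! # The right side -/

set_option autoImplicit false

open Complex Filter Topology Set MeasureTheory

namespace Pool.Agent.T9h53.AJ

open Pool.Agent.T9h53.SZ Pool.Agent.T9h53.AH Pool.Agent.T9h53.EQ
open Pool.Agent.TH823.MRS (mob)

variable {ι : Type*} [Fintype ι]

lemma VW_close2 {F G : ℂ → ℂ} {f : ℝ → ℝ} (hf : Continuous f) {b Y t c B B' : ℝ} (hb : 0 < b)
    (hY : 0 ≤ Y) (hB' : 0 ≤ B')
    (hF : ContinuousOn (fun v : ℝ => F ⟨c, t + v⟩) (Icc (-Y) Y))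
    (hG : ContinuousOn (fun v : ℝ => G ⟨c, t + v⟩) (Icc (-Y) Y))
    (h : ∀ v : ℝ, -Y ≤ v → v ≤ Y → ‖(F ⟨c, t + v⟩ - G ⟨c, t + v⟩) * kw b⁻¹ c v‖ ≤
      (B * f (t + v) + B') * kk b v) :
    ‖VW F b⁻¹ Y t c‖ ≤ ‖VW G b⁻¹ Y t c‖ + B * (∫ v in (-Y)..Y, f (t + v) * kk b v) +
      B' * (6 * b) := by
  have h1 : VW F b⁻¹ Y t c = VW G b⁻¹ Y t c + VW (fun z => F z - G z) b⁻¹ Y t c := by
    rw [← VW_add hY hG (hF.sub hG)]
    apply VW_congr hY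
    intro v _ _
    ring
  rw [h1]
  have hk := kk_cont b
  have hfc : Continuous fun v : ℝ => f (t + v) * kk b v := by fun_prop
  have h2 : ‖VW (fun z => F z - G z) b⁻¹ Y t c‖ ≤
      B * (∫ v in (-Y)..Y, f (t + v) * kk b v) + B' * (6 * b) := by
    unfold VW
    have h3 : ‖∫ v in (-Y)..Y, (F ⟨c, t + v⟩ - G ⟨c, t + v⟩) * kw b⁻¹ c v‖ ≤
        ∫ v in (-Y)..Y, (B * (f (t + v) * kk b v) + B' * kk b v) := by
      apply intervalIntegral.norm_integral_le_of_norm_le (by linarith)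
      · refine Filter.Eventually.of_forall fun v hv => ?_
        refine (h v hv.1.le hv.2).trans (le_of_eq ?_)
        ring
      · exact ((hfc.const_mul B).add (hk.const_mul B')).intervalIntegrable _ _
    rw [intervalIntegral.integral_add ((hfc.const_mul B).intervalIntegrable _ _)
      ((hk.const_mul B').intervalIntegrable _ _), intervalIntegral.integral_const_mul,
      intervalIntegral.integral_const_mul] at h3
    refine h3.trans (add_le_add le_rfl ?_)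
    exact mul_le_mul_of_nonneg_left (kk_mass hb hY) hB'
  have h3 := norm_add_le (VW G b⁻¹ Y t c) (VW (fun z => F z - G z) b⁻¹ Y t c)
  linarith

lemma PP_conj {S : Finset ℕ} {a : ℕ → ℂ} (ha : ∀ n, (starRingEnd ℂ) (a n) = a n) (z : ℂ) :
    (starRingEnd ℂ) (PP S a z) = PP S a ((starRingEnd ℂ) z) := by
  unfold AH.PP
  rw [map_sum]
  apply Finset.sum_congr rfl
  intro n _
  rw [map_mul, map_mul, ha, conj_ofReal, ← Complex.exp_conj, map_mul]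
  rw [conj_ofReal]

lemma PP_refl {S : Finset ℕ} {a : ℕ → ℂ} (ha : ∀ n, (starRingEnd ℂ) (a n) = a n) (c y : ℝ) :
    PP S a (-(⟨c, y⟩ : ℂ)) = (starRingEnd ℂ) (PP S a ⟨-c, y⟩) := by
  rw [PP_conj ha]
  congr 1

/-- **the right side** -/
theorem right_P {β b Y ℓ Λ K q t T CX tl Q Bh : ℝ} {u : ℂ} {a : ℝ → ℂ} {d : ι → ℂ} {x : ι → ℝ}
    {D : ℂ → ℂ} (h : QD β b Y ℓ Λ K q t u a d x D) (hb : 10 ≤ b) (hbY : b ≤ Y) (hℓ : 0 < ℓ)
    (hΛ : 0 < Λ) (hq : 0 < q) (hT : 0 < T) (hWt : Y + 5 < t) (hCX : 0 ≤ CX) (htl : 0 ≤ tl)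
    (hE : 2 * Real.exp (ℓ / 2) + √q * Real.exp (Λ + 1) ≤ T)
    (hX1 : ∀ v : ℝ, |v| ≤ Y → ‖Xi β ⟨1, t + v⟩‖ ≤ CX)
    {N M : ℕ} {a₁ a₂ : ℕ → ℂ} (ha₁ : ∀ n, (starRingEnd ℂ) (a₁ n) = a₁ n)
    (ha₂ : ∀ n, (starRingEnd ℂ) (a₂ n) = a₂ n)
    (hsplit : ∀ z : ℂ, PP (Finset.Icc 1 N) (fun n => (mob n : ℂ)) z =
      PP (Finset.Icc 1 M) a₁ z + PP (Finset.Icc 1 N) a₂ z)
    (htail : ∀ z : ℂ, z.re = -1 → ‖(starRingEnd ℂ) (riemannZeta (1 / 2 - (starRingEnd ℂ) z))⁻¹ -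
      PP (Finset.Icc 1 N) (fun n => (mob n : ℂ)) z‖ ≤ tl)
    (hQ : 0 ≤ Q) (hP1 : ∀ c y : ℝ, c ≤ 0 → ‖PP (Finset.Icc 1 M) a₁ ⟨c, y⟩‖ ≤ Q) (hBh0 : 0 ≤ Bh)
    (hBh : ∀ z : ℂ, |z.im - t| ≤ Y → |z.re| ≤ 6 → ‖Hh b t ℓ (3 * (Y + 5)) Λ a d x z‖ ≤ Bh) :
    (2 * b * Real.exp (-2) - 2 * ed b Y) - AH.S0 * ta b Y (Real.log 2) ≤
      ‖VW D b⁻¹ Y t 1‖ +
      ‖VW (fun z => Hh b t ℓ (3 * (Y + 5)) Λ a d x z * PP (Finset.Icc 1 M) a₁ (-z)) b⁻¹ Y t 0‖ +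
      2 * (Bh * Q) * ed b Y +
      T * (∫ v in (-Y)..Y, ‖PP (Finset.Icc 1 N) a₂ ⟨-1, t + v⟩‖ * kk b v) +
      (CX * AH.S0 + T * tl) * (6 * b) := by
  have hb0 : 0 < b := by linarith
  have hY0 : 0 ≤ Y := by linarith
  have hS0 := S0_nonneg
  refine (right_mu (t := t) (by linarith) hbY).trans ?_
  set H := Hh b t ℓ (3 * (Y + 5)) Λ a d x with hH
  have dH : ∀ z, DifferentiableAt ℂ H z := fun z => Hh_diff b t ℓ _ Λ h.ac d x z
  have dP : ∀ z, DifferentiableAt ℂ (fun z => PP (Finset.Icc 1 M) a₁ (-z)) z := fun z =>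
    DifferentiableAt.comp z (g := PP (Finset.Icc 1 M) a₁) (f := fun z => -z) (PP_diff _ _ _)
      (by fun_prop)
  have dHP : ∀ z, DifferentiableAt ℂ (fun z => H z * PP (Finset.Icc 1 M) a₁ (-z)) z := fun z =>
    (dH z).mul (dP z)
  have hin : ∀ c v : ℝ, -Y ≤ v → v ≤ Y → |(⟨c, t + v⟩ : ℂ).im - t| < Y + 5 := by
    intro c v h1 h2
    simp only [add_sub_cancel_left]
    exact abs_lt.mpr ⟨by linarith, by linarith⟩
  have cD : ContinuousOn (fun v : ℝ => D ⟨1, t + v⟩) (Icc (-Y) Y) :=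
    line_cont fun v h1 h2 => (h.hD _ (hin 1 v h1 h2)).differentiableAt
  have cHP : ContinuousOn (fun v : ℝ => H ⟨1, t + v⟩ * PP (Finset.Icc 1 M) a₁ (-⟨1, t + v⟩))
      (Icc (-Y) Y) :=
    line_cont (F := fun z => H z * PP (Finset.Icc 1 M) a₁ (-z)) fun v _ _ => dHP _
  have cZ : ContinuousOn (fun v : ℝ => (riemannZeta (1 / 2 + ⟨1, t + v⟩))⁻¹) (Icc (-Y) Y) := by
    refine line_cont (F := fun z => (riemannZeta (1 / 2 + z))⁻¹) ?_
    intro v h1 h2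
    have him : 0 < (⟨1, t + v⟩ : ℂ).im := by
      simp only
      linarith
    exact ((zeta_an him).differentiableAt).inv (by
      apply riemannZeta_ne_zero_of_one_lt_re
      norm_num)
  -- replace the reciprocal
  have s1 := VW_close2 (F := fun z => (riemannZeta (1 / 2 + z))⁻¹)
    (G := fun z => D z + (-1) * (H z * PP (Finset.Icc 1 M) a₁ (-z)))
    (f := fun y => ‖PP (Finset.Icc 1 N) a₂ ⟨-1, y⟩‖) (PP_cont _ _ _) (b := b) (Y := Y) (t := t)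
    (c := 1) (B := T) (B' := CX * AH.S0 + T * tl) hb0 hY0 (by positivity) cZ
    (cD.add (continuousOn_const.mul cHP)) (by
      intro v h1 h2
      have hv : |v| ≤ Y := abs_le.mpr ⟨h1, h2⟩
      set z : ℂ := ⟨1, t + v⟩ with hz
      have hζ : riemannZeta (1 / 2 + z) ≠ 0 := by
        apply riemannZeta_ne_zero_of_one_lt_re
        rw [hz]
        norm_num
      have hD1 : D z = ((1 - u * Xi β z) + H z) * (riemannZeta (1 / 2 + z))⁻¹ := by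
        rw [h.hDe z (hin 1 v h1 h2), mul_assoc, mul_inv_cancel₀ hζ, mul_one]
      have hiz := inv_zeta_le (z := z) (by rw [hz])
      set R := (riemannZeta (1 / 2 + z))⁻¹ with hR
      have e1 : R - (D z + (-1) * (H z * PP (Finset.Icc 1 M) a₁ (-z))) =
          u * Xi β z * R - H z * (R - PP (Finset.Icc 1 M) a₁ (-z)) := by
        rw [hD1]
        ring
      rw [e1, sub_mul]
      have hkw := kw_kk (c := 1) v hb (by norm_num)
      have hk0 := kk_nonneg b v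
      have p1 : ‖u * Xi β z * R * kw b⁻¹ 1 v‖ ≤ CX * AH.S0 * kk b v := by
        rw [norm_mul, norm_mul, norm_mul, h.hu, one_mul]
        exact mul_le_mul (mul_le_mul (hX1 v hv) hiz (norm_nonneg _) hCX) hkw (norm_nonneg _)
          (by positivity)
      have hz2 : (⟨-1, t + v⟩ : ℂ).re = -1 := rfl
      have p2 : ‖R - PP (Finset.Icc 1 M) a₁ (-z)‖ ≤ ‖PP (Finset.Icc 1 N) a₂ ⟨-1, t + v⟩‖ + tl := by
        have h5 := htail ⟨-1, t + v⟩ hz2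
        rw [hsplit] at h5
        have e2 : (1 / 2 - (starRingEnd ℂ) (⟨-1, t + v⟩ : ℂ)) = 1 / 2 + z := by
          rw [hz]
          apply Complex.ext
          · simp
          · simp
        rw [e2, ← hR] at h5
        have e3 : R - PP (Finset.Icc 1 M) a₁ (-z) = (starRingEnd ℂ) ((starRingEnd ℂ) R -
            (PP (Finset.Icc 1 M) a₁ ⟨-1, t + v⟩ + PP (Finset.Icc 1 N) a₂ ⟨-1, t + v⟩)) +
            (starRingEnd ℂ) (PP (Finset.Icc 1 N) a₂ ⟨-1, t + v⟩) := by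
          rw [hz, PP_refl ha₁, map_sub, map_add, Complex.conj_conj]
          ring
        rw [e3]
        refine (norm_add_le _ _).trans ?_
        rw [Complex.norm_conj, Complex.norm_conj]
        linarith
      have p3 : ‖H z * (R - PP (Finset.Icc 1 M) a₁ (-z)) * kw b⁻¹ 1 v‖ ≤
          T * kk b v * (‖PP (Finset.Icc 1 N) a₂ ⟨-1, t + v⟩‖ + tl) := by
        have e4 : H z * (R - PP (Finset.Icc 1 M) a₁ (-z)) * kw b⁻¹ 1 v =
            (H z * kw b⁻¹ 1 v) * (R - PP (Finset.Icc 1 M) a₁ (-z)) := by ring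
        rw [e4, norm_mul]
        have h6 := Hh_side h hb hY0 hℓ hΛ hq (Or.inl rfl) v
        rw [← hH, ← hz] at h6
        have h7 : ‖H z * kw b⁻¹ 1 v‖ ≤ T * kk b v :=
          h6.trans (mul_le_mul_of_nonneg_right hE hk0)
        exact mul_le_mul h7 p2 (norm_nonneg _) (by positivity)
      refine (norm_sub_le _ _).trans ((add_le_add p1 p3).trans (le_of_eq ?_))
      ring)
  have s2 : VW (fun z => D z + (-1) * (H z * PP (Finset.Icc 1 M) a₁ (-z))) b⁻¹ Y t 1 =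
      VW D b⁻¹ Y t 1 + (-1) * VW (fun z => H z * PP (Finset.Icc 1 M) a₁ (-z)) b⁻¹ Y t 1 := by
    rw [← VW_smul]
    exact VW_add (F := D) (G := fun z => (-1) * (H z * PP (Finset.Icc 1 M) a₁ (-z))) hY0 cD
      (continuousOn_const.mul cHP)
  rw [s2] at s1
  have s3 : ‖VW D b⁻¹ Y t 1 + (-1) * VW (fun z => H z * PP (Finset.Icc 1 M) a₁ (-z)) b⁻¹ Y t 1‖ ≤
      ‖VW D b⁻¹ Y t 1‖ + ‖VW (fun z => H z * PP (Finset.Icc 1 M) a₁ (-z)) b⁻¹ Y t 1‖ := by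
    refine (norm_add_le _ _).trans ?_
    rw [norm_mul, norm_neg, norm_one, one_mul]
  have hedge : ∀ c y : ℝ, 0 ≤ c → c ≤ 1 → |y - t| ≤ Y →
      ‖(fun z => H z * PP (Finset.Icc 1 M) a₁ (-z)) ⟨c, y⟩‖ ≤ Bh * Q := by
    intro c y hc0 hc1 hy
    simp only
    rw [norm_mul]
    have h8 : ‖PP (Finset.Icc 1 M) a₁ (-⟨c, y⟩)‖ ≤ Q := by
      rw [PP_refl ha₁, Complex.norm_conj]
      exact hP1 (-c) y (by linarith)
    exact mul_le_mul (hBh ⟨c, y⟩ hy (abs_le.mpr ⟨by linarith, by linarith⟩)) h8 (norm_nonneg _)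
      hBh0
  have s4 : ‖VW (fun z => H z * PP (Finset.Icc 1 M) a₁ (-z)) b⁻¹ Y t 1 -
      VW (fun z => H z * PP (Finset.Icc 1 M) a₁ (-z)) b⁻¹ Y t 0‖ ≤
      2 * ((Bh * Q) * ed b Y * (1 - 0)) := by
    apply VW_shift hY0 (by norm_num) (sc hb0 (by rw [abs_zero]; linarith))
      (sc hb0 (by rw [abs_one]; linarith)) (inv_pos.mpr hb0).le
    · intro z _ _ _ _
      exact dHP z
    · intro c hc0 hc1
      exact hedge c _ hc0 hc1 (by rw [add_sub_cancel_left, abs_neg, abs_of_nonneg hY0])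
    · intro c hc0 hc1
      exact hedge c _ hc0 hc1 (by rw [add_sub_cancel_left, abs_of_nonneg hY0])
  have s5 : ‖VW (fun z => H z * PP (Finset.Icc 1 M) a₁ (-z)) b⁻¹ Y t 1‖ ≤
      ‖VW (fun z => H z * PP (Finset.Icc 1 M) a₁ (-z)) b⁻¹ Y t 0‖ +
      ‖VW (fun z => H z * PP (Finset.Icc 1 M) a₁ (-z)) b⁻¹ Y t 1 -
      VW (fun z => H z * PP (Finset.Icc 1 M) a₁ (-z)) b⁻¹ Y t 0‖ := by
    have h9 := norm_add_le (VW (fun z => H z * PP (Finset.Icc 1 M) a₁ (-z)) b⁻¹ Y t 0)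
      (VW (fun z => H z * PP (Finset.Icc 1 M) a₁ (-z)) b⁻¹ Y t 1 -
      VW (fun z => H z * PP (Finset.Icc 1 M) a₁ (-z)) b⁻¹ Y t 0)
    rwa [add_sub_cancel] at h9
  linarith

end Pool.Agent.T9h53.AJ
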