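import Pool.Agent.T9h53.AJ.Wf

/-! # The axis terms on average -/

set_option autoImplicit false

open Complex Filter Topology Set MeasureTheory

namespace Pool.Agent.T9h53.AJ

open Pool.Agent.T9h53.SZ Pool.Agent.T9h53.AH Pool.Agent.T9h53.EQ

/-- the sum of the energies -/
noncomputable def ZZ (N : ℕ) (a₁ : ℕ → ℂ) (b Y ℓ t : ℝ) : ℝ :=
  2 * (‖Fp N a₁ b Y t 0‖ ^ 2 + ‖Fm N a₁ b Y t 0‖ ^ 2) +
    (∫ v in (0)..Y, ‖Fp N a₁ b Y t v‖ ^ 2 * (kk b v)⁻¹) +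
    (∫ v in (-Y)..0, ‖Fm N a₁ b Y t v‖ ^ 2 * (kk b v)⁻¹) +
    1 / ℓ * ∫ η in (-(2 * ℓ))..(2 * ℓ), ‖Rq N a₁ b Y t η‖ ^ 2

lemma ar_AX {c ℓ b Z1 Z2 Z3 Z4 : ℝ} (hc : 0 < c) (hℓ : 1 ≤ ℓ) (hZ1 : 0 ≤ Z1) (hZ4 : 0 ≤ Z4) :
    2 * c / √ℓ * (1 + Z1) + c * (Z2 + Z3 + 6 * b) +
      (ℓ / c / 2 * (c ^ 2 / ℓ) + 1 / (2 * (ℓ / c)) * Z4) ≤
    c * (3 + 6 * b) + c * (2 * Z1 + Z2 + Z3 + 1 / ℓ * Z4) := by
  have hℓ0 : 0 < ℓ := by linarith
  have h1 : 2 * c / √ℓ ≤ 2 * c := by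
    apply div_le_self (by positivity)
    rw [Real.one_le_sqrt]
    exact hℓ
  have h2 : 2 * c / √ℓ * (1 + Z1) ≤ 2 * c * (1 + Z1) := mul_le_mul_of_nonneg_right h1 (by linarith)
  have h3 : ℓ / c / 2 * (c ^ 2 / ℓ) = c / 2 := by
    field_simp
  have h4 : 1 / (2 * (ℓ / c)) * Z4 = c / 2 * (1 / ℓ * Z4) := by
    field_simp
  have h5 : 0 ≤ c * (1 / ℓ * Z4) := by positivity
  rw [h3, h4]
  nlinarith

lemma AX_le {N : ℕ} {a₁ : ℕ → ℂ} {b Y ℓ c t : ℝ} (hℓ : 1 ≤ ℓ) (hc : 0 < c) :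
    AX N a₁ b Y ℓ c (c ^ 2 / ℓ) (ℓ / c) t ≤ c * (3 + 6 * b) + c * ZZ N a₁ b Y ℓ t := by
  unfold AX ZZ
  apply ar_AX hc hℓ (by positivity)
  apply intervalIntegral.integral_nonneg (by linarith)
  intro v _
  positivity

theorem ZZ_mean {N : ℕ} {a : ℕ → ℂ} (ha : ∀ n, ‖a n‖ ≤ 1) {b Y T ℓ : ℝ} (hb : 0 < b) (hY : 0 ≤ Y)
    (hT : 10 ≤ T) (hℓ : 0 < ℓ) :
    (Continuous fun t => ZZ N a b Y ℓ t) ∧ (∀ t, 0 ≤ ZZ N a b Y ℓ t) ∧
    ∫ t in T..(T + T), ZZ N a b Y ℓ t ≤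
      (T + N) * (400 * ((6 * b) ^ 2 + 12) + 200 * ((6 * b) ^ 2 + 12) * (6 * b) +
        400 * (144 * b ^ 2 + 16) * ((1 + Real.log N) / ℓ)) := by
  obtain ⟨c1, m1⟩ := Z1_mean (N := N) ha hb hY hT
  obtain ⟨c2, m2⟩ := Z2_mean (N := N) ha hb hY hT
  obtain ⟨c3, m3⟩ := Z3_mean (N := N) ha hb hY hT
  obtain ⟨c4, m4⟩ := Z4_mean (N := N) (B₀ := 2 * ℓ) ha hb hY hT (by positivity)
  refine ⟨?_, ?_, ?_⟩
  · exact (((c1.const_mul 2).add c2).add c3).add (c4.const_mul (1 / ℓ))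
  · intro t
    unfold ZZ
    have h2 : 0 ≤ ∫ v in (0)..Y, ‖Fp N a b Y t v‖ ^ 2 * (kk b v)⁻¹ := by
      apply intervalIntegral.integral_nonneg hY
      intro v _
      have := kk_pos b v
      positivity
    have h3 : 0 ≤ ∫ v in (-Y)..0, ‖Fm N a b Y t v‖ ^ 2 * (kk b v)⁻¹ := by
      apply intervalIntegral.integral_nonneg (by linarith)
      intro v _
      have := kk_pos b v
      positivity
    have h4 : 0 ≤ ∫ η in (-(2 * ℓ))..(2 * ℓ), ‖Rq N a b Y t η‖ ^ 2 := by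
      apply intervalIntegral.integral_nonneg (by linarith)
      intro v _
      positivity
    positivity
  · unfold ZZ
    have i1 : IntervalIntegrable (fun t => 2 * (‖Fp N a b Y t 0‖ ^ 2 + ‖Fm N a b Y t 0‖ ^ 2))
        volume T (T + T) := (c1.const_mul 2).intervalIntegrable _ _
    have i2 := c2.intervalIntegrable (μ := volume) T (T + T)
    have i3 := c3.intervalIntegrable (μ := volume) T (T + T)
    have i4 : IntervalIntegrable (fun t => 1 / ℓ * ∫ η in (-(2 * ℓ))..(2 * ℓ),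
        ‖Rq N a b Y t η‖ ^ 2) volume T (T + T) := (c4.const_mul (1 / ℓ)).intervalIntegrable _ _
    rw [intervalIntegral.integral_add ((i1.add i2).add i3) i4,
      intervalIntegral.integral_add (i1.add i2) i3, intervalIntegral.integral_add i1 i2,
      intervalIntegral.integral_const_mul, intervalIntegral.integral_const_mul]
    have m4' : 1 / ℓ * ∫ t in T..(T + T), ∫ η in (-(2 * ℓ))..(2 * ℓ), ‖Rq N a b Y t η‖ ^ 2 ≤
        1 / ℓ * (100 * (T + N) * (144 * b ^ 2 + 16) * (4 * (1 + Real.log N))) :=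
      mul_le_mul_of_nonneg_left m4 (by positivity)
    have e : 1 / ℓ * (100 * (T + N) * (144 * b ^ 2 + 16) * (4 * (1 + Real.log N))) =
        (T + N) * (400 * (144 * b ^ 2 + 16) * ((1 + Real.log N) / ℓ)) := by
      field_simp
      ring
    rw [e] at m4'
    linarith

/-- the set where the energies are large -/
theorem ZZ_meas {N : ℕ} {a : ℕ → ℂ} (ha : ∀ n, ‖a n‖ ≤ 1) {b Y T ℓ R A : ℝ} (hb : 0 < b)
    (hY : 0 ≤ Y) (hT : 10 ≤ T) (hR : 1 ≤ R) (hℓe : ℓ = Real.log T) (hℓ : 1 ≤ ℓ) (hN1 : 1 ≤ N)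
    (hN : (N : ℝ) ≤ 6 * R * T) (hA : 0 < A) {G : Set ℝ} (hG : G ⊆ Ioc T (T + T))
    (hlow : ∀ t ∈ G, A ≤ ZZ N a b Y ℓ t) :
    volume.real G ≤ (1 + 6 * R) * (400 * ((6 * b) ^ 2 + 12) + 200 * ((6 * b) ^ 2 + 12) * (6 * b) +
        400 * (144 * b ^ 2 + 16) * (2 + Real.log (6 * R))) * T / A := by
  have hℓ0 : 0 < ℓ := by linarith
  have hT0 : 0 < T := by linarith
  obtain ⟨h1, h2, h3⟩ := ZZ_mean (N := N) ha (b := b) (Y := Y) (T := T) (ℓ := ℓ) hb hY hT hℓ0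
  have hl6 : 0 ≤ Real.log (6 * R) := Real.log_nonneg (by linarith)
  have hN0 : (0 : ℝ) < N := by exact_mod_cast hN1
  have hl : Real.log N ≤ Real.log (6 * R) + ℓ := by
    rw [hℓe, ← Real.log_mul (by positivity) hT0.ne']
    exact Real.log_le_log hN0 hN
  have h4 : (1 + Real.log N) / ℓ ≤ 2 + Real.log (6 * R) := by
    rw [div_le_iff₀ hℓ0]
    nlinarith
  refine (markov_int h1 h2 (by linarith) ?_ hA hG hlow).trans le_rfl
  refine h3.trans ?_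
  have h5 : T + N ≤ (1 + 6 * R) * T := by linarith
  have hlN : 0 ≤ Real.log N := Real.log_nonneg (by exact_mod_cast hN1)
  calc (T + N) * (400 * ((6 * b) ^ 2 + 12) + 200 * ((6 * b) ^ 2 + 12) * (6 * b) +
        400 * (144 * b ^ 2 + 16) * ((1 + Real.log N) / ℓ)) ≤
      ((1 + 6 * R) * T) * (400 * ((6 * b) ^ 2 + 12) + 200 * ((6 * b) ^ 2 + 12) * (6 * b) +
        400 * (144 * b ^ 2 + 16) * (2 + Real.log (6 * R))) := by
        gcongr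
    _ = _ := by ring

end Pool.Agent.T9h53.AJ
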